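import Mathlib

/-!
Basic notions for the Wadge order on the real line.
-/

namespace Helper98.Wadge

open Set

/-- `s < t` are consecutive points of `S`. -/
def Gap (S : Set ℝ) (s t : ℝ) : Prop := s < t ∧ s ∈ S ∧ t ∈ S ∧ ∀ x ∈ Ioo s t, x ∉ S

/-- Every point of `X` is a two sided limit of points of `X`, and the same for the complement. -/
def Bal (X : Set ℝ) : Prop := ∀ x : ℝ, ∀ ε > 0,
  (∃ y ∈ Ioo x (x + ε), (y ∈ X ↔ x ∈ X)) ∧ (∃ y ∈ Ioo (x - ε) x, (y ∈ X ↔ x ∈ X))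

/-- Points of both colours accumulate at `x` from the right. -/
def RA (X : Set ℝ) (x : ℝ) : Prop := ∀ ε > 0, (∃ y ∈ Ioo x (x + ε), y ∈ X) ∧ (∃ y ∈ Ioo x (x + ε), y ∉ X)

/-- Points of both colours accumulate at `x` from the left. -/
def LA (X : Set ℝ) (x : ℝ) : Prop := ∀ ε > 0, (∃ y ∈ Ioo (x - ε) x, y ∈ X) ∧ (∃ y ∈ Ioo (x - ε) x, y ∉ X)

/-- Both colours accumulate at `y` from the side of `z`. -/
def Tow (X : Set ℝ) (y z : ℝ) : Prop := (y < z ∧ RA X y) ∨ (z < y ∧ LA X y)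

/-- The reflected set. -/
def ng (X : Set ℝ) : Set ℝ := {x | -x ∈ X}

theorem mem_ng {X : Set ℝ} {x : ℝ} : x ∈ ng X ↔ -x ∈ X := Iff.rfl

theorem ng_ng (X : Set ℝ) : ng (ng X) = X := by
  ext x; simp [ng]

theorem Bal.ng {X : Set ℝ} (h : Bal X) : Bal (ng X) := by
  intro x ε hε
  obtain ⟨⟨y, hy, hy'⟩, ⟨w, hw, hw'⟩⟩ := h (-x) ε hε
  refine ⟨⟨-w, ?_, ?_⟩, ⟨-y, ?_, ?_⟩⟩
  · constructor <;> [linarith [hw.2]; linarith [hw.1]]
  · simp only [mem_ng, neg_neg]; exact hw'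
  · constructor <;> [linarith [hy.2]; linarith [hy.1]]
  · simp only [mem_ng, neg_neg]; exact hy'

theorem Bal.compl {X : Set ℝ} (h : Bal X) : Bal Xᶜ := by
  intro x ε hε
  obtain ⟨⟨y, hy, hy'⟩, ⟨w, hw, hw'⟩⟩ := h x ε hε
  exact ⟨⟨y, hy, not_congr hy'⟩, ⟨w, hw, not_congr hw'⟩⟩

theorem RA_ng {X : Set ℝ} {x : ℝ} : RA (ng X) x ↔ LA X (-x) := by
  constructor
  · intro h ε hε
    obtain ⟨⟨y, hy, hy'⟩, ⟨w, hw, hw'⟩⟩ := h ε hε
    exact ⟨⟨-y, ⟨by linarith [hy.2], by linarith [hy.1]⟩, hy'⟩,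
      ⟨-w, ⟨by linarith [hw.2], by linarith [hw.1]⟩, hw'⟩⟩
  · intro h ε hε
    obtain ⟨⟨y, hy, hy'⟩, ⟨w, hw, hw'⟩⟩ := h ε hε
    exact ⟨⟨-y, ⟨by linarith [hy.2], by linarith [hy.1]⟩, by simpa [mem_ng] using hy'⟩,
      ⟨-w, ⟨by linarith [hw.2], by linarith [hw.1]⟩, by simpa [mem_ng] using hw'⟩⟩

theorem LA_ng {X : Set ℝ} {x : ℝ} : LA (ng X) x ↔ RA X (-x) := by
  rw [← ng_ng X, ← neg_neg x, ng_ng X, neg_neg]
  constructor
  · intro h ε hε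
    obtain ⟨⟨y, hy, hy'⟩, ⟨w, hw, hw'⟩⟩ := h ε hε
    exact ⟨⟨-y, ⟨by linarith [hy.2], by linarith [hy.1]⟩, hy'⟩,
      ⟨-w, ⟨by linarith [hw.2], by linarith [hw.1]⟩, hw'⟩⟩
  · intro h ε hε
    obtain ⟨⟨y, hy, hy'⟩, ⟨w, hw, hw'⟩⟩ := h ε hε
    exact ⟨⟨-y, ⟨by linarith [hy.2], by linarith [hy.1]⟩, by simpa [mem_ng] using hy'⟩,
      ⟨-w, ⟨by linarith [hw.2], by linarith [hw.1]⟩, by simpa [mem_ng] using hw'⟩⟩

theorem Tow_ng {X : Set ℝ} {y z : ℝ} : Tow (ng X) y z ↔ Tow X (-y) (-z) := by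
  unfold Tow
  rw [RA_ng, LA_ng]
  constructor
  · rintro (⟨h1, h2⟩ | ⟨h1, h2⟩)
    · exact Or.inr ⟨by linarith, h2⟩
    · exact Or.inl ⟨by linarith, h2⟩
  · rintro (⟨h1, h2⟩ | ⟨h1, h2⟩)
    · exact Or.inr ⟨by linarith, h2⟩
    · exact Or.inl ⟨by linarith, h2⟩

/-- Under balance, accumulation of the opposite colour suffices. -/
theorem Bal.RA_of {X : Set ℝ} (h : Bal X) {x : ℝ}
    (hx : ∀ ε > 0, ∃ y ∈ Ioo x (x + ε), (y ∈ X ↔ x ∉ X)) : RA X x := by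
  intro ε hε
  obtain ⟨y, hy, hy'⟩ := hx ε hε
  obtain ⟨w, hw, hw'⟩ := (h x ε hε).1
  by_cases hxX : x ∈ X
  · exact ⟨⟨w, hw, hw'.2 hxX⟩, ⟨y, hy, fun h => (hy'.1 h) hxX⟩⟩
  · exact ⟨⟨y, hy, hy'.2 hxX⟩, ⟨w, hw, fun h => hxX (hw'.1 h)⟩⟩

/-- Right end of the monochromatic interval of `w`. -/
theorem Bal.right_end {X : Set ℝ} (h : Bal X) {w w2 : ℝ} (hw : w < w2)
    (hc : w2 ∈ X ↔ w ∉ X) :
    ∃ t, w ≤ t ∧ t < w2 ∧ (∀ y ∈ Icc w t, (y ∈ X ↔ w ∈ X)) ∧ RA X t := by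
  set O : Set ℝ := {x | x ∈ Icc w w2 ∧ (x ∈ X ↔ w ∉ X)} with hO
  have hne : O.Nonempty := ⟨w2, ⟨hw.le, le_rfl⟩, hc⟩
  have hbdd : BddBelow O := ⟨w, fun x hx => hx.1.1⟩
  set t := sInf O with ht
  have hwt : w ≤ t := le_csInf hne (fun x hx => hx.1.1)
  have htw : t ≤ w2 := csInf_le hbdd ⟨⟨hw.le, le_rfl⟩, hc⟩
  have hlt : ∀ y, w ≤ y → y < t → (y ∈ X ↔ w ∈ X) := by
    intro y hy1 hy2
    by_contra hcon
    have : y ∈ O := ⟨⟨hy1, by linarith⟩, by tauto⟩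
    exact absurd (csInf_le hbdd this) (not_le.2 hy2)
  have htc : (t ∈ X ↔ w ∈ X) := by
    by_contra hcon
    have htne : t ≠ w := by rintro e; rw [e] at hcon; exact hcon Iff.rfl
    have htlt : w < t := lt_of_le_of_ne hwt (Ne.symm htne)
    obtain ⟨y, hy, hy'⟩ := (h t (t - w) (by linarith)).2
    have := hlt y (by linarith [hy.1]) hy.2
    tauto
  have htw2 : t < w2 := by
    rcases htw.lt_or_eq with h1 | h1
    · exact h1
    · exfalso; rw [h1] at htc; tauto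
  refine ⟨t, hwt, htw2, ?_, ?_⟩
  · intro y hy
    rcases hy.2.lt_or_eq with h1 | h1
    · exact hlt y hy.1 h1
    · rw [h1]; exact htc
  · apply h.RA_of
    intro ε hε
    obtain ⟨x, hx, hxlt⟩ := exists_lt_of_csInf_lt hne (show sInf O < t + ε by linarith)
    have htx : t ≤ x := csInf_le hbdd hx
    have hne' : t ≠ x := by
      rintro e
      rw [← e] at hx
      have := hx.2
      tauto
    exact ⟨x, ⟨lt_of_le_of_ne htx hne', hxlt⟩, by have := hx.2; tauto⟩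

/-- Left end of the monochromatic interval of `w`. -/
theorem Bal.left_end {X : Set ℝ} (h : Bal X) {w w1 : ℝ} (hw : w1 < w)
    (hc : w1 ∈ X ↔ w ∉ X) :
    ∃ t, t ≤ w ∧ w1 < t ∧ (∀ y ∈ Icc t w, (y ∈ X ↔ w ∈ X)) ∧ LA X t := by
  obtain ⟨t, h1, h2, h3, h4⟩ := h.ng.right_end (w := -w) (w2 := -w1) (by linarith)
    (by simpa [mem_ng] using hc)
  refine ⟨-t, by linarith, by linarith, ?_, ?_⟩
  · intro y hy
    have := h3 (-y) ⟨by linarith [hy.2], by linarith [hy.1]⟩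
    simpa [mem_ng] using this
  · exact RA_ng.1 h4

/-- `[s,t]` is a maximal monochromatic interval of colour `χ`. -/
structure Ob (X : Set ℝ) (χ : Prop) (s t : ℝ) : Prop where
  le : s ≤ t
  col : ∀ x ∈ Icc s t, (x ∈ X ↔ χ)
  la : LA X s
  ra : RA X t

theorem Bal.exists_ob {X : Set ℝ} (h : Bal X) {w w1 w2 : ℝ} (hw1 : w1 < w) (hw2 : w < w2)
    (hc1 : w1 ∈ X ↔ w ∉ X) (hc2 : w2 ∈ X ↔ w ∉ X) :
    ∃ s t, w1 < s ∧ s ≤ w ∧ w ≤ t ∧ t < w2 ∧ Ob X (w ∈ X) s t := by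
  obtain ⟨t, h1, h2, h3, h4⟩ := h.right_end hw2 hc2
  obtain ⟨s, h1', h2', h3', h4'⟩ := h.left_end hw1 hc1
  refine ⟨s, t, h2', h1', h1, h2, ⟨by linarith, ?_, h4', h4⟩⟩
  intro x hx
  rcases le_total x w with hxw | hxw
  · exact h3' x ⟨hx.1, hxw⟩
  · exact h3 x ⟨hxw, hx.2⟩

/-- In an interval to the right of a right active point, and for each colour, there is an object. -/
theorem Bal.ob_right {X : Set ℝ} (h : Bal X) {y ε : ℝ} (hy : RA X y) (hε : 0 < ε) (χ : Prop) :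
    ∃ s t, y < s ∧ s ≤ t ∧ t < y + ε ∧ Ob X χ s t := by
  -- opposite colour point w2, then colour point w, then opposite colour point w1
  have key : ∀ ε > 0, ∀ ψ : Prop, ∃ x ∈ Ioo y (y + ε), (x ∈ X ↔ ψ) := by
    intro ε hε ψ
    by_cases hψ : ψ
    · obtain ⟨x, hx, hx'⟩ := (hy ε hε).1
      exact ⟨x, hx, by simp [hψ, hx']⟩
    · obtain ⟨x, hx, hx'⟩ := (hy ε hε).2
      exact ⟨x, hx, by simp [hψ, hx']⟩
  obtain ⟨w2, hw2, hc2⟩ := key ε hε (¬ χ)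
  obtain ⟨w, hw, hc⟩ := key (w2 - y) (by linarith [hw2.1]) χ
  obtain ⟨w1, hw1, hc1⟩ := key (w - y) (by linarith [hw.1]) (¬ χ)
  obtain ⟨s, t, h1, h2, h3, h4, h5⟩ := h.exists_ob (w := w) (w1 := w1) (w2 := w2)
    (by linarith [hw1.2]) (by linarith [hw.2]) (by tauto) (by tauto)
  refine ⟨s, t, by linarith [hw1.1], by linarith, by linarith [hw2.2], ⟨h5.le, ?_, h5.la, h5.ra⟩⟩
  intro x hx
  rw [h5.col x hx, hc]

theorem Ob.ng {X : Set ℝ} {χ : Prop} {s t : ℝ} (h : Ob (ng X) χ s t) : Ob X χ (-t) (-s) := by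
  refine ⟨by linarith [h.le], ?_, ?_, ?_⟩
  · intro x hx
    have := h.col (-x) ⟨by linarith [hx.2], by linarith [hx.1]⟩
    simpa [mem_ng] using this
  · exact RA_ng.1 h.ra
  · exact LA_ng.1 h.la

theorem Bal.ob_left {X : Set ℝ} (h : Bal X) {y ε : ℝ} (hy : LA X y) (hε : 0 < ε) (χ : Prop) :
    ∃ s t, y - ε < s ∧ s ≤ t ∧ t < y ∧ Ob X χ s t := by
  obtain ⟨s, t, h1, h2, h3, h4⟩ := h.ng.ob_right (y := -y) (RA_ng.2 (by simpa using hy)) hε χ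
  exact ⟨-t, -s, by linarith, by linarith, by linarith, h4.ng⟩

/-- `p` (towards `y`) and `q` (towards `z`) are the ends of a monochromatic object
lying strictly between `y` and `z`. -/
structure Nb (X : Set ℝ) (χ : Prop) (y z p q : ℝ) : Prop where
  ne1 : p ≠ y
  ne2 : q ≠ z
  mp : p ∈ uIcc y z
  mq : q ∈ uIcc p z
  col : ∀ x ∈ uIcc p q, (x ∈ X ↔ χ)
  tp : Tow X p y
  tq : Tow X q z

theorem Nb.mq' {X : Set ℝ} {χ : Prop} {y z p q : ℝ} (h : Nb X χ y z p q) : q ∈ uIcc y z :=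
  uIcc_subset_uIcc h.mp right_mem_uIcc h.mq

theorem Nb.mp' {X : Set ℝ} {χ : Prop} {y z p q : ℝ} (h : Nb X χ y z p q) : p ∈ uIcc y q := by
  have h1 := h.mp
  have h2 := h.mq
  rw [mem_uIcc] at h1 h2 ⊢
  rcases h1 with ⟨a, b⟩ | ⟨a, b⟩ <;> rcases h2 with ⟨c, d⟩ | ⟨c, d⟩
  · left; constructor <;> linarith
  · left; constructor <;> linarith
  · right; constructor <;> linarith
  · right; constructor <;> linarith

theorem Nb.symm {X : Set ℝ} {χ : Prop} {y z p q : ℝ} (h : Nb X χ y z p q) : Nb X χ z y q p :=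
  ⟨h.ne2, h.ne1, by have := h.mq'; rwa [uIcc_comm], by have := h.mp'; rwa [uIcc_comm],
    by rw [uIcc_comm]; exact h.col, h.tq, h.tp⟩

theorem Nb.of_ob {X : Set ℝ} {χ : Prop} {y z p q : ℝ} (h : Ob X χ p q) (h1 : y < p) (h2 : q < z) :
    Nb X χ y z p q := by
  have := h.le
  refine ⟨by linarith, by linarith, ?_, ?_, ?_, Or.inr ⟨h1, h.la⟩, Or.inl ⟨h2, h.ra⟩⟩
  · rw [uIcc_of_le (by linarith)]; exact ⟨h1.le, by linarith⟩
  · rw [uIcc_of_le (by linarith)]; exact ⟨this, h2.le⟩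
  · rw [uIcc_of_le this]; exact h.col

/-- Object of colour `χ` near `y`. -/
theorem Bal.nb_near {X : Set ℝ} (h : Bal X) {y z ε : ℝ} (hy : Tow X y z) (hε : 0 < ε) (χ : Prop) :
    ∃ p q, Nb X χ y z p q ∧ |p - y| < ε ∧ |q - y| < ε := by
  rcases hy with ⟨hyz, hy⟩ | ⟨hyz, hy⟩
  · obtain ⟨s, t, h1, h2, h3, h4⟩ := h.ob_right hy (ε := min ε (z - y)) (lt_min hε (by linarith)) χ
    have h5 := min_le_left ε (z - y)
    have h6 := min_le_right ε (z - y)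
    refine ⟨s, t, Nb.of_ob h4 h1 (by linarith), ?_, ?_⟩
    · rw [abs_lt]; constructor <;> linarith
    · rw [abs_lt]; constructor <;> linarith
  · obtain ⟨s, t, h1, h2, h3, h4⟩ := h.ob_left hy (ε := min ε (y - z)) (lt_min hε (by linarith)) χ
    have h5 := min_le_left ε (y - z)
    have h6 := min_le_right ε (y - z)
    refine ⟨t, s, (Nb.of_ob h4 (by linarith) h3).symm, ?_, ?_⟩
    · rw [abs_lt]; constructor <;> linarith
    · rw [abs_lt]; constructor <;> linarith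

/-- Object through a given point `m` strictly between `y` and `z`. -/
theorem Bal.nb_at {X : Set ℝ} (h : Bal X) {y z m : ℝ} (hy : Tow X y z) (hz : Tow X z y)
    (hm : m ∈ uIcc y z) (hmy : m ≠ y) (hmz : m ≠ z) :
    ∃ p q, Nb X (m ∈ X) y z p q ∧ m ∈ uIcc p q := by
  have aux : ∀ y z m : ℝ, y < m → m < z → RA X y → LA X z →
      ∃ p q, Nb X (m ∈ X) y z p q ∧ m ∈ uIcc p q := by
    intro y z m h1 h2 hRA hLA
    have k1 : ∃ w1, y < w1 ∧ w1 < m ∧ (w1 ∈ X ↔ m ∉ X) := by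
      by_cases hmX : m ∈ X
      · obtain ⟨x, hx, hx'⟩ := (hRA (m - y) (by linarith)).2
        exact ⟨x, hx.1, by linarith [hx.2], by tauto⟩
      · obtain ⟨x, hx, hx'⟩ := (hRA (m - y) (by linarith)).1
        exact ⟨x, hx.1, by linarith [hx.2], by tauto⟩
    have k2 : ∃ w2, m < w2 ∧ w2 < z ∧ (w2 ∈ X ↔ m ∉ X) := by
      by_cases hmX : m ∈ X
      · obtain ⟨x, hx, hx'⟩ := (hLA (z - m) (by linarith)).2
        exact ⟨x, by linarith [hx.1], hx.2, by tauto⟩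
      · obtain ⟨x, hx, hx'⟩ := (hLA (z - m) (by linarith)).1
        exact ⟨x, by linarith [hx.1], hx.2, by tauto⟩
    obtain ⟨w1, hw1, hw1', hc1⟩ := k1
    obtain ⟨w2, hw2, hw2', hc2⟩ := k2
    obtain ⟨s, t, a1, a2, a3, a4, a5⟩ := h.exists_ob hw1' hw2 hc1 hc2
    exact ⟨s, t, Nb.of_ob a5 (by linarith) (by linarith), by
      rw [uIcc_of_le a5.le]; exact ⟨a2, a3⟩⟩
  rcases hy with ⟨hyz, hy⟩ | ⟨hyz, hy⟩
  · rcases hz with ⟨hzy, hz⟩ | ⟨hzy, hz⟩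
    · linarith
    · rw [uIcc_of_le hyz.le] at hm
      exact aux y z m (lt_of_le_of_ne hm.1 (Ne.symm hmy)) (lt_of_le_of_ne hm.2 hmz) hy hz
  · rcases hz with ⟨hzy, hz⟩ | ⟨hzy, hz⟩
    · rw [uIcc_of_ge hyz.le] at hm
      obtain ⟨p, q, h1, h2⟩ := aux z y m (lt_of_le_of_ne hm.1 (Ne.symm hmz))
        (lt_of_le_of_ne hm.2 hmy) hz hy
      exact ⟨q, p, h1.symm, by rwa [uIcc_comm]⟩
    · linarith

/-- Gaps of closed sets around missing points. -/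
theorem exists_gap {S : Set ℝ} (hS : IsClosed S) {u v x : ℝ} (hu : u ∈ S) (hv : v ∈ S)
    (hx : x ∈ Icc u v) (hxS : x ∉ S) : ∃ s t, Gap S s t ∧ x ∈ Ioo s t ∧ u ≤ s ∧ t ≤ v := by
  have h1 : (S ∩ Iic x).Nonempty := ⟨u, hu, hx.1⟩
  have h2 : (S ∩ Ici x).Nonempty := ⟨v, hv, hx.2⟩
  have b1 : BddAbove (S ∩ Iic x) := ⟨x, fun y hy => hy.2⟩
  have b2 : BddBelow (S ∩ Ici x) := ⟨x, fun y hy => hy.2⟩
  have c1 : sSup (S ∩ Iic x) ∈ S ∩ Iic x := (hS.inter isClosed_Iic).csSup_mem h1 b1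
  have c2 : sInf (S ∩ Ici x) ∈ S ∩ Ici x := (hS.inter isClosed_Ici).csInf_mem h2 b2
  have d1 : sSup (S ∩ Iic x) < x := lt_of_le_of_ne c1.2 (fun e => hxS (e ▸ c1.1))
  have d2 : x < sInf (S ∩ Ici x) := lt_of_le_of_ne c2.2 (fun e => hxS (e ▸ c2.1))
  refine ⟨sSup (S ∩ Iic x), sInf (S ∩ Ici x), ⟨d1.trans d2, c1.1, c2.1, ?_⟩, ⟨d1, d2⟩,
    le_csSup b1 ⟨hu, hx.1⟩, csInf_le b2 ⟨hv, hx.2⟩⟩
  intro y hy hyS
  rcases le_total y x with h | h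
  · exact absurd (le_csSup b1 ⟨hyS, h⟩) (not_le.2 hy.1)
  · exact absurd (csInf_le b2 ⟨hyS, h⟩) (not_le.2 hy.2)

theorem Gap.unique {S : Set ℝ} {s t s' t' x : ℝ} (h : Gap S s t) (h' : Gap S s' t')
    (hx : x ∈ Ioo s t) (hx' : x ∈ Ioo s' t') : s = s' ∧ t = t' := by
  obtain ⟨_, h2, h3, h4⟩ := h
  obtain ⟨_, h2', h3', h4'⟩ := h'
  constructor
  · rcases lt_trichotomy s s' with e | e | e
    · exact absurd h2' (h4 s' ⟨e, by linarith [hx'.1, hx.2]⟩)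
    · exact e
    · exact absurd h2 (h4' s ⟨e, by linarith [hx.1, hx'.2]⟩)
  · rcases lt_trichotomy t t' with e | e | e
    · exact absurd h3 (h4' t ⟨by linarith [hx'.1, hx.2], e⟩)
    · exact e
    · exact absurd h3' (h4 t' ⟨by linarith [hx.1, hx'.2], e⟩)

end Helper98.Wadge
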