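import Pool.Agent.Helper98_Wadge.GStep

namespace Helper98.Wadge

open Set Filter Topology

section ctx

variable {A B : Set ℝ} {F G : ℕ → Set ℝ} {c0 d0 : ℝ}

theorem hered_size (C : ℝ) : Hered (fun _ _ p q => |p - q| ≤ C) := by
  intro u v y z s t p q h _ _ hp hq
  exact (abs_sub_le_of_uIcc hp hq).trans h

theorem hered_all (F G : ℕ → Set ℝ) (k : ℕ) :
    Hered (fun s t p q => ∀ j < k, MissF F j s t p q ∧ MissG G j s t p q) := by
  intro u v y z s t p q h hs ht hp hq j hj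
  exact ⟨hered_MissF F j _ _ _ _ _ _ _ _ (h j hj).1 hs ht hp hq,
    hered_MissG G j _ _ _ _ _ _ _ _ (h j hj).2 hs ht hp hq⟩

theorem Ctx.goodBox (hc : Ctx A B F G c0 d0) {u v y z : ℝ} (h : Good A B c0 d0 u v y z) :
    Sol A B (fun _ _ _ _ => False) u v y z := by
  have hC : 0 < |y - z| := abs_pos.2 (sub_ne_zero.2 h.1.t1.ne)
  refine fusion (L := fun k s t p q => Good A B c0 d0 s t p q ∧
    |p - q| ≤ |y - z| * (1 / 2) ^ k ∧ ∀ j < k, MissF F j s t p q ∧ MissG G j s t p q)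
    hC.le ?_ ?_ ?_ ?_
  · rintro k s t p q ⟨h1, _, h3⟩
    have hε : 0 < |y - z| * (1 / 2) ^ (k + 1) := by positivity
    have s1 := (hc.fstep k h1).and_hered (hered_all F G k) h3
    have s2 : Sol A B (fun a b c d => (Good A B c0 d0 a b c d ∧ MissF F k a b c d) ∧
        ∀ j < k, MissF F j a b c d ∧ MissG G j a b c d) s t p q := by
      refine s1.comp ?_
      rintro a b c d ⟨⟨h4, h5⟩, h6⟩
      exact ((hc.zstep h4).and_hered (hered_MissF F k) h5).and_hered (hered_all F G k) h6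
    have s3 : Sol A B (fun a b c d => (Froz A B G c0 d0 k a b c d ∧ MissF F k a b c d) ∧
        ∀ j < k, MissF F j a b c d ∧ MissG G j a b c d) s t p q := by
      refine s2.comp ?_
      rintro a b c d ⟨⟨h4, h5⟩, h6⟩
      exact ((hc.gstep k h4).and_hered (hered_MissF F k) h5).and_hered (hered_all F G k) h6
    have s4 : Sol A B (fun a b c d => Adm A B c0 d0 a b c d ∧
        ∀ j < k + 1, MissF F j a b c d ∧ MissG G j a b c d) s t p q := by
      refine s3.mono ?_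
      rintro a b c d ⟨⟨⟨h4, h4'⟩, h5⟩, h6⟩
      refine ⟨h4, fun j hj => ?_⟩
      rcases Nat.lt_succ_iff_lt_or_eq.1 hj with h8 | h8
      · exact h6 j h8
      · subst h8; exact ⟨h5, h4'⟩
    have s5 : Sol A B (fun a b c d => (Adm A B c0 d0 a b c d ∧
        |c - d| ≤ |y - z| * (1 / 2) ^ (k + 1)) ∧
        ∀ j < k + 1, MissF F j a b c d ∧ MissG G j a b c d) s t p q := by
      refine s4.comp ?_
      rintro a b c d ⟨h4, h5⟩
      exact (hc.shrink hε h4).and_hered (hered_all F G (k + 1)) h5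
    refine s5.comp ?_
    rintro a b c d ⟨⟨h4, h5⟩, h6⟩
    refine (((hc.zstep h4).and_hered (hered_size _) h5).and_hered
      (hered_all F G (k + 1)) h6).mono ?_
    rintro a' b' c' d' ⟨⟨h7, h8⟩, h9⟩
    exact Or.inl ⟨h7, h8, h9⟩
  · rintro k s t p q ⟨_, h2, _⟩
    exact h2
  · intro x w hx
    have h1 : x ∉ A := by
      intro hxA
      obtain ⟨j, hj⟩ := hc.FU x hxA
      obtain ⟨s, t, p, q, ⟨_, _, h3⟩, h4, _⟩ := hx (j + 1)
      exact (h3 j (Nat.lt_succ_self j)).1 x h4 hj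
    have h2 : w ∉ B := by
      intro hwB
      obtain ⟨j, hj⟩ := hc.GU w hwB
      obtain ⟨s, t, p, q, ⟨hg, _, h3⟩, _, h5⟩ := hx (j + 1)
      refine (h3 j (Nat.lt_succ_self j)).2 w h5 ?_ ?_ hj
      · rintro rfl; exact hg.2.1 (hg.1.c1.2 hwB)
      · rintro rfl; exact hg.2.2 (hg.1.c2.2 hwB)
    exact ⟨fun h => absurd h h1, fun h => absurd h h2⟩
  · exact ⟨h, by simp, fun j hj => absurd hj (Nat.not_lt_zero j)⟩

theorem Ctx.box (hc : Ctx A B F G c0 d0) {u v y z : ℝ} (h : Adm A B c0 d0 u v y z) :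
    ∃ φ : ℝ → ℝ, Continuous φ ∧ φ u = y ∧ φ v = z ∧ ∀ x ∈ Icc u v, (x ∈ A ↔ φ x ∈ B) := by
  obtain ⟨S, φ, hs⟩ := (hc.zstep h).comp (fun _ _ _ _ h => hc.goodBox h)
  have hall : ∀ x ∈ Icc u v, x ∈ S := by
    intro x hx
    by_contra hcon
    obtain ⟨s, t, g, _⟩ := exists_gap hs.closed hs.mem_u hs.mem_v hx hcon
    exact hs.gap s t g
  have huv := hs.lt.le
  refine ⟨fun x => φ (projIcc u v huv x), ?_, ?_, ?_, ?_⟩
  · exact (continuousOn_iff_continuous_domRestrict.1 hs.cont).comp continuous_projIcc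
  · simp only [projIcc_left]; exact hs.fu
  · simp only [projIcc_right]; exact hs.fv
  · intro x hx
    show x ∈ A ↔ φ (projIcc u v huv x) ∈ B
    rw [projIcc_of_mem huv hx]
    exact hs.col x (hall x hx)

open Classical in
/-- The target value of a settled point. -/
noncomputable def tgt (A : Set ℝ) (c d x : ℝ) : ℝ := if x ∈ A then c else d

/-- Local reductions with prescribed end values. -/
def Red (A B : Set ℝ) (c d a b : ℝ) : Prop := ∃ φ : ℝ → ℝ, Continuous φ ∧ φ a = tgt A c d a ∧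
  φ b = tgt A c d b ∧ ∀ x ∈ Icc a b, (x ∈ A ↔ φ x ∈ B)

theorem Red.concat {c d a m b : ℝ} (h1 : Red A B c d a m) (h2 : Red A B c d m b) (am : a ≤ m)
    (mb : m ≤ b) : Red A B c d a b := by
  obtain ⟨φ, c1, a1, b1, r1⟩ := h1
  obtain ⟨ψ, c2, a2, b2, r2⟩ := h2
  classical
  refine ⟨fun x => if x ≤ m then φ x else ψ x, ?_, ?_, ?_, ?_⟩
  · apply Continuous.if_le c1 c2 continuous_id continuous_const
    intro x hx
    simp only [id] at hx
    rw [hx, b1, a2]
  · simp [am, a1]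
  · rcases mb.eq_or_lt with e | e
    · subst e; simp [b1]
    · simp [not_le.2 e, b2]
  · intro x hx
    by_cases hxm : x ≤ m
    · simp only [hxm, if_true]; exact r1 x ⟨hx.1, hxm⟩
    · simp only [hxm, if_false]; exact r2 x ⟨(not_le.1 hxm).le, hx.2⟩

theorem tgt_mem {c d : ℝ} (hcB : c ∈ B) (hdB : d ∉ B) (x : ℝ) : x ∈ A ↔ tgt A c d x ∈ B := by
  by_cases h : x ∈ A
  · simp [tgt, h, hcB]
  · simp [tgt, h, hdB]

theorem Red.const {c d a b : ℝ} (hcB : c ∈ B) (hdB : d ∉ B) (ab : a ≤ b)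
    (h : ∀ x ∈ Icc a b, (x ∈ A ↔ a ∈ A)) : Red A B c d a b := by
  refine ⟨fun _ => tgt A c d a, continuous_const, rfl, ?_, ?_⟩
  · have := h b ⟨ab, le_rfl⟩
    by_cases ha : a ∈ A
    · simp [tgt, ha, this.2 ha]
    · simp [tgt, ha, mt this.1 ha]
  · intro x hx
    rw [h x hx]
    exact tgt_mem hcB hdB a

theorem Ctx.redBox (hc : Ctx A B F G c0 d0) {c d : ℝ} (hcB : c ∈ B) (hdB : d ∉ B)
    (hcI : c ∈ Icc c0 d0) (hdI : d ∈ Icc c0 d0) (t1 : Tow B c d) (t2 : Tow B d c)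
    {s t : ℝ} (st : s < t) (hs : RA A s) (ht : LA A t) (hcol : s ∈ A ↔ t ∉ A) :
    Red A B c d s t := by
  have hadm : Adm A B c0 d0 s t (tgt A c d s) (tgt A c d t) := by
    refine ⟨st, hs, ht, ?_, ?_, tgt_mem hcB hdB s, tgt_mem hcB hdB t, ?_, ?_⟩
    · by_cases h : s ∈ A
      · simpa [tgt, h, hcol.1 h] using t1
      · have : t ∈ A := by tauto
        simpa [tgt, h, this] using t2
    · by_cases h : s ∈ A
      · simpa [tgt, h, hcol.1 h] using t2
      · have : t ∈ A := by tauto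
        simpa [tgt, h, this] using t1
    · by_cases h : s ∈ A
      · simpa [tgt, h] using hcI
      · simpa [tgt, h] using hdI
    · by_cases h : t ∈ A
      · simpa [tgt, h] using hcI
      · simpa [tgt, h] using hdI
  obtain ⟨φ, h1, h2, h3, h4⟩ := hc.box hadm
  exact ⟨φ, h1, h2, h3, h4⟩

theorem Ctx.red (hc : Ctx A B F G c0 d0) {c d : ℝ} (hcB : c ∈ B) (hdB : d ∉ B)
    (hcI : c ∈ Icc c0 d0) (hdI : d ∈ Icc c0 d0) (t1 : Tow B c d) (t2 : Tow B d c)
    {a b : ℝ} (ab : a ≤ b) : Red A B c d a b := by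
  by_cases hmono : ∀ x ∈ Icc a b, (x ∈ A ↔ a ∈ A)
  · exact Red.const hcB hdB ab hmono
  push Not at hmono
  obtain ⟨x1, hx1, hx1c⟩ := hmono
  have hx1c' : x1 ∈ A ↔ a ∉ A := by tauto
  have hax1 : a < x1 := lt_of_le_of_ne hx1.1 (fun e => by rw [← e] at hx1c'; tauto)
  obtain ⟨t, k1, k2, k3, k4⟩ := hc.balA.right_end hax1 hx1c'
  have htc : t ∈ A ↔ a ∈ A := k3 t ⟨k1, le_rfl⟩
  have r1 : Red A B c d a t := Red.const hcB hdB k1 k3
  by_cases hab : a ∈ A ↔ b ∈ A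
  · have hx1b : x1 < b := lt_of_le_of_ne hx1.2 (fun e => by rw [e] at hx1c'; tauto)
    obtain ⟨t', l1, l2, l3, l4⟩ := hc.balA.left_end hx1b (by tauto)
    have ht'c : t' ∈ A ↔ b ∈ A := l3 t' ⟨le_rfl, l1⟩
    have r3 : Red A B c d t' b := Red.const hcB hdB l1 (fun x hx => (l3 x hx).trans ht'c.symm)
    obtain ⟨s1, s2, m1, m2, m3, m4⟩ := hc.balA.ob_right k4 (ε := t' - t) (by linarith) (t ∉ A)
    have e1 : s1 ∈ A ↔ t ∉ A := m4.col s1 ⟨le_rfl, m4.le⟩
    have e2 : s2 ∈ A ↔ t ∉ A := m4.col s2 ⟨m4.le, le_rfl⟩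
    have r21 : Red A B c d t s1 := hc.redBox hcB hdB hcI hdI t1 t2 m1 k4 m4.la (by tauto)
    have r22 : Red A B c d s1 s2 := Red.const hcB hdB m4.le
      (fun x hx => (m4.col x hx).trans e1.symm)
    have r23 : Red A B c d s2 t' :=
      hc.redBox hcB hdB hcI hdI t1 t2 (by linarith) m4.ra l4 (by tauto)
    exact (r1.concat ((r21.concat r22 m1.le m2).concat r23 (by linarith) (by linarith))
      k1 (by linarith)).concat r3 (by linarith) l1
  · have hab' : a < b := lt_of_le_of_ne ab (fun e => hab (by rw [e]))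
    obtain ⟨t', l1, l2, l3, l4⟩ := hc.balA.left_end hab' (by tauto)
    have ht'c : t' ∈ A ↔ b ∈ A := l3 t' ⟨le_rfl, l1⟩
    have r3 : Red A B c d t' b := Red.const hcB hdB l1 (fun x hx => (l3 x hx).trans ht'c.symm)
    have htt' : t < t' := by
      by_contra hcon
      push Not at hcon
      have := l3 t ⟨hcon, by linarith [hx1.2]⟩
      tauto
    have hcol : t ∈ A ↔ t' ∉ A := by
      rw [htc, ht'c]
      exact ⟨fun ha hb => hab ⟨fun _ => hb, fun _ => ha⟩,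
        fun hb => by_contra (fun ha => hab ⟨fun h => absurd h ha, fun h => absurd h hb⟩)⟩
    have r2 : Red A B c d t t' := hc.redBox hcB hdB hcI hdI t1 t2 htt' k4 l4 hcol
    exact (r1.concat r2 k1 htt'.le).concat r3 (by linarith) l1

theorem Ctx.global (hc : Ctx A B F G c0 d0) {c d : ℝ} (hcB : c ∈ B) (hdB : d ∉ B)
    (hcI : c ∈ Icc c0 d0) (hdI : d ∈ Icc c0 d0) (t1 : Tow B c d) (t2 : Tow B d c) :
    ∃ f : ℝ → ℝ, Continuous f ∧ ∀ x, (x ∈ A ↔ f x ∈ B) := by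
  have hr : ∀ k : ℤ, Red A B c d k (k + 1) := fun k =>
    hc.red hcB hdB hcI hdI t1 t2 (by linarith)
  choose φ h1 h2 h3 h4 using hr
  have key : ∀ k : ℤ, ∀ x ∈ Icc (k : ℝ) (k + 1), φ ⌊x⌋ x = φ k x := by
    intro k x hx
    rcases hx.2.eq_or_lt with e | e
    · have : ⌊x⌋ = k + 1 := by rw [e]; simp
      rw [this, e, h3 k]
      have := h2 (k + 1)
      push_cast at this
      exact this
    · rw [Int.floor_eq_iff.2 ⟨hx.1, e⟩]
  refine ⟨fun x => φ ⌊x⌋ x, ?_, ?_⟩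
  · have hlf : LocallyFinite (fun k : ℤ => Icc (k : ℝ) (k + 1)) := by
      intro x
      refine ⟨Ioo (x - 1) (x + 1), Ioo_mem_nhds (by linarith) (by linarith), ?_⟩
      apply (Set.finite_Icc (⌊x⌋ - 3) (⌊x⌋ + 3)).subset
      rintro k ⟨y, hy, hy'⟩
      have f1 := Int.floor_le x
      have f2 := Int.lt_floor_add_one x
      constructor
      · have : ((⌊x⌋ - 3 : ℤ) : ℝ) ≤ k := by push_cast; linarith [hy.1, hy.2, hy'.1, hy'.2]
        exact_mod_cast this
      · have : (k : ℝ) ≤ ((⌊x⌋ + 3 : ℤ) : ℝ) := by push_cast; linarith [hy.1, hy.2, hy'.1, hy'.2]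
        exact_mod_cast this
    apply hlf.continuous
    · apply eq_univ_of_forall
      intro x
      exact mem_iUnion.2 ⟨⌊x⌋, Int.floor_le x, (Int.lt_floor_add_one x).le⟩
    · exact fun _ => isClosed_Icc
    · intro k
      exact (h1 k).continuousOn.congr (key k)
  · intro x
    exact h4 ⌊x⌋ x ⟨Int.floor_le x, (Int.lt_floor_add_one x).le⟩

end ctx

end Helper98.Wadge
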