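import Pool.Agent.Helper98_Wadge.Fusion

namespace Helper98.Wadge

open Set Filter Topology

/-- The affine function through `(a, b)` and `(c, d)`. -/
noncomputable def ln (a b c d x : ℝ) : ℝ := b + (d - b) * ((x - a) / (c - a))

theorem ln_cont (a b c d : ℝ) : Continuous (ln a b c d) := by
  unfold ln; fun_prop

theorem ln_left (a b c d : ℝ) : ln a b c d a = b := by simp [ln]

theorem ln_right {a b c d : ℝ} (h : a < c) : ln a b c d c = d := by
  have : c - a ≠ 0 := by linarith
  simp [ln, div_self this]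

theorem ln_right' {a b c d : ℝ} (h : a ≤ c) (h' : a = c → b = d) : ln a b c d c = d := by
  rcases h.eq_or_lt with e | e
  · rw [h' e, e]; simp [ln]
  · exact ln_right e

theorem ln_mem {a b c d x : ℝ} (hx : x ∈ Icc a c) : ln a b c d x ∈ uIcc b d := by
  have h1 : 0 ≤ (x - a) / (c - a) := div_nonneg (by linarith [hx.1]) (by linarith [hx.1, hx.2])
  have h2 : (x - a) / (c - a) ≤ 1 := div_le_one_of_le₀ (by linarith [hx.2]) (by linarith [hx.1, hx.2])
  unfold ln
  rw [mem_uIcc]
  rcases le_total b d with h | h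
  · left; constructor
    · nlinarith
    · nlinarith
  · right; constructor
    · nlinarith
    · nlinarith

open Classical in
/-- Three pieces. -/
noncomputable def pl (u y s p t q v z x : ℝ) : ℝ :=
  if x ≤ s then ln u y s p x else if x ≤ t then ln s p t q x else ln t q v z x

theorem pl_cont {u y s p t q v z : ℝ} (us : u < s) (st : s ≤ t) (hpq : s = t → p = q) :
    Continuous (pl u y s p t q v z) := by
  unfold pl
  apply Continuous.if_le (ln_cont _ _ _ _) ?_ continuous_id continuous_const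
  · intro x hx
    simp only [id] at hx
    rw [hx, ln_right us, if_pos st, ln_left]
  · apply Continuous.if_le (ln_cont _ _ _ _) (ln_cont _ _ _ _) continuous_id continuous_const
    intro x hx
    simp only [id] at hx
    rw [hx, ln_right' st hpq, ln_left]

theorem pl_left {u y s p t q v z x : ℝ} (hx : x ≤ s) :
    pl u y s p t q v z x = ln u y s p x := by simp [pl, hx]

theorem pl_mid {u y s p t q v z x : ℝ} (us : u < s) (hx : x ∈ Icc s t) :
    pl u y s p t q v z x = ln s p t q x := by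
  rcases hx.1.eq_or_lt with e | e
  · rw [← e, pl_left le_rfl, ln_right us, ln_left]
  · simp [pl, not_le.2 e, hx.2]

theorem pl_right {u y s p t q v z x : ℝ} (us : u < s) (st : s ≤ t) (hpq : s = t → p = q)
    (hx : t ≤ x) :
    pl u y s p t q v z x = ln t q v z x := by
  rcases hx.eq_or_lt with e | e
  · rw [← e, pl_mid us ⟨st, le_rfl⟩, ln_left, ln_right' st hpq]
  · have : s < x := lt_of_le_of_lt st e
    simp [pl, not_le.2 e, not_le.2 this]

theorem SolR.cut {A B : Set ℝ} {P : Bx} {R : Set ℝ} {u s t v y p q z : ℝ} (hR : R.OrdConnected)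
    (us : u < s) (st : s ≤ t) (tv : t < v) (hpq : s = t → p = q)
    (ry : y ∈ R) (rp : p ∈ R) (rq : q ∈ R) (rz : z ∈ R)
    (cu : u ∈ A ↔ y ∈ B) (cv : v ∈ A ↔ z ∈ B)
    (cm : ∀ x ∈ Icc s t, ∀ w ∈ uIcc p q, (x ∈ A ↔ w ∈ B))
    (h1 : P u s y p) (h2 : P t v q z) : SolR A B P R u v y z := by
  have hS : ∀ x, x ∈ (({u} : Set ℝ) ∪ Icc s t ∪ {v}) ↔ x = u ∨ x ∈ Icc s t ∨ x = v := by
    intro x
    simp only [mem_union, mem_singleton_iff, or_assoc]
  have hgap : ∀ a b, Gap (({u} : Set ℝ) ∪ Icc s t ∪ {v}) a b → (a = u ∧ b = s) ∨ (a = t ∧ b = v) := by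
    intro a b g
    obtain ⟨g1, g2, g3, g4⟩ := g
    rw [hS] at g2 g3
    have hsS : s ∈ (({u} : Set ℝ) ∪ Icc s t ∪ {v}) := (hS s).2 (Or.inr (Or.inl ⟨le_rfl, st⟩))
    have htS : t ∈ (({u} : Set ℝ) ∪ Icc s t ∪ {v}) := (hS t).2 (Or.inr (Or.inl ⟨st, le_rfl⟩))
    rcases g2 with e | e | e
    · left
      refine ⟨e, ?_⟩
      rcases g3 with e' | e' | e'
      · linarith
      · rcases e'.1.eq_or_lt with e'' | e''
        · exact e''.symm
        · exact absurd hsS (g4 s ⟨by linarith, e''⟩)
      · exact absurd hsS (g4 s ⟨by linarith, by linarith⟩)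
    · rcases g3 with e' | e' | e'
      · linarith [e.1]
      · exact absurd ((hS ((a + b) / 2)).2 (Or.inr (Or.inl ⟨by linarith [e.1], by linarith [e'.2]⟩)))
          (g4 _ ⟨by linarith, by linarith⟩)
      · right
        refine ⟨?_, e'⟩
        rcases e.2.eq_or_lt with e'' | e''
        · exact e''
        · exact absurd htS (g4 t ⟨e'', by linarith⟩)
    · rcases g3 with e' | e' | e'
      · linarith
      · linarith [e'.2]
      · linarith
  have fu : pl u y s p t q v z u = y := by rw [pl_left us.le, ln_left]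
  have fs : pl u y s p t q v z s = p := by rw [pl_left le_rfl, ln_right us]
  have ft : pl u y s p t q v z t = q := by rw [pl_right us st hpq le_rfl, ln_left]
  have fv : pl u y s p t q v z v = z := by rw [pl_right us st hpq tv.le, ln_right tv]
  refine ⟨({u} : Set ℝ) ∪ Icc s t ∪ {v}, pl u y s p t q v z, by linarith, ?_, ?_, ?_, ?_,
    (pl_cont us st hpq).continuousOn, fu, fv, ?_, ?_, ?_, ?_⟩
  · exact (isClosed_singleton.union isClosed_Icc).union isClosed_singleton
  · intro x hx
    rw [hS] at hx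
    rcases hx with rfl | hx | rfl
    · exact ⟨le_rfl, by linarith⟩
    · exact ⟨by linarith [hx.1], by linarith [hx.2]⟩
    · exact ⟨by linarith, le_rfl⟩
  · rw [hS]; exact Or.inl rfl
  · rw [hS]; exact Or.inr (Or.inr rfl)
  · intro x hx
    rw [hS] at hx
    rcases hx with rfl | hx | rfl
    · rw [fu]; exact cu
    · rw [pl_mid us hx]
      exact cm x hx _ (ln_mem hx)
    · rw [fv]; exact cv
  · intro x hx
    rcases le_total x s with h | h
    · rw [pl_left h]; exact hR.uIcc_subset ry rp (ln_mem ⟨hx.1, h⟩)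
    · rcases le_total x t with h' | h'
      · rw [pl_mid us ⟨h, h'⟩]; exact hR.uIcc_subset rp rq (ln_mem ⟨h, h'⟩)
      · rw [pl_right us st hpq h']; exact hR.uIcc_subset rq rz (ln_mem ⟨h', hx.2⟩)
  · intro a b g
    rcases hgap a b g with ⟨rfl, rfl⟩ | ⟨rfl, rfl⟩
    · rw [fu, fs]; exact h1
    · rw [ft, fv]; exact h2
  · intro a b g x hx
    rcases hgap a b g with ⟨rfl, rfl⟩ | ⟨rfl, rfl⟩
    · rw [fu, fs, pl_left hx.2]; exact ln_mem hx
    · rw [ft, fv, pl_right us st hpq hx.1]; exact ln_mem hx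

/-- The trivial solution. -/
theorem SolR.triv {A B : Set ℝ} {P : Bx} {R : Set ℝ} {u v y z : ℝ} (hR : R.OrdConnected)
    (uv : u < v) (ry : y ∈ R) (rz : z ∈ R) (cu : u ∈ A ↔ y ∈ B) (cv : v ∈ A ↔ z ∈ B)
    (h : P u v y z) : SolR A B P R u v y z := by
  have e1 : ln u y v z u = y := ln_left _ _ _ _
  have e2 : ln u y v z v = z := ln_right uv
  refine ⟨{u, v}, ln u y v z, ?_⟩
  have := IsSol.pair (A := A) (B := B) (P := P) (R := R) (φ := ln u y v z) uv
    (ln_cont _ _ _ _).continuousOn (by rw [e1]; exact cu) (by rw [e2]; exact cv)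
    (fun x hx => hR.uIcc_subset ry rz (ln_mem hx)) (by rw [e1, e2]; exact h)
    (by rw [e1, e2]; exact fun x hx => ln_mem hx)
  rwa [e1, e2] at this

end Helper98.Wadge
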