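import Pool.Agent.Helper98_Wadge.Pull

namespace Helper98.Wadge

open Set Filter Topology

/-- The tent map of slope three. -/
noncomputable def T (x : ℝ) : ℝ := 3 * min x (1 - x)

/-- Points whose orbit is eventually outside `(8/9, 25/27)`. -/
def E : Set ℝ := {x | ∃ n : ℕ, ∀ m ≥ n, T^[m] x ∉ Ioo (8 / 9 : ℝ) (25 / 27)}

theorem T_cont : Continuous T := by unfold T; fun_prop

theorem Ti_cont (n : ℕ) : Continuous (T^[n]) := T_cont.iterate n

theorem T_le {x : ℝ} (hx : x ≤ 1 / 2) : T x = 3 * x := by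
  unfold T; rw [min_eq_left (by linarith)]

theorem T_ge {x : ℝ} (hx : 1 / 2 ≤ x) : T x = 3 * (1 - x) := by
  unfold T; rw [min_eq_right (by linarith)]

theorem T_symm (x : ℝ) : T (1 - x) = T x := by
  unfold T; rw [min_comm]; simp

theorem T_nonpos {x : ℝ} (hx : x ≤ 0) : T x ≤ 0 := by
  rw [T_le (by linarith)]; linarith

theorem Ti_nonpos {x : ℝ} (hx : x ≤ 0) (n : ℕ) : T^[n] x ≤ 0 := by
  induction n with
  | zero => simpa using hx
  | succ n ih => rw [Function.iterate_succ_apply']; exact T_nonpos ih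

theorem E_T {x : ℝ} : x ∈ E ↔ T x ∈ E := by
  constructor
  · rintro ⟨n, hn⟩
    refine ⟨n, fun m hm => ?_⟩
    rw [← Function.iterate_succ_apply]
    exact hn (m + 1) (by omega)
  · rintro ⟨n, hn⟩
    refine ⟨n + 1, fun m hm => ?_⟩
    obtain ⟨k, rfl⟩ : ∃ k, m = k + 1 := ⟨m - 1, by omega⟩
    rw [Function.iterate_succ_apply]
    exact hn k (by omega)

theorem E_Ti (n : ℕ) {x : ℝ} : x ∈ E ↔ T^[n] x ∈ E := by
  induction n with
  | zero => rfl
  | succ n ih => rw [Function.iterate_succ_apply', ← E_T, ih]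

theorem E_nonpos {x : ℝ} (hx : x ≤ 0) : x ∈ E :=
  ⟨0, fun m _ h => by linarith [Ti_nonpos hx m, h.1]⟩

theorem E_ge_one {x : ℝ} (hx : 1 ≤ x) : x ∈ E := by
  rw [E_T]
  apply E_nonpos
  rw [T_ge (by linarith)]; linarith

theorem T_310 : T (3 / 10) = 9 / 10 := by rw [T_le (by norm_num)]; norm_num
theorem T_910 : T (9 / 10) = 3 / 10 := by rw [T_ge (by norm_num)]; norm_num

theorem Ti_310 (m : ℕ) : T^[2 * m] (3 / 10) = 3 / 10 := by
  induction m with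
  | zero => rfl
  | succ m ih =>
    rw [show 2 * (m + 1) = (2 * m) + 1 + 1 by ring, Function.iterate_succ_apply',
      Function.iterate_succ_apply', ih, T_310, T_910]

theorem nE_310 : (3 / 10 : ℝ) ∉ E := by
  rintro ⟨n, hn⟩
  apply hn (2 * n + 1) (by omega)
  rw [Function.iterate_succ_apply', Ti_310, T_310]
  constructor <;> norm_num

theorem nE_910 : (9 / 10 : ℝ) ∉ E := by
  rw [E_T, T_910]; exact nE_310

theorem T_third {y : ℝ} (hy : y ≤ 3 / 2) : T (y / 3) = y := by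
  rw [T_le (by linarith)]; ring

theorem Ti_scale (m : ℕ) {y : ℝ} (h0 : 0 ≤ y) (hy : y ≤ 3 / 2) : T^[m] (y / 3 ^ m) = y := by
  induction m with
  | zero => simp
  | succ m ih =>
    rw [Function.iterate_succ_apply]
    have : T (y / 3 ^ (m + 1)) = y / 3 ^ m := by
      rw [show y / 3 ^ (m + 1) = (y / 3 ^ m) / 3 by rw [pow_succ]; field_simp]
      apply T_third
      have h3 : (1 : ℝ) ≤ 3 ^ m := one_le_pow₀ (by norm_num)
      calc y / 3 ^ m ≤ y / 1 := by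
            apply div_le_div_of_nonneg_left h0 one_pos h3
        _ ≤ 3 / 2 := by simpa using hy
    rw [this, ih]

theorem Ti_small (m : ℕ) {x : ℝ} (h0 : 0 ≤ x) (hx : x * 3 ^ m ≤ 3 / 2) : T^[m] x = x * 3 ^ m := by
  have := Ti_scale m (y := x * 3 ^ m) (by positivity) hx
  rwa [mul_div_assoc, div_self (by positivity), mul_one] at this

/-- Every nondegenerate interval either escapes or is eventually mapped over `[0,1]`. -/
theorem cover_zero {η : ℝ} (hη : 0 < η) : ∃ n : ℕ, Icc (0 : ℝ) 1 ⊆ T^[n] '' Icc 0 η := by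
  obtain ⟨n, hn⟩ := pow_unbounded_of_one_lt (1 / η) (show (1 : ℝ) < 3 by norm_num)
  refine ⟨n, fun y hy => ⟨y / 3 ^ n, ⟨by have := hy.1; positivity, ?_⟩, Ti_scale n hy.1 (by linarith [hy.2])⟩⟩
  rw [div_le_iff₀ (by positivity)]
  rw [div_lt_iff₀ hη] at hn
  nlinarith [hy.2]

def Dich (a b : ℝ) : Prop := (∃ n : ℕ, ∀ x ∈ Icc a b, T^[n] x ≤ 0) ∨
  (∃ n : ℕ, Icc (0 : ℝ) 1 ⊆ T^[n] '' Icc a b)

theorem dich_base {a b : ℝ} (h : 2 ≤ b - a) : Dich a b := by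
  by_cases hb : b ≤ 0
  · exact Or.inl ⟨0, fun x hx => by simpa using hx.2.trans hb⟩
  by_cases ha : 1 ≤ a
  · refine Or.inl ⟨1, fun x hx => ?_⟩
    rw [Function.iterate_one, T_ge (by linarith [hx.1])]
    linarith [hx.1]
  push Not at hb ha
  right
  -- a point z ∈ {0, 1} in J and a point w ∈ (0,1) in J
  obtain ⟨z, hz, hz0⟩ : ∃ z ∈ Icc a b, T z = 0 := by
    by_cases h0 : a ≤ 0
    · exact ⟨0, ⟨h0, hb.le⟩, by rw [T_le (by norm_num)]; norm_num⟩
    · push Not at h0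
      exact ⟨1, ⟨ha.le, by linarith⟩, by rw [T_ge (by norm_num)]; norm_num⟩
  obtain ⟨w, hw, hw0⟩ : ∃ w ∈ Icc a b, 0 < T w := by
    refine ⟨(max a 0 + min b 1) / 2, ⟨?_, ?_⟩, ?_⟩
    · have h1 := le_max_left a 0
      have h2 := le_max_right a 0
      have h3 : max a 0 < min b 1 := max_lt (lt_min (by linarith) ha) (lt_min hb one_pos)
      linarith
    · have h1 := min_le_left b 1
      have h3 : max a 0 < min b 1 := max_lt (lt_min (by linarith) ha) (lt_min hb one_pos)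
      linarith
    · have h1 := le_max_right a 0
      have h2 := min_le_right b 1
      have h3 : max a 0 < min b 1 := max_lt (lt_min (by linarith) ha) (lt_min hb one_pos)
      unfold T
      have : 0 < min ((max a 0 + min b 1) / 2) (1 - (max a 0 + min b 1) / 2) :=
        lt_min (by linarith) (by linarith)
      linarith
  have hsub : Icc 0 (T w) ⊆ T '' Icc a b := by
    have hc : IsPreconnected (T '' Icc a b) := isPreconnected_Icc.image _ T_cont.continuousOn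
    rw [← hz0]
    exact hc.ordConnected.out ⟨z, hz, rfl⟩ ⟨w, hw, rfl⟩
  obtain ⟨n, hn⟩ := cover_zero hw0
  refine ⟨n + 1, fun y hy => ?_⟩
  obtain ⟨x, hx, hxy⟩ := hn hy
  obtain ⟨x', hx', hxx'⟩ := hsub hx
  exact ⟨x', hx', by rw [Function.iterate_succ_apply, hxx', hxy]⟩

theorem T_expand {a b : ℝ} (hab : a ≤ b) : ∃ c d, c ∈ T '' Icc a b ∧ d ∈ T '' Icc a b ∧
    3 / 2 * (b - a) ≤ d - c := by
  have ma : a ∈ Icc a b := ⟨le_rfl, hab⟩
  have mb : b ∈ Icc a b := ⟨hab, le_rfl⟩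
  by_cases h1 : b ≤ 1 / 2
  · refine ⟨T a, T b, ⟨a, ma, rfl⟩, ⟨b, mb, rfl⟩, ?_⟩
    rw [T_le h1, T_le (by linarith)]; linarith
  by_cases h2 : 1 / 2 ≤ a
  · refine ⟨T b, T a, ⟨b, mb, rfl⟩, ⟨a, ma, rfl⟩, ?_⟩
    rw [T_ge h2, T_ge (by linarith)]; linarith
  push Not at h1 h2
  have mh : (1 / 2 : ℝ) ∈ Icc a b := ⟨h2.le, h1.le⟩
  rcases le_total (1 / 2 - a) (b - 1 / 2) with h3 | h3
  · refine ⟨T b, T (1 / 2), ⟨b, mb, rfl⟩, ⟨_, mh, rfl⟩, ?_⟩
    rw [T_ge h1.le, T_ge le_rfl]; linarith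
  · refine ⟨T a, T (1 / 2), ⟨a, ma, rfl⟩, ⟨_, mh, rfl⟩, ?_⟩
    rw [T_le h2.le, T_le le_rfl]; linarith

theorem dich_step {a b c d : ℝ} (hcd : T '' Icc a b = Icc c d) (h : Dich c d) : Dich a b := by
  rcases h with ⟨n, hn⟩ | ⟨n, hn⟩
  · left
    refine ⟨n + 1, fun x hx => ?_⟩
    rw [Function.iterate_succ_apply]
    exact hn _ (hcd ▸ ⟨x, hx, rfl⟩)
  · right
    refine ⟨n + 1, fun y hy => ?_⟩
    obtain ⟨x, hx, hxy⟩ := hn hy
    rw [← hcd] at hx
    obtain ⟨x', hx', hxx'⟩ := hx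
    exact ⟨x', hx', by rw [Function.iterate_succ_apply, hxx', hxy]⟩

theorem dich_aux (k : ℕ) : ∀ a b : ℝ, a < b → 2 ≤ (3 / 2) ^ k * (b - a) → Dich a b := by
  induction k with
  | zero => intro a b _ h; exact dich_base (by simpa using h)
  | succ k ih =>
    intro a b hab h
    obtain ⟨c0, d0, hc0, hd0, hlen⟩ := T_expand hab.le
    have himg : T '' Icc a b = Icc (sInf (T '' Icc a b)) (sSup (T '' Icc a b)) :=
      ContinuousOn.image_Icc hab.le T_cont.continuousOn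
    have hc1 : sInf (T '' Icc a b) ≤ c0 := by rw [himg] at hc0; exact hc0.1
    have hd1 : d0 ≤ sSup (T '' Icc a b) := by rw [himg] at hd0; exact hd0.2
    refine dich_step himg (ih _ _ (by linarith) ?_)
    have hp : (0 : ℝ) < (3 / 2) ^ k := by positivity
    calc (2 : ℝ) ≤ (3 / 2) ^ (k + 1) * (b - a) := h
      _ = (3 / 2) ^ k * (3 / 2 * (b - a)) := by rw [pow_succ]; ring
      _ ≤ (3 / 2) ^ k * (sSup (T '' Icc a b) - sInf (T '' Icc a b)) := by
          apply mul_le_mul_of_nonneg_left _ hp.le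
          linarith

theorem dich {a b : ℝ} (hab : a < b) : Dich a b := by
  obtain ⟨k, hk⟩ := pow_unbounded_of_one_lt (2 / (b - a)) (show (1 : ℝ) < 3 / 2 by norm_num)
  apply dich_aux k a b hab
  rw [div_lt_iff₀ (by linarith)] at hk
  exact hk.le

theorem E_dense {a b : ℝ} (hab : a < b) : ∃ x ∈ Icc a b, x ∈ E := by
  rcases dich hab with ⟨n, hn⟩ | ⟨n, hn⟩
  · exact ⟨a, ⟨le_rfl, hab.le⟩, (E_Ti n).2 (E_nonpos (hn a ⟨le_rfl, hab.le⟩))⟩
  · obtain ⟨x, hx, hx0⟩ := hn ⟨le_rfl, zero_le_one⟩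
    exact ⟨x, hx, (E_Ti n).2 (by rw [hx0]; exact E_nonpos le_rfl)⟩

theorem E_bal_right (x ε : ℝ) (hε : 0 < ε) : ∃ y ∈ Ioo x (x + ε), (y ∈ E ↔ x ∈ E) := by
  by_cases hx : x ∈ E
  · obtain ⟨y, hy, hyE⟩ := E_dense (show x + ε / 3 < x + ε / 2 by linarith)
    exact ⟨y, ⟨by linarith [hy.1], by linarith [hy.2]⟩, ⟨fun _ => hx, fun _ => hyE⟩⟩
  · rcases dich (show x < x + ε / 2 by linarith) with ⟨n, hn⟩ | ⟨n, hn⟩
    · exact absurd ((E_Ti n).2 (E_nonpos (hn x ⟨le_rfl, by linarith⟩))) hx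
    · obtain ⟨y1, hy1, h1⟩ := hn (show (3 / 10 : ℝ) ∈ Icc 0 1 by constructor <;> norm_num)
      obtain ⟨y2, hy2, h2⟩ := hn (show (9 / 10 : ℝ) ∈ Icc 0 1 by constructor <;> norm_num)
      have n1 : y1 ∉ E := fun h => nE_310 (by rw [← h1]; exact (E_Ti n).1 h)
      have n2 : y2 ∉ E := fun h => nE_910 (by rw [← h2]; exact (E_Ti n).1 h)
      by_cases e : y1 = x
      · have e2 : y2 ≠ x := by
          intro e2
          rw [e] at h1
          rw [e2, h1] at h2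
          norm_num at h2
        exact ⟨y2, ⟨lt_of_le_of_ne hy2.1 (Ne.symm e2), by linarith [hy2.2]⟩,
          ⟨fun h => absurd h n2, fun h => absurd h hx⟩⟩
      · exact ⟨y1, ⟨lt_of_le_of_ne hy1.1 (Ne.symm e), by linarith [hy1.2]⟩,
          ⟨fun h => absurd h n1, fun h => absurd h hx⟩⟩

theorem E_symm {x : ℝ} : 1 - x ∈ E ↔ x ∈ E := by rw [E_T, T_symm, ← E_T]

theorem E_bal : Bal E := by
  intro x ε hε
  refine ⟨E_bal_right x ε hε, ?_⟩
  obtain ⟨y, hy, hy'⟩ := E_bal_right (1 - x) ε hε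
  refine ⟨1 - y, ⟨by linarith [hy.2], by linarith [hy.1]⟩, ?_⟩
  rw [E_symm, hy', E_symm]

theorem nE_of {k : ℕ} {y : ℝ} (h : T^[k] y = 3 / 10) : y ∉ E := fun hy =>
  nE_310 (by rw [← h]; exact (E_Ti k).1 hy)

theorem small_pow {ε : ℝ} (hε : 0 < ε) : ∃ m : ℕ, (1 : ℝ) / 3 ^ m < ε := by
  obtain ⟨m, hm⟩ := exists_pow_lt_of_lt_one hε (show (1 / 3 : ℝ) < 1 by norm_num)
  exact ⟨m, by simpa [div_pow] using hm⟩

/-- `T^[2]` near `2/3` from the right. -/
theorem T2_right {δ : ℝ} (h0 : 0 ≤ δ) (h : δ ≤ 1 / 6) : T (T (2 / 3 + δ)) = 9 * δ := by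
  rw [T_ge (x := 2 / 3 + δ) (by linarith), T_ge (by linarith)]; ring

theorem T2_left {δ : ℝ} (h0 : 0 ≤ δ) (h : δ ≤ 1 / 6) : T (T (1 / 3 - δ)) = 9 * δ := by
  have : T (1 / 3 - δ) = T (2 / 3 + δ) := by rw [← T_symm]; congr 1; ring
  rw [this, T2_right h0 h]

theorem nE_23 {ε : ℝ} (hε : 0 < ε) : ∃ y ∈ Ioo (2 / 3 : ℝ) (2 / 3 + ε), y ∉ E := by
  obtain ⟨m, hm⟩ := small_pow hε
  have hp : (0 : ℝ) < 1 / 3 ^ m := by positivity
  have hp1 : (1 : ℝ) / 3 ^ m ≤ 1 := by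
    rw [div_le_one (by positivity)]; exact one_le_pow₀ (by norm_num)
  refine ⟨2 / 3 + (1 / 30) * (1 / 3 ^ m), ⟨by linarith, by linarith⟩, ?_⟩
  apply nE_of (k := m + 1 + 1)
  rw [Function.iterate_succ_apply, Function.iterate_succ_apply, T2_right (by linarith) (by linarith)]
  rw [show 9 * ((1 / 30 : ℝ) * (1 / 3 ^ m)) = (3 / 10) / 3 ^ m by ring]
  exact Ti_scale m (by norm_num) (by norm_num)

theorem nE_89 {ε : ℝ} (hε : 0 < ε) : ∃ y ∈ Ioo (8 / 9 : ℝ) (8 / 9 + ε), y ∉ E := by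
  obtain ⟨m, hm⟩ := small_pow hε
  have hp : (0 : ℝ) < 1 / 3 ^ m := by positivity
  have hp1 : (1 : ℝ) / 3 ^ m ≤ 1 := by
    rw [div_le_one (by positivity)]; exact one_le_pow₀ (by norm_num)
  refine ⟨8 / 9 + (1 / 90) * (1 / 3 ^ m), ⟨by linarith, by linarith⟩, ?_⟩
  apply nE_of (k := m + 1 + 1 + 1)
  rw [Function.iterate_succ_apply, Function.iterate_succ_apply, Function.iterate_succ_apply,
    T_ge (x := 8 / 9 + (1 / 90) * (1 / 3 ^ m)) (by linarith)]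
  rw [show 3 * (1 - (8 / 9 + (1 / 90 : ℝ) * (1 / 3 ^ m))) = 1 / 3 - (1 / 30) * (1 / 3 ^ m) by ring,
    T2_left (by linarith) (by linarith)]
  rw [show 9 * ((1 / 30 : ℝ) * (1 / 3 ^ m)) = (3 / 10) / 3 ^ m by ring]
  exact Ti_scale m (by norm_num) (by norm_num)

theorem nE_2527 {ε : ℝ} (hε : 0 < ε) : ∃ y ∈ Ioo (25 / 27 - ε : ℝ) (25 / 27), y ∉ E := by
  obtain ⟨m, hm⟩ := small_pow hε
  have hp : (0 : ℝ) < 1 / 3 ^ m := by positivity
  have hp1 : (1 : ℝ) / 3 ^ m ≤ 1 := by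
    rw [div_le_one (by positivity)]; exact one_le_pow₀ (by norm_num)
  refine ⟨25 / 27 - (1 / 270) * (1 / 3 ^ m), ⟨by linarith, by linarith⟩, ?_⟩
  apply nE_of (k := m + 1 + 1 + 1 + 1)
  rw [Function.iterate_succ_apply, Function.iterate_succ_apply, Function.iterate_succ_apply,
    Function.iterate_succ_apply,
    T_ge (x := 25 / 27 - (1 / 270) * (1 / 3 ^ m)) (by linarith)]
  rw [show 3 * (1 - (25 / 27 - (1 / 270 : ℝ) * (1 / 3 ^ m))) = 2 / 9 + (1 / 90) * (1 / 3 ^ m) by ring,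
    T_le (x := 2 / 9 + (1 / 90) * (1 / 3 ^ m)) (by linarith)]
  rw [show 3 * (2 / 9 + (1 / 90 : ℝ) * (1 / 3 ^ m)) = 2 / 3 + (1 / 30) * (1 / 3 ^ m) by ring,
    T2_right (by linarith) (by linarith)]
  rw [show 9 * ((1 / 30 : ℝ) * (1 / 3 ^ m)) = (3 / 10) / 3 ^ m by ring]
  exact Ti_scale m (by norm_num) (by norm_num)

theorem E_ob : Ob E True (1 / 3) (2 / 3) := by
  have hcol : ∀ x ∈ Icc (1 / 3 : ℝ) (2 / 3), x ∈ E := by
    intro x hx
    rw [E_T]
    apply E_ge_one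
    unfold T
    have : 1 / 3 ≤ min x (1 - x) := le_min hx.1 (by linarith [hx.2])
    linarith
  have hra : RA E (2 / 3) := by
    apply E_bal.RA_of
    intro ε hε
    obtain ⟨y, hy, hyE⟩ := nE_23 hε
    exact ⟨y, hy, ⟨fun h => absurd h hyE, fun h => absurd (hcol _ ⟨by norm_num, le_rfl⟩) h⟩⟩
  refine ⟨by norm_num, fun x hx => ⟨fun _ => trivial, fun _ => hcol x hx⟩, ?_, hra⟩
  intro ε hε
  obtain ⟨⟨y, hy, hyE⟩, ⟨z, hz, hzE⟩⟩ := hra ε hε
  refine ⟨⟨1 - y, ⟨by linarith [hy.2], by linarith [hy.1]⟩, E_symm.2 hyE⟩,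
    ⟨1 - z, ⟨by linarith [hz.2], by linarith [hz.1]⟩, fun h => hzE (E_symm.1 h)⟩⟩

/-- Closed saturated pieces of `E`. -/
def EF (n : ℕ) : Set ℝ := {x | ∀ m ≥ n, T^[m] x ∉ Ioo (8 / 9 : ℝ) (25 / 27)}

theorem EF_closed (n : ℕ) : IsClosed (EF n) := by
  have : EF n = ⋂ (m : ℕ) (_ : m ≥ n), T^[m] ⁻¹' (Ioo (8 / 9 : ℝ) (25 / 27))ᶜ := by
    ext x; simp [EF]
  rw [this]
  exact isClosed_iInter fun m => isClosed_iInter fun _ =>
    isOpen_Ioo.isClosed_compl.preimage (Ti_cont m)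

theorem EF_sub (n : ℕ) : EF n ⊆ E := fun _ hx => ⟨n, hx⟩

theorem EF_sat (n : ℕ) : ∀ x ∈ EF n, ∀ y, uIcc x y ⊆ E → y ∈ EF n := by
  intro x hx y hxy m hm hmy
  have hxm := hx m hm
  -- a point of the complement strictly between the images
  obtain ⟨e, heE, he⟩ : ∃ e, e ∉ E ∧ e ∈ uIcc (T^[m] x) (T^[m] y) := by
    by_cases h : T^[m] x ≤ 8 / 9
    · obtain ⟨e, he, heE⟩ := nE_89 (show 0 < T^[m] y - 8 / 9 by linarith [hmy.1])
      refine ⟨e, heE, ?_⟩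
      rw [mem_uIcc]; left; exact ⟨by linarith [he.1], by linarith [he.2]⟩
    · have h' : 25 / 27 ≤ T^[m] x := by
        by_contra hcon
        exact hxm ⟨not_le.1 h, not_le.1 hcon⟩
      obtain ⟨e, he, heE⟩ := nE_2527 (show 0 < 25 / 27 - T^[m] y by linarith [hmy.2])
      refine ⟨e, heE, ?_⟩
      rw [mem_uIcc]; right; exact ⟨by linarith [he.1], by linarith [he.2]⟩
  have hc : IsPreconnected (T^[m] '' uIcc x y) := isPreconnected_uIcc.image _ (Ti_cont m).continuousOn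
  have := hc.ordConnected.uIcc_subset ⟨x, left_mem_uIcc, rfl⟩ ⟨y, right_mem_uIcc, rfl⟩ he
  obtain ⟨w, hw, hwe⟩ := this
  exact heE (by rw [← hwe]; exact (E_Ti m).1 (hxy hw))

theorem Comp.refl_symm {f : ℝ → ℝ} {p q s t : ℝ} (h : Comp f p q s t)
    (hf : ∀ x, f (1 - x) ∈ Icc p q ↔ f x ∈ Icc p q) : Comp f p q (1 - t) (1 - s) := by
  refine ⟨by linarith [h.lt], ?_, ?_, ?_⟩
  · intro x hx
    rw [← hf]
    exact h.maps _ ⟨by linarith [hx.2], by linarith [hx.1]⟩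
  · intro ε hε
    obtain ⟨x, hx, hx'⟩ := h.right ε hε
    exact ⟨1 - x, ⟨by linarith [hx.2], by linarith [hx.1]⟩, by rwa [hf]⟩
  · intro ε hε
    obtain ⟨x, hx, hx'⟩ := h.left ε hε
    exact ⟨1 - x, ⟨by linarith [hx.2], by linarith [hx.1]⟩, by rwa [hf]⟩

/-- The basic family. -/
def F0 : Set (ℝ × ℝ) := {o | 0 < o.1 ∧ o.2 < 1 ∧ ∃ n : ℕ, Comp (T^[n]) (1 / 3) (2 / 3) o.1 o.2 ∧
  ∀ j, 1 ≤ j → j ≤ n → ∀ x ∈ Icc o.1 o.2, T^[j] x ∉ Icc (8 / 9 : ℝ) (25 / 27)}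

theorem Ti_symm_mem (n : ℕ) (x : ℝ) :
    T^[n] (1 - x) ∈ Icc (1 / 3 : ℝ) (2 / 3) ↔ T^[n] x ∈ Icc (1 / 3 : ℝ) (2 / 3) := by
  rcases n with _ | n
  · simp only [Function.iterate_zero, id]
    constructor
    · intro h; exact ⟨by linarith [h.2], by linarith [h.1]⟩
    · intro h; exact ⟨by linarith [h.2], by linarith [h.1]⟩
  · rw [Function.iterate_succ_apply, Function.iterate_succ_apply, T_symm]

theorem F0_symm {o : ℝ × ℝ} (h : o ∈ F0) : ((1 - o.2, 1 - o.1) : ℝ × ℝ) ∈ F0 := by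
  obtain ⟨h1, h2, n, h3, h4⟩ := h
  refine ⟨by simp only; linarith, by simp only; linarith, n,
    h3.refl_symm (Ti_symm_mem n), ?_⟩
  intro j hj1 hjn x hx
  have h5 := h4 j hj1 hjn (1 - x) ⟨by linarith [hx.2], by linarith [hx.1]⟩
  obtain ⟨k, rfl⟩ : ∃ k, j = k + 1 := ⟨j - 1, by omega⟩
  rw [Function.iterate_succ_apply, T_symm, ← Function.iterate_succ_apply] at h5
  exact h5

theorem F0_right {o : ℝ × ℝ} (ho : o ∈ F0) {ε : ℝ} (hε : 0 < ε) :
    ∃ o' ∈ F0, o.2 < o'.1 ∧ o'.2 < o.2 + ε := by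
  obtain ⟨h1, h2, n, h3, h4⟩ := ho
  set t := o.2 with ht
  have hlt := h3.lt
  have htI : t ∈ Icc o.1 t := ⟨hlt.le, le_rfl⟩
  have hft := h3.maps t htI
  -- the value at t is an end point
  have hend : T^[n] t = 1 / 3 ∨ T^[n] t = 2 / 3 := by
    by_contra hcon
    push Not at hcon
    have hI : T^[n] t ∈ Ioo (1 / 3 : ℝ) (2 / 3) :=
      ⟨lt_of_le_of_ne hft.1 (Ne.symm hcon.1), lt_of_le_of_ne hft.2 hcon.2⟩
    have h5 : ∀ᶠ x in 𝓝 t, T^[n] x ∈ Ioo (1 / 3 : ℝ) (2 / 3) :=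
      (Ti_cont n).continuousAt.eventually (Ioo_mem_nhds hI.1 hI.2)
    obtain ⟨δ, hδ, hball⟩ := Metric.eventually_nhds_iff.1 h5
    obtain ⟨x, hx, hx'⟩ := h3.right δ hδ
    have := hball (y := x) (by rw [Real.dist_eq, abs_lt]; constructor <;> linarith [hx.1, hx.2])
    exact hx' ⟨this.1.le, this.2.le⟩
  have hT1 : T (T^[n] t) = 1 := by
    rcases hend with e | e
    · rw [e, T_le (by norm_num)]; norm_num
    · rw [e, T_ge (by norm_num)]; norm_num
  -- neighbourhood conditions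
  have hnb : ∀ᶠ x in 𝓝 t, ∀ j ∈ Finset.Icc 1 (n + 1), T^[j] x ∉ Icc (8 / 9 : ℝ) (25 / 27) := by
    rw [Finset.eventually_all]
    intro j hj
    rw [Finset.mem_Icc] at hj
    have hjt : T^[j] t ∉ Icc (8 / 9 : ℝ) (25 / 27) := by
      rcases Nat.lt_or_ge n j with hjn | hjn
      · have : j = n + 1 := by omega
        rw [this, Function.iterate_succ_apply', hT1]
        intro hh
        linarith [hh.2]
      · exact h4 j hj.1 hjn t htI
    exact (Ti_cont j).continuousAt.eventually (isClosed_Icc.isOpen_compl.mem_nhds hjt)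
  have hnear : ∀ᶠ x in 𝓝 t, |T^[n] x - T^[n] t| < 1 / 6 := by
    have := (Ti_cont n).continuousAt (x := t)
    rw [Metric.continuousAt_iff] at this
    obtain ⟨δ, hδ, hb⟩ := this (1 / 6) (by norm_num)
    exact Metric.eventually_nhds_iff.2 ⟨δ, hδ, fun y hy => hb hy⟩
  obtain ⟨δ, hδ, hball⟩ := Metric.eventually_nhds_iff.1 (hnb.and hnear)
  set ρ := min (min δ ε) (1 - t) with hρ
  have hρ0 : 0 < ρ := lt_min (lt_min hδ hε) (by linarith)
  have r1 : ρ ≤ δ := (min_le_left _ _).trans (min_le_left _ _)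
  have r2 : ρ ≤ ε := (min_le_left _ _).trans (min_le_right _ _)
  have r3 : ρ ≤ 1 - t := min_le_right _ _
  obtain ⟨w, hw, hw'⟩ := h3.right ρ hρ0
  set g : ℝ → ℝ := T^[n + 1 + 1] with hg
  have hgc : Continuous g := Ti_cont _
  have hgt : g t = 0 := by
    rw [hg, Function.iterate_succ_apply', Function.iterate_succ_apply', hT1, T_ge (by norm_num)]
    norm_num
  have hgw : 0 < g w := by
    have hwn := (hball (y := w) (by rw [Real.dist_eq, abs_lt]; constructor <;> linarith [hw.1, hw.2])).2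
    rw [abs_lt] at hwn
    rw [hg, Function.iterate_succ_apply', Function.iterate_succ_apply']
    rcases hend with e | e
    · rw [e] at hwn
      have : T^[n] w < 1 / 3 := by
        by_contra hcon
        exact hw' ⟨not_lt.1 hcon, by linarith [hwn.2]⟩
      rw [show T^[n] w = 1 / 3 - (1 / 3 - T^[n] w) by ring,
        T2_left (by linarith) (by linarith [hwn.1])]
      linarith
    · rw [e] at hwn
      have : 2 / 3 < T^[n] w := by
        by_contra hcon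
        exact hw' ⟨by linarith [hwn.1], not_lt.1 hcon⟩
      rw [show T^[n] w = 2 / 3 + (T^[n] w - 2 / 3) by ring,
        T2_right (by linarith) (by linarith [hwn.2])]
      linarith
  obtain ⟨m, hm⟩ := small_pow hgw
  have hp : (0 : ℝ) < 1 / 3 ^ m := by positivity
  obtain ⟨s', t', k1, k2, k3, k4⟩ := crossing_up hgc hw.1
    (p := 1 / 3 * (1 / 3 ^ m)) (q := 2 / 3 * (1 / 3 ^ m)) (by linarith)
    (by rw [hgt]; linarith) (by linarith)
  have h3m : (1 / 3 ^ m : ℝ) * 3 ^ m = 1 := by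
    rw [one_div, inv_mul_cancel₀ (by positivity)]
  have h3p : (0 : ℝ) < 3 ^ m := by positivity
  -- scaling
  have hsc : ∀ x, 0 ≤ g x → g x ≤ 3 / 2 * (1 / 3 ^ m) → T^[m + (n + 1 + 1)] x = g x * 3 ^ m := by
    intro x hx0 hx1
    rw [Function.iterate_add_apply]
    apply Ti_small m hx0
    calc T^[n + 1 + 1] x * 3 ^ m ≤ (3 / 2 * (1 / 3 ^ m)) * 3 ^ m :=
          mul_le_mul_of_nonneg_right hx1 h3p.le
      _ = 3 / 2 := by rw [mul_assoc, h3m, mul_one]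
  have hscI : ∀ x, 0 ≤ g x → g x ≤ 3 / 2 * (1 / 3 ^ m) →
      (T^[m + (n + 1 + 1)] x ∈ Icc (1 / 3 : ℝ) (2 / 3) ↔
        g x ∈ Icc (1 / 3 * (1 / 3 ^ m)) (2 / 3 * (1 / 3 ^ m))) := by
    intro x hx0 hx1
    rw [hsc x hx0 hx1]
    constructor
    · rintro ⟨a1, a2⟩
      constructor
      · by_contra hcon
        push Not at hcon
        have := mul_lt_mul_of_pos_right hcon h3p
        rw [mul_assoc, h3m] at this
        linarith
      · by_contra hcon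
        push Not at hcon
        have := mul_lt_mul_of_pos_right hcon h3p
        rw [mul_assoc, h3m] at this
        linarith
    · rintro ⟨a1, a2⟩
      have b1 := mul_le_mul_of_nonneg_right a1 h3p.le
      have b2 := mul_le_mul_of_nonneg_right a2 h3p.le
      rw [mul_assoc, h3m] at b1 b2
      exact ⟨by linarith, by linarith⟩
  have hgs := k4.maps s' ⟨le_rfl, k2.le⟩
  have hgt' := k4.maps t' ⟨k2.le, le_rfl⟩
  have hnbg : ∀ z, g z ∈ Icc (1 / 3 * (1 / 3 ^ m : ℝ)) (2 / 3 * (1 / 3 ^ m)) →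
      ∃ δ' > 0, ∀ x, |x - z| < δ' → 0 ≤ g x ∧ g x ≤ 3 / 2 * (1 / 3 ^ m) := by
    intro z hz
    have h5 : ∀ᶠ x in 𝓝 z, g x ∈ Ioo 0 (3 / 2 * (1 / 3 ^ m : ℝ)) :=
      hgc.continuousAt.eventually (Ioo_mem_nhds (by linarith [hz.1]) (by linarith [hz.2]))
    obtain ⟨δ', hδ', hb⟩ := Metric.eventually_nhds_iff.1 h5
    exact ⟨δ', hδ', fun x hx => ⟨(hb hx).1.le, (hb hx).2.le⟩⟩
  refine ⟨(s', t'), ⟨by simp only; linarith, by simp only; linarith [hw.2], m + (n + 1 + 1), ?_, ?_⟩,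
    k1, by simp only; linarith [hw.2]⟩
  · refine ⟨k2, ?_, ?_, ?_⟩
    · intro x hx
      have := k4.maps x hx
      exact (hscI x (by linarith [this.1]) (by linarith [this.2])).2 this
    · intro ε' hε'
      obtain ⟨δ', hδ', hb⟩ := hnbg s' hgs
      obtain ⟨x, hx, hx'⟩ := k4.left (min ε' δ') (lt_min hε' hδ')
      have m1 := min_le_left ε' δ'
      have m2 := min_le_right ε' δ'
      have hb' := hb x (by rw [abs_lt]; constructor <;> linarith [hx.1, hx.2])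
      exact ⟨x, ⟨by linarith [hx.1], hx.2⟩, fun h => hx' ((hscI x hb'.1 hb'.2).1 h)⟩
    · intro ε' hε'
      obtain ⟨δ', hδ', hb⟩ := hnbg t' hgt'
      obtain ⟨x, hx, hx'⟩ := k4.right (min ε' δ') (lt_min hε' hδ')
      have m1 := min_le_left ε' δ'
      have m2 := min_le_right ε' δ'
      have hb' := hb x (by rw [abs_lt]; constructor <;> linarith [hx.1, hx.2])
      exact ⟨x, ⟨hx.1, by linarith [hx.2]⟩, fun h => hx' ((hscI x hb'.1 hb'.2).1 h)⟩
  · intro j hj1 hjn x hx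
    simp only at hx
    rcases Nat.lt_or_ge (n + 1) j with hj | hj
    · obtain ⟨i, rfl⟩ : ∃ i, j = i + (n + 1 + 1) := ⟨j - (n + 1 + 1), by omega⟩
      have hi : i ≤ m := by omega
      have hgx := k4.maps x hx
      have hpow : (3 : ℝ) ^ i ≤ 3 ^ m := pow_le_pow_right₀ (by norm_num) hi
      have hle : g x * 3 ^ i ≤ 2 / 3 := by
        calc g x * 3 ^ i ≤ g x * 3 ^ m :=
              mul_le_mul_of_nonneg_left hpow (by linarith [hgx.1])
          _ ≤ (2 / 3 * (1 / 3 ^ m)) * 3 ^ m := mul_le_mul_of_nonneg_right hgx.2 h3p.le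
          _ = 2 / 3 := by rw [mul_assoc, h3m, mul_one]
      rw [Function.iterate_add_apply]
      have : T^[i] (T^[n + 1 + 1] x) = g x * 3 ^ i :=
        Ti_small i (by linarith [hgx.1]) (by linarith)
      rw [this]
      intro hh
      linarith [hh.1]
    · exact (hball (y := x) (by
        rw [Real.dist_eq, abs_lt]; constructor <;> linarith [hx.1, hx.2, hw.2])).1 j
        (Finset.mem_Icc.2 ⟨hj1, hj⟩)

theorem F0_fam : Fam E 0 1 F0 := by
  have hcolE : ∀ o ∈ F0, ∀ x ∈ Icc o.1 o.2, ∀ m ≥ 1, T^[m] x ∉ Ioo (8 / 9 : ℝ) (25 / 27) := by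
    rintro o ⟨h1, h2, n, h3, h4⟩ x hx m hm
    have hx3 := h3.maps x hx
    rcases le_or_gt m n with hmn | hmn
    · exact fun h => h4 m hm hmn x hx ⟨h.1.le, h.2.le⟩
    · have hT : 1 ≤ T^[n + 1] x := by
        rw [Function.iterate_succ_apply']
        unfold T
        have : 1 / 3 ≤ min (T^[n] x) (1 - T^[n] x) := le_min hx3.1 (by linarith [hx3.2])
        unfold T at this
        linarith
      rcases Nat.lt_or_ge (n + 1) m with hm' | hm'
      · obtain ⟨i, rfl⟩ : ∃ i, m = i + (n + 1 + 1) := ⟨m - (n + 1 + 1), by omega⟩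
        rw [Function.iterate_add_apply]
        intro h
        have h5 : T^[n + 1 + 1] x ≤ 0 := by
          rw [Function.iterate_succ_apply', T_ge (by linarith)]
          linarith
        linarith [Ti_nonpos h5 i, h.1]
      · have : m = n + 1 := by omega
        rw [this]
        intro h
        linarith [h.2]
  have hsubE : ∀ o ∈ F0, ∀ x ∈ Icc o.1 o.2, x ∈ E := fun o ho x hx => ⟨1, hcolE o ho x hx⟩
  refine ⟨⟨(1 / 3, 2 / 3), ?_⟩, ?_, ?_, ?_, ?_, ?_, ?_⟩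
  · refine ⟨by norm_num, by norm_num, 0, ?_, fun j h1 h2 => by omega⟩
    refine ⟨by norm_num, fun x hx => hx, ?_, ?_⟩
    · intro ε hε
      refine ⟨1 / 3 - ε / 2, ⟨by simp only; linarith, by simp only; linarith⟩, ?_⟩
      intro h
      simp only [Function.iterate_zero, id] at h
      linarith [h.1]
    · intro ε hε
      refine ⟨2 / 3 + ε / 2, ⟨by simp only; linarith, by simp only; linarith⟩, ?_⟩
      intro h
      simp only [Function.iterate_zero, id] at h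
      linarith [h.2]
  · rintro o ho
    obtain ⟨h1, h2, n, h3, h4⟩ := id ho
    have hlt := h3.lt
    refine ⟨hlt.le, fun x hx => ⟨fun _ => trivial, fun _ => hsubE o ho x hx⟩, ?_, ?_⟩
    · intro ε hε
      obtain ⟨y, hy, hy'⟩ := (E_bal o.1 ε hε).2
      refine ⟨⟨y, hy, hy'.2 (hsubE o ho _ ⟨le_rfl, hlt.le⟩)⟩, ?_⟩
      obtain ⟨w, hw, hw'⟩ := h3.left ε hε
      obtain ⟨e, he, he'⟩ := near_out E_ob hw' (h3.maps o.1 ⟨le_rfl, hlt.le⟩)
      obtain ⟨z, hz, hz'⟩ := ivt_open (Ti_cont n) hw.2 (v := e) (by tauto)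
      exact ⟨z, ⟨by linarith [hw.1, hz.1], hz.2⟩, fun hzA => he (hz' ▸ (E_Ti n).1 hzA)⟩
    · intro ε hε
      obtain ⟨y, hy, hy'⟩ := (E_bal o.2 ε hε).1
      refine ⟨⟨y, hy, hy'.2 (hsubE o ho _ ⟨hlt.le, le_rfl⟩)⟩, ?_⟩
      obtain ⟨w, hw, hw'⟩ := h3.right ε hε
      obtain ⟨e, he, he'⟩ := near_out E_ob hw' (h3.maps o.2 ⟨hlt.le, le_rfl⟩)
      obtain ⟨z, hz, hz'⟩ := ivt_open (Ti_cont n) hw.1 (v := e) (by tauto)
      exact ⟨z, ⟨hz.1, by linarith [hw.2, hz.2]⟩, fun hzA => he (hz' ▸ (E_Ti n).1 hzA)⟩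
  · rintro o ⟨_, _, n, h3, _⟩
    exact h3.lt
  · rintro o ⟨h1, h2, _⟩
    exact ⟨h1, h2⟩
  · intro o ho ε hε
    exact F0_right ho hε
  · intro o ho ε hε
    obtain ⟨o', ho', h1, h2⟩ := F0_right (F0_symm ho) hε
    simp only at h1 h2
    refine ⟨_, F0_symm ho', ?_, ?_⟩
    · simp only; linarith
    · simp only; linarith
  · have hc : IsClosed (EF 1) := EF_closed 1
    refine (closure_minimal ?_ hc).trans (EF_sub 1)
    intro x hx
    obtain ⟨o, ho, hxo⟩ := mem_iUnion₂.1 hx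
    exact hcolE o ho x hxo

theorem E_rich : Rich E := by
  rintro a b ⟨x, hx, hxE⟩ ⟨y, hy, hyE⟩
  have hne : x ≠ y := by rintro rfl; exact hyE hxE
  have key : ∀ u v, a < u → u < v → v < b → (u ∈ E ↔ v ∉ E) → ∃ 𝓕, Fam E a b 𝓕 := by
    intro u v hau huv hvb hc
    rcases dich huv with ⟨n, hn⟩ | ⟨n, hn⟩
    · have h1 : u ∈ E := (E_Ti n).2 (E_nonpos (hn u ⟨le_rfl, huv.le⟩))
      have h2 : v ∈ E := (E_Ti n).2 (E_nonpos (hn v ⟨huv.le, le_rfl⟩))
      exact absurd h2 (hc.1 h1)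
    · obtain ⟨x1, hx1, e1⟩ := hn (show (0 : ℝ) ∈ Icc 0 1 from ⟨le_rfl, zero_le_one⟩)
      obtain ⟨x2, hx2, e2⟩ := hn (show (1 : ℝ) ∈ Icc 0 1 from ⟨zero_le_one, le_rfl⟩)
      rcases lt_trichotomy x1 x2 with h | h | h
      · obtain ⟨𝓕, hF⟩ := F0_fam.pull (Ti_cont n) (fun x => E_Ti n) E_bal h
          (Or.inl ⟨e1.le, e2.ge⟩)
        exact ⟨𝓕, hF.wide (by linarith [hx1.1]) (by linarith [hx2.2])⟩
      · rw [h, e2] at e1; norm_num at e1
      · obtain ⟨𝓕, hF⟩ := F0_fam.pull (Ti_cont n) (fun x => E_Ti n) E_bal h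
          (Or.inr ⟨e2.ge, e1.le⟩)
        exact ⟨𝓕, hF.wide (by linarith [hx2.1]) (by linarith [hx1.2])⟩
  rcases lt_or_gt_of_ne hne with h | h
  · exact key x y hx.1 h hy.2 (by tauto)
  · exact key y x hy.1 h hx.2 (by tauto)

end Helper98.Wadge
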