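import Pool.Agent.Helper98_Wadge.Steps

namespace Helper98.Wadge

open Set Filter Topology

/-- The domain interval misses `F n`. -/
def MissF (F : ℕ → Set ℝ) (n : ℕ) : Bx := fun s t _ _ => ∀ x ∈ Ioo s t, x ∉ F n

/-- The open range interval misses `G n`. -/
def MissG (G : ℕ → Set ℝ) (n : ℕ) : Bx := fun _ _ p q => ∀ x ∈ uIcc p q, x ≠ p → x ≠ q → x ∉ G n

theorem hered_MissF (F : ℕ → Set ℝ) (n : ℕ) : Hered (MissF F n) := by
  intro u v y z s t p q h hs ht _ _ x hx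
  exact h x ⟨lt_of_le_of_lt hs hx.1, lt_of_lt_of_le hx.2 ht⟩

theorem hered_MissG (G : ℕ → Set ℝ) (n : ℕ) : Hered (MissG G n) := by
  intro u v y z s t p q h hs ht hp hq x hx h1 h2
  apply h x (uIcc_subset_uIcc hp hq hx)
  · rintro rfl
    rw [mem_uIcc] at hx hp hq
    rcases hx with ⟨a1, a2⟩ | ⟨a1, a2⟩ <;> rcases hp with ⟨a3, a4⟩ | ⟨a3, a4⟩ <;>
    rcases hq with ⟨a5, a6⟩ | ⟨a5, a6⟩ <;>
    first
    | exact h1 (by linarith)
    | exact h2 (by linarith)
  · rintro rfl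
    rw [mem_uIcc] at hx hp hq
    rcases hx with ⟨a1, a2⟩ | ⟨a1, a2⟩ <;> rcases hp with ⟨a3, a4⟩ | ⟨a3, a4⟩ <;>
    rcases hq with ⟨a5, a6⟩ | ⟨a5, a6⟩ <;>
    first
    | exact h1 (by linarith)
    | exact h2 (by linarith)

section ctx

variable {A B : Set ℝ} {F G : ℕ → Set ℝ} {c0 d0 : ℝ}

theorem Ctx.F_RA (hc : Ctx A B F G c0 d0) {n : ℕ} {a b : ℝ} (hab : a < b) (ha : a ∈ F n)
    (hm : ∀ x ∈ Ioo a b, x ∉ F n) : RA A a := by
  apply hc.balA.RA_of
  intro ε hε
  by_contra hcon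
  push Not at hcon
  set y := a + min ε (b - a) / 2 with hy
  have h0 : 0 < min ε (b - a) := lt_min hε (by linarith)
  have h1 := min_le_left ε (b - a)
  have h2 := min_le_right ε (b - a)
  apply hm y ⟨by linarith, by linarith⟩
  apply hc.Fs n a ha
  intro x hx
  rw [uIcc_of_le (by linarith)] at hx
  rcases hx.1.eq_or_lt with e | e
  · rw [← e]; exact hc.FA n ha
  · rcases hcon x ⟨e, by linarith [hx.2]⟩ with ⟨hh, _⟩ | ⟨_, hh⟩
    · exact hh
    · exact absurd (hc.FA n ha) hh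

theorem Ctx.F_LA (hc : Ctx A B F G c0 d0) {n : ℕ} {a b : ℝ} (hab : a < b) (hb : b ∈ F n)
    (hm : ∀ x ∈ Ioo a b, x ∉ F n) : LA A b := by
  have hra : RA (ng A) (-b) := by
    apply hc.balA.ng.RA_of
    intro ε hε
    by_contra hcon
    push Not at hcon
    set y := b - min ε (b - a) / 2 with hy
    have h0 : 0 < min ε (b - a) := lt_min hε (by linarith)
    have h1 := min_le_left ε (b - a)
    have h2 := min_le_right ε (b - a)
    apply hm y ⟨by linarith, by linarith⟩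
    apply hc.Fs n b hb
    intro x hx
    rw [uIcc_of_ge (by linarith)] at hx
    rcases hx.2.eq_or_lt with e | e
    · rw [e]; exact hc.FA n hb
    · rcases hcon (-x) ⟨by linarith, by linarith [hx.1]⟩ with ⟨hh, _⟩ | ⟨_, hh⟩
      · simpa [mem_ng] using hh
      · exact absurd (hc.FA n hb) (by simpa [mem_ng] using hh)
  rw [RA_ng, neg_neg] at hra
  exact hra

theorem ordConn_R {y z c r : ℝ} : ({w | w ∈ uIcc y z ∧ |w - c| ≤ r} : Set ℝ).OrdConnected := by
  have : ({w | w ∈ uIcc y z ∧ |w - c| ≤ r} : Set ℝ) = uIcc y z ∩ Icc (c - r) (c + r) := by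
    ext w
    simp only [mem_ofPred_eq, mem_inter_iff, mem_Icc, abs_le]
    constructor
    · rintro ⟨h1, h2, h3⟩; exact ⟨h1, by linarith, by linarith⟩
    · rintro ⟨h1, h2, h3⟩; exact ⟨h1, by linarith, by linarith⟩
  rw [this]
  exact ordConnected_uIcc.inter ordConnected_Icc

theorem Ctx.flat (hc : Ctx A B F G c0 d0) (n : ℕ) {t v q z : ℝ} (h : Adm A B c0 d0 t v q z)
    (ht : t ∈ A) (hv : v ∉ A) :
    Sol A B (fun a b c d => Adm A B c0 d0 a b c d ∧ MissF F n a b c d) t v q z := by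
  by_cases hne : (F n ∩ Icc t v).Nonempty
  swap
  · refine h.triv ⟨h, ?_⟩
    intro x hx hxF
    exact hne ⟨x, hxF, hx.1.le, hx.2.le⟩
  have hKc : IsClosed (F n ∩ Icc t v) := (hc.Fc n).inter isClosed_Icc
  have hbd : BddAbove (F n ∩ Icc t v) := ⟨v, fun x hx => hx.2.2⟩
  set m := sSup (F n ∩ Icc t v) with hm
  have hmK : m ∈ F n ∩ Icc t v := hKc.csSup_mem hne hbd
  have hmv : m < v := lt_of_le_of_ne hmK.2.2 (fun e => hv (e ▸ hc.FA n hmK.1))
  have hmle : ∀ x ∈ F n ∩ Icc t v, x ≤ m := fun x hx => le_csSup hbd hx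
  have htm : t ≤ m := hmK.2.1
  classical
  set S : Set ℝ := ({t} : Set ℝ) ∪ (F n ∩ Icc t v) ∪ {v} with hS
  have hSm : ∀ x, x ∈ S ↔ x = t ∨ x ∈ F n ∩ Icc t v ∨ x = v := by
    intro x; simp only [hS, mem_union, mem_singleton_iff, or_assoc]
  set φ : ℝ → ℝ := fun x => if x ≤ m then q else ln m q v z x with hφ
  have hφc : Continuous φ := by
    apply Continuous.if_le continuous_const (ln_cont _ _ _ _) continuous_id continuous_const
    intro x hx
    simp only [id] at hx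
    rw [hx, ln_left]
  have φle : ∀ x ≤ m, φ x = q := fun x hx => by simp [hφ, hx]
  have φv : φ v = z := by
    simp only [hφ, not_le.2 hmv, if_false]; exact ln_right hmv
  have hqB : q ∈ B := h.c1.1 ht
  have hzB : z ∉ B := fun hh => hv (h.c2.2 hh)
  have hSclosed : IsClosed S := (isClosed_singleton.union hKc).union isClosed_singleton
  have tS : t ∈ S := (hSm t).2 (Or.inl rfl)
  have vS : v ∈ S := (hSm v).2 (Or.inr (Or.inr rfl))
  have mS : m ∈ S := (hSm m).2 (Or.inr (Or.inl hmK))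
  have FS : ∀ x, x ∈ F n → x ∈ Icc t v → x ∈ S := fun x h1 h2 => (hSm x).2 (Or.inr (Or.inl ⟨h1, h2⟩))
  refine SolR.glue (S := S) (φ := φ) h.lt hSclosed ?_ tS vS hφc.continuousOn (φle t htm) φv ?_ ?_ ?_
  · intro x hx
    rcases (hSm x).1 hx with rfl | hx | rfl
    · exact ⟨le_rfl, h.lt.le⟩
    · exact hx.2
    · exact ⟨h.lt.le, le_rfl⟩
  · intro x hx
    rcases (hSm x).1 hx with rfl | hx | rfl
    · rw [φle _ htm]; exact h.c1
    · rw [φle _ (hmle x hx)]; exact ⟨fun _ => hqB, fun _ => hc.FA n hx.1⟩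
    · rw [φv]; exact h.c2
  · intro x hx
    rcases (hSm x).1 hx with rfl | hx | rfl
    · rw [φle _ htm]; exact left_mem_uIcc
    · rw [φle _ (hmle x hx)]; exact left_mem_uIcc
    · rw [φv]; exact right_mem_uIcc
  · intro a b g
    obtain ⟨g1, g2, g3, g4⟩ := g
    have hgm : ∀ x ∈ Ioo a b, x ∉ F n := by
      intro x hx hxF
      have ha : t ≤ a := by
        rcases (hSm a).1 g2 with e | e | e
        · exact e.ge
        · exact e.2.1
        · rw [e]; exact h.lt.le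
      have hb : b ≤ v := by
        rcases (hSm b).1 g3 with e | e | e
        · rw [e]; exact h.lt.le
        · exact e.2.2
        · exact e.le
      exact g4 x hx (FS x hxF ⟨by linarith [hx.1], by linarith [hx.2]⟩)
    -- left activity at a
    have haA : a ∈ A ∧ RA A a ∧ a ≤ m := by
      rcases (hSm a).1 g2 with e | e | e
      · rw [e]; exact ⟨ht, h.ra, htm⟩
      · exact ⟨hc.FA n e.1, hc.F_RA g1 e.1 hgm, hmle a e⟩
      · exfalso
        rcases (hSm b).1 g3 with e' | e' | e'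
        · linarith [h.lt]
        · linarith [e'.2.2]
        · linarith
    rcases (hSm b).1 g3 with e | e | e
    · exfalso
      rcases (hSm a).1 g2 with e' | e' | e'
      · linarith
      · linarith [e'.2.1]
      · linarith [h.lt]
    · -- detour
      have hbm := hmle b e
      have hbA : b ∈ A := hc.FA n e.1
      have hbL : LA A b := hc.F_LA g1 e.1 hgm
      rw [φle a haA.2.2, φle b hbm]
      obtain ⟨p', q', hn, hp', hq'⟩ := hc.balB.nb_near h.t1 (ε := b - a) (by linarith) False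
      obtain ⟨s1, t1, k1, k2, k3, k4⟩ := hc.balA.ob_right haA.2.1 (ε := b - a) (by linarith) False
      have hp'B : p' ∉ B := fun hh => (hn.col p' left_mem_uIcc).1 hh
      have hs1 : s1 ∉ A := fun hh => (k4.col s1 ⟨le_rfl, k4.le⟩).1 hh
      have ht1 : t1 ∉ A := fun hh => (k4.col t1 ⟨k4.le, le_rfl⟩).1 hh
      have hp'I : p' ∈ Icc c0 d0 := Icc_uIcc h.r1 h.r2 hn.mp
      refine SolR.cut (s := s1) (t := t1) (p := p') (q := p') ordConn_R k1 k2 (by linarith)
        (fun _ => rfl) ⟨left_mem_uIcc, ?_⟩ ⟨hn.mp, ?_⟩ ⟨hn.mp, ?_⟩ ⟨left_mem_uIcc, ?_⟩ ?_ ?_ ?_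
        ⟨⟨k1, haA.2.1, k4.la, h.t1.sub hn.mp hn.ne1, hn.tp, ?_, ?_, h.r1, hp'I⟩, ?_⟩
        ⟨⟨by linarith, k4.ra, hbL, hn.tp, h.t1.sub hn.mp hn.ne1, ?_, ?_, hp'I, h.r1⟩, ?_⟩
      · simp; linarith
      · simp; exact hp'.le
      · simp; exact hp'.le
      · simp; linarith
      · exact ⟨fun _ => hqB, fun _ => haA.1⟩
      · exact ⟨fun _ => hqB, fun _ => hbA⟩
      · intro x hx w hw
        rw [uIcc_self, mem_singleton_iff] at hw
        rw [hw, k4.col x hx]
        exact ⟨fun h => h.elim, fun hh => hp'B hh⟩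
      · exact ⟨fun _ => hqB, fun _ => haA.1⟩
      · exact ⟨fun hh => absurd hh hs1, fun hh => absurd hh hp'B⟩
      · intro x hx
        exact hgm x ⟨hx.1, by linarith [hx.2]⟩
      · exact ⟨fun hh => absurd hh ht1, fun hh => absurd hh hp'B⟩
      · exact ⟨fun _ => hqB, fun _ => hbA⟩
      · intro x hx
        exact hgm x ⟨by linarith [hx.1], hx.2⟩
    · -- last gap
      have ham : a = m := by
        rcases haA.2.2.eq_or_lt with e' | e'
        · exact e'
        · exact absurd mS (g4 m ⟨e', by rw [e]; exact hmv⟩)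
      rw [e, φv, φle a haA.2.2]
      have hadm : Adm A B c0 d0 a v q z := ⟨by rw [ham]; exact hmv, haA.2.1, h.la, h.t1, h.t2,
        ⟨fun _ => hqB, fun _ => haA.1⟩, h.c2, h.r1, h.r2⟩
      refine SolR.triv ordConn_R hadm.lt ⟨left_mem_uIcc, ?_⟩ ⟨right_mem_uIcc, ?_⟩ hadm.c1 hadm.c2
        ⟨hadm, ?_⟩
      · simp; linarith [abs_nonneg (z - q), hadm.lt]
      · linarith [hadm.lt]
      · intro x hx
        exact hgm x ⟨hx.1, by rw [e]; exact hx.2⟩

theorem Ctx.fstep (hc : Ctx A B F G c0 d0) (n : ℕ) {u v y z : ℝ} (h : Good A B c0 d0 u v y z) :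
    Sol A B (fun a b c d => Adm A B c0 d0 a b c d ∧ MissF F n a b c d) u v y z := by
  obtain ⟨h, hu, hv⟩ := h
  by_cases hne : (F n ∩ Icc u v).Nonempty
  swap
  · refine h.triv ⟨h, ?_⟩
    intro x hx hxF
    exact hne ⟨x, hxF, hx.1.le, hx.2.le⟩
  have hKc : IsClosed (F n ∩ Icc u v) := (hc.Fc n).inter isClosed_Icc
  have hbd : BddBelow (F n ∩ Icc u v) := ⟨u, fun x hx => hx.2.1⟩
  set m := sInf (F n ∩ Icc u v) with hm
  have hmK : m ∈ F n ∩ Icc u v := hKc.csInf_mem hne hbd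
  have hum : u < m := lt_of_le_of_ne hmK.2.1 (fun e => hu (e ▸ hc.FA n hmK.1))
  have hmle : ∀ x ∈ F n ∩ Icc u v, m ≤ x := fun x hx => csInf_le hbd hx
  obtain ⟨p, q, hn, _, _⟩ := hc.balB.nb_near h.t1 one_pos True
  obtain ⟨s, t, k1, k2, k3, k4⟩ := hc.dom_right hn h.r1 h.r2 h.ra (ε := m - u) (by linarith)
  have htv : t < v := by linarith [hmK.2.2]
  have htA : t ∈ A := (k3.col t ⟨k3.le, le_rfl⟩).2 trivial
  have h1 : Sol A B (fun a b c d => Adm A B c0 d0 a b c d ∧ b ≤ v ∧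
      ((MissF F n a b c d) ∨ (a ∈ A ∧ b ∉ A))) u v y z := by
    refine h.cut k3 hn k1 htv k4 ⟨h.left k3 hn k1, by linarith [k3.le], Or.inl ?_⟩
      ⟨h.right k3 hn htv, le_rfl, Or.inr ⟨htA, hv⟩⟩
    intro x hx hxF
    have := hmle x ⟨hxF, hx.1.le, by linarith [hx.2, k3.le]⟩
    linarith [hx.2, k3.le]
  refine h1.comp ?_
  rintro a b c d ⟨h2, _, h3 | ⟨h3, h4⟩⟩
  · exact h2.triv ⟨h2, h3⟩
  · exact hc.flat n h2 h3 h4

end ctx

end Helper98.Wadge
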