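import Pool.Agent.Helper98_Wadge.Box
import Pool.Agent.Helper98_Wadge.Example

namespace Helper98.Wadge

open Set Filter Topology

/-- The set of rational numbers. -/
def Rat' : Set ℝ := Set.range ((↑) : ℚ → ℝ)

theorem Rat'_bal : Bal Rat' := by
  intro x ε hε
  by_cases hx : x ∈ Rat'
  · obtain ⟨q, h1, h2⟩ := exists_rat_btwn (show x < x + ε by linarith)
    obtain ⟨q', h1', h2'⟩ := exists_rat_btwn (show x - ε < x by linarith)
    exact ⟨⟨q, ⟨h1, h2⟩, ⟨fun _ => hx, fun _ => ⟨q, rfl⟩⟩⟩,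
      ⟨q', ⟨h1', h2'⟩, ⟨fun _ => hx, fun _ => ⟨q', rfl⟩⟩⟩⟩
  · obtain ⟨q, hq, h1, h2⟩ := exists_irrational_btwn (show x < x + ε by linarith)
    obtain ⟨q', hq', h1', h2'⟩ := exists_irrational_btwn (show x - ε < x by linarith)
    exact ⟨⟨q, ⟨h1, h2⟩, ⟨fun h => absurd h hq, fun h => absurd h hx⟩⟩,
      ⟨q', ⟨h1', h2'⟩, ⟨fun h => absurd h hq', fun h => absurd h hx⟩⟩⟩

/-- Countable closed saturated decompositions. -/
structure Dec (A : Set ℝ) (F : ℕ → Set ℝ) : Prop where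
  c : ∀ n, IsClosed (F n)
  s : ∀ n, ∀ x ∈ F n, ∀ y, uIcc x y ⊆ A → y ∈ F n
  sub : ∀ n, F n ⊆ A
  U : ∀ x ∈ A, ∃ n, x ∈ F n

theorem dec_E : Dec E EF := ⟨EF_closed, EF_sat, EF_sub, fun _ ⟨n, hn⟩ => ⟨n, hn⟩⟩

theorem dec_of_red {A : Set ℝ} {h : ℝ → ℝ} (hc : Continuous h) (hr : ∀ x, x ∈ A ↔ h x ∈ Rat') :
    ∃ F, Dec A F := by
  obtain ⟨e, he⟩ := exists_surjective_nat ℚ
  refine ⟨fun n => h ⁻¹' {(e n : ℝ)}, ?_, ?_, ?_, ?_⟩
  · intro n; exact isClosed_singleton.preimage hc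
  · intro n x hx y hxy
    have hx' : h x = e n := hx
    show h y = e n
    by_contra hne
    have hne' : h x ≠ h y := by rw [hx']; exact fun h => hne h.symm
    have hpre : IsPreconnected (h '' uIcc x y) := isPreconnected_uIcc.image _ hc.continuousOn
    obtain ⟨r, hr1, hr2⟩ : ∃ r, Irrational r ∧ r ∈ uIcc (h x) (h y) := by
      rcases lt_or_gt_of_ne hne' with h1 | h1
      · obtain ⟨r, hr, h2, h3⟩ := exists_irrational_btwn h1
        exact ⟨r, hr, by rw [mem_uIcc]; left; exact ⟨h2.le, h3.le⟩⟩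
      · obtain ⟨r, hr, h2, h3⟩ := exists_irrational_btwn h1
        exact ⟨r, hr, by rw [mem_uIcc]; right; exact ⟨h2.le, h3.le⟩⟩
    obtain ⟨w, hw, hwr⟩ := hpre.ordConnected.uIcc_subset ⟨x, left_mem_uIcc, rfl⟩
      ⟨y, right_mem_uIcc, rfl⟩ hr2
    have := (hr w).1 (hxy hw)
    rw [hwr] at this
    exact hr1 this
  · intro n x hx
    have hx' : h x = e n := hx
    rw [hr, hx']
    exact ⟨_, rfl⟩
  · intro x hx
    obtain ⟨q, hq⟩ := (hr x).1 hx
    obtain ⟨n, hn⟩ := he q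
    exact ⟨n, show h x = e n by rw [hn, hq]⟩

/-- A boundary pair inside an interval meeting both colours. -/
theorem Bal.exists_cd {X : Set ℝ} (hX : Bal X) {a b : ℝ} (h1 : ∃ x ∈ Ioo a b, x ∈ X)
    (h2 : ∃ x ∈ Ioo a b, x ∉ X) : ∃ c d, a < c ∧ c < d ∧ d < b ∧ c ∈ X ∧ d ∉ X ∧
      Tow X c d ∧ Tow X d c := by
  obtain ⟨x, hx, hxX⟩ := h1
  obtain ⟨y, hy, hyX⟩ := h2
  have hne : x ≠ y := by rintro rfl; exact hyX hxX
  obtain ⟨t, ht1, ht2, hra⟩ : ∃ t, a < t ∧ t < b ∧ RA X t := by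
    rcases lt_or_gt_of_ne hne with h | h
    · obtain ⟨t, k1, k2, k3, k4⟩ := hX.right_end h (by tauto)
      exact ⟨t, by linarith [hx.1], by linarith [hy.2], k4⟩
    · obtain ⟨t, k1, k2, k3, k4⟩ := hX.right_end h (by tauto)
      exact ⟨t, by linarith [hy.1], by linarith [hx.2], k4⟩
  obtain ⟨s1, t1, a1, a2, a3, a4⟩ := hX.ob_right hra (ε := b - t) (by linarith) True
  obtain ⟨s2, t2, b1, b2, b3, b4⟩ := hX.ob_right a4.ra (ε := b - t1) (by linarith) False
  refine ⟨t1, s2, by linarith, b1, by linarith, (a4.col t1 ⟨a2, le_rfl⟩).2 trivial,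
    fun h => (b4.col s2 ⟨le_rfl, b2⟩).1 h, Or.inl ⟨b1, a4.ra⟩, Or.inr ⟨b1, b4.la⟩⟩

theorem main_red {A B : Set ℝ} {F G : ℕ → Set ℝ} (balA : Bal A) (balB : Bal B) (hF : Dec A F)
    (hG : Dec B G) (hR : Rich A) {c d : ℝ} (hcd : c < d) (hcB : c ∈ B) (hdB : d ∉ B)
    (t1 : Tow B c d) (t2 : Tow B d c)
    (alt : CoDense A ∨ ∀ p q, p < q → Icc p q ⊆ Icc c d → ∃ x ∈ Icc p q, x ∈ B) :
    ∃ f : ℝ → ℝ, Continuous f ∧ ∀ x, (x ∈ A ↔ f x ∈ B) := by
  have hc : Ctx A B F G c d := ⟨balA, balB, hF.c, hF.s, hF.sub, hF.U, hG.c, hG.s, hG.sub, hG.U, hR, alt⟩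
  exact hc.global hcB hdB ⟨le_rfl, hcd.le⟩ ⟨hcd.le, le_rfl⟩ t1 t2

theorem Bal.not_open {X : Set ℝ} (hX : Bal X) (h1 : X.Nonempty) (h2 : Xᶜ.Nonempty) :
    ¬ IsOpen X := by
  intro ho
  obtain ⟨x, hx⟩ := h1
  obtain ⟨y, hy⟩ := h2
  have hne : x ≠ y := by rintro rfl; exact hy hx
  -- find a boundary point with no complement points on one side
  have key : ∀ X : Set ℝ, Bal X → IsOpen X → ∀ x y : ℝ, x < y → x ∈ X → y ∉ X → False := by
    intro X hX ho x y hxy hx hy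
    obtain ⟨t, k1, k2, k3, k4⟩ := hX.right_end hxy (by tauto)
    have htX : t ∈ X := (k3 t ⟨k1, le_rfl⟩).2 hx
    obtain ⟨ε, hε, hb⟩ := Metric.isOpen_iff.1 ho t htX
    obtain ⟨w, hw, hwX⟩ := (k4 ε hε).2
    exact hwX (hb (by rw [Metric.mem_ball, Real.dist_eq, abs_lt]; constructor <;> linarith [hw.1, hw.2]))
  rcases lt_or_gt_of_ne hne with h | h
  · exact key X hX ho x y h hx hy
  · refine key (Helper98.Wadge.ng X) hX.ng ?_ (-x) (-y) (by linarith) (by simpa [mem_ng] using hx)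
      (by simpa [mem_ng] using hy)
    exact ho.preimage continuous_neg

theorem Bal.not_closed {X : Set ℝ} (hX : Bal X) (h1 : X.Nonempty) (h2 : Xᶜ.Nonempty) :
    ¬ IsClosed X := by
  intro hc
  exact hX.compl.not_open h2 (by rwa [compl_compl]) hc.isOpen_compl

theorem nonempty_of_not {X : Set ℝ} (h1 : ¬ IsOpen X) : X.Nonempty ∧ Xᶜ.Nonempty := by
  constructor
  · by_contra h
    rw [not_nonempty_iff_eq_empty] at h
    exact h1 (by rw [h]; exact isOpen_empty)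
  · by_contra h
    rw [not_nonempty_iff_eq_empty, compl_empty_iff] at h
    exact h1 (by rw [h]; exact isOpen_univ)

/-- Two colours in a big interval. -/
theorem big {X : Set ℝ} (h : X.Nonempty ∧ Xᶜ.Nonempty) : ∃ a b, (∃ x ∈ Ioo a b, x ∈ X) ∧
    (∃ x ∈ Ioo a b, x ∉ X) := by
  obtain ⟨⟨x, hx⟩, ⟨y, hy⟩⟩ := h
  refine ⟨min x y - 1, max x y + 1, ⟨x, ⟨?_, ?_⟩, hx⟩, ⟨y, ⟨?_, ?_⟩, hy⟩⟩
  · linarith [min_le_left x y]
  · linarith [le_max_left x y]
  · linarith [min_le_right x y]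
  · linarith [le_max_right x y]

/-- A monotone surjection with plateaus over a given sequence. -/
theorem exists_plateau (d : ℕ → ℝ) : ∃ p : ℝ → ℝ, Continuous p ∧ Monotone p ∧
    Function.Surjective p ∧ ∀ n, ∃ a b, a < b ∧ ∀ x ∈ Icc a b, p x = d n := by
  classical
  have hsum2 : Summable (fun n : ℕ => (1 / 2 : ℝ) ^ n) := summable_geometric_two
  set w : ℝ → ℕ → ℝ := fun y n => if d n < y then (1 / 2 : ℝ) ^ n else 0 with hw
  have hw0 : ∀ y n, 0 ≤ w y n := by intro y n; simp only [hw]; split_ifs <;> positivity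
  have hwle : ∀ y n, w y n ≤ (1 / 2 : ℝ) ^ n := by
    intro y n; simp only [hw]; split_ifs
    · exact le_rfl
    · positivity
  have hws : ∀ y, Summable (w y) := fun y => Summable.of_nonneg_of_le (hw0 y) (hwle y) hsum2
  have hwm : ∀ y y', y ≤ y' → ∀ n, w y n ≤ w y' n := by
    intro y y' hyy n
    simp only [hw]
    split_ifs with h1 h2
    · exact le_rfl
    · exact absurd (lt_of_lt_of_le h1 hyy) h2
    · positivity
    · exact le_rfl
  set s : ℝ → ℝ := fun y => y + ∑' n, w y n with hs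
  have hsy : ∀ y, y ≤ s y := fun y => by
    have h0 : 0 ≤ ∑' n, w y n := tsum_nonneg (hw0 y)
    simp only [hs]; linarith
  have hsy2 : ∀ y, s y ≤ y + 2 := fun y => by
    simp only [hs]
    have := (hws y).tsum_le_tsum (hwle y) hsum2
    rw [tsum_geometric_two] at this
    linarith
  have hsmono : ∀ y y', y ≤ y' → s y + (y' - y) ≤ s y' := by
    intro y y' h
    have := (hws y).tsum_le_tsum (hwm y y' h) (hws y')
    simp only [hs]; linarith
  have hjump : ∀ n y, d n < y → s (d n) + (1 / 2) ^ n + (y - d n) ≤ s y := by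
    intro n y hny
    have h1 : ∑' m, (w (d n) m + if m = n then (1 / 2 : ℝ) ^ n else 0) ≤ ∑' m, w y m := by
      apply Summable.tsum_le_tsum _ _ (hws y)
      · intro m
        by_cases hmn : m = n
        · subst hmn; simp [hw, hny]
        · simp only [hmn, if_false, add_zero]; exact hwm _ _ hny.le m
      · apply (hws _).add
        exact (hasSum_ite_eq n _).summable
    rw [(hws _).tsum_add (hasSum_ite_eq n _).summable, tsum_ite_eq] at h1
    simp only [hs]; linarith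
  set p : ℝ → ℝ := fun x => sSup {y | s y ≤ x} with hp
  have hne : ∀ x, {y | s y ≤ x}.Nonempty := fun x => ⟨x - 2, by
    have := hsy2 (x - 2); simp only [mem_ofPred_eq]; linarith⟩
  have hbd : ∀ x, BddAbove {y | s y ≤ x} := fun x => ⟨x, fun y hy => (hsy y).trans hy⟩
  have hpm : Monotone p := fun x x' h => csSup_le_csSup (hbd x') (hne x) (fun y hy => le_trans hy h)
  have hps : ∀ y, p (s y) = y := by
    intro y
    apply le_antisymm
    · apply csSup_le (hne _)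
      intro y' hy'
      by_contra hcon
      push Not at hcon
      have := hsmono y y' hcon.le
      have : s y' ≤ s y := hy'
      linarith
    · exact le_csSup (hbd _) (le_refl (s y))
  have hsurj : Function.Surjective p := fun y => ⟨s y, hps y⟩
  refine ⟨p, hpm.continuous_of_surjective hsurj, hpm, hsurj, fun n => ⟨s (d n),
    s (d n) + (1 / 2) ^ n, by linarith [show (0 : ℝ) < (1 / 2) ^ n by positivity], ?_⟩⟩
  intro x hx
  apply le_antisymm
  · apply csSup_le (hne _)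
    intro y hy
    by_contra hcon
    push Not at hcon
    have h1 := hjump n y hcon
    have h2 : s y ≤ x := hy
    linarith [hx.2]
  · rw [← hps (d n)]
    exact hpm hx.1

/-- Reducibility by continuous functions on the line. -/
def Reduces (A B : Set ℝ) : Prop := ∃ f : ℝ → ℝ, Continuous f ∧ A = f ⁻¹' B

theorem reduces_iff {A B : Set ℝ} : Reduces A B ↔ ∃ f : ℝ → ℝ, Continuous f ∧ ∀ x, x ∈ A ↔ f x ∈ B := by
  constructor
  · rintro ⟨f, hf, rfl⟩; exact ⟨f, hf, fun x => Iff.rfl⟩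
  · rintro ⟨f, hf, h⟩; exact ⟨f, hf, by ext x; exact h x⟩

theorem Reduces.trans {A B C : Set ℝ} (h : Reduces A B) (h' : Reduces B C) : Reduces A C := by
  obtain ⟨f, hf, rfl⟩ := h
  obtain ⟨g, hg, rfl⟩ := h'
  exact ⟨g ∘ f, hg.comp hf, rfl⟩

/-- The class `𝒟`. -/
def InD (A : Set ℝ) : Prop := Reduces A Rat' ∧ ¬ IsOpen A ∧ ¬ IsClosed A

def IsMinl (A : Set ℝ) : Prop := ¬ IsOpen A ∧ ¬ IsClosed A ∧
  ∀ B : Set ℝ, ¬ IsOpen B → ¬ IsClosed B → Reduces B A → Reduces A B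

theorem InD.bal {A : Set ℝ} (h : InD A) : Bal A := by
  obtain ⟨f, hf, hr⟩ := reduces_iff.1 h.1
  exact Rat'_bal.of_red hf hr

theorem InD.dec {A : Set ℝ} (h : InD A) : ∃ F, Dec A F := by
  obtain ⟨f, hf, hr⟩ := reduces_iff.1 h.1
  exact dec_of_red hf hr

theorem E_ne : E.Nonempty ∧ Eᶜ.Nonempty := ⟨⟨0, E_nonpos le_rfl⟩, ⟨_, nE_310⟩⟩

theorem E_InD : InD E := by
  refine ⟨?_, E_bal.not_open E_ne.1 E_ne.2, E_bal.not_closed E_ne.1 E_ne.2⟩
  rw [reduces_iff]
  have h0 : (0 : ℝ) ∈ Rat' := ⟨0, by simp⟩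
  have hd : Real.sqrt 2 ∉ Rat' := irrational_sqrt_two
  have hlt : (0 : ℝ) < Real.sqrt 2 := by positivity
  obtain ⟨G, hG⟩ := dec_of_red (A := Rat') continuous_id (fun x => Iff.rfl)
  obtain ⟨c, d, k1, k2, k3, k4, k5, k6, k7⟩ := Rat'_bal.exists_cd (a := -1) (b := Real.sqrt 2 + 1)
    ⟨0, ⟨by norm_num, by linarith⟩, h0⟩ ⟨Real.sqrt 2, ⟨by linarith, by linarith⟩, hd⟩
  refine main_red E_bal Rat'_bal dec_E hG E_rich k2 k4 k5 k6 k7 (Or.inr ?_)
  intro p q hpq _
  obtain ⟨r, h1, h2⟩ := exists_rat_btwn hpq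
  exact ⟨r, ⟨h1.le, h2.le⟩, ⟨r, rfl⟩⟩

/-- Rich sets with dense complementary objects are below everything. -/
theorem below_all {A : Set ℝ} (hA : InD A) (hR : Rich A) (hC : CoDense A) {C : Set ℝ}
    (hCD : InD C) : Reduces A C := by
  rw [reduces_iff]
  obtain ⟨F, hF⟩ := hA.dec
  obtain ⟨G, hG⟩ := hCD.dec
  obtain ⟨a, b, h1, h2⟩ := big (nonempty_of_not hCD.2.1)
  obtain ⟨c, d, k1, k2, k3, k4, k5, k6, k7⟩ := hCD.bal.exists_cd h1 h2
  exact main_red hA.bal hCD.bal hF hG hR k2 k4 k5 k6 k7 (Or.inl hC)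

/-- If the complementary objects are not dense then `E` reduces to `B`. -/
theorem above_E {B : Set ℝ} (hB : InD B) (hC : ¬ CoDense B) : Reduces E B := by
  rw [reduces_iff]
  unfold CoDense at hC
  push Not at hC
  obtain ⟨a, b, h1, h2, h3⟩ := hC
  obtain ⟨G, hG⟩ := hB.dec
  obtain ⟨c, d, k1, k2, k3, k4, k5, k6, k7⟩ := hB.bal.exists_cd h1 h2
  refine main_red E_bal hB.bal dec_E hG E_rich k2 k4 k5 k6 k7 (Or.inr ?_)
  intro p q hpq hsub
  by_contra hcon
  push Not at hcon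
  have hp := hsub ⟨le_rfl, hpq.le⟩
  have hq := hsub ⟨hpq.le, le_rfl⟩
  have hpB := hcon p ⟨le_rfl, hpq.le⟩
  have hcp : c < p := lt_of_le_of_ne hp.1 (fun e => hpB (e ▸ k4))
  have hla : LA B d := by
    rcases k7 with h | h
    · linarith [h.1]
    · exact h.2
  obtain ⟨w, hw, hwB⟩ := (hla (d - p) (by linarith [hq.2])).1
  have hqw : q < w := by
    by_contra hh
    exact hcon w ⟨by linarith [hw.1], not_lt.1 hh⟩ hwB
  obtain ⟨s, t, l1, l2, l3, l4, l5⟩ := hB.bal.exists_ob (w := p) (w1 := c) (w2 := w) hcp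
    (by linarith) (by tauto) (by tauto)
  have hqt : q ≤ t := by
    by_contra hh
    push Not at hh
    obtain ⟨e, he, heB⟩ := (l5.ra (q - t) (by linarith)).1
    exact hcon e ⟨by linarith [he.1], by linarith [he.2]⟩ heB
  exact h3 s t (by linarith) (by linarith) (by linarith [hw.2]) (l5.congr (by simp [hpB]))

theorem dichotomy {B : Set ℝ} (hB : InD B) (hBE : Reduces B E) :
    Reduces E B ∨ ∀ C, InD C → Reduces B C := by
  by_cases h : CoDense B
  · right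
    intro C hC
    obtain ⟨f, hf, hr⟩ := reduces_iff.1 hBE
    exact below_all hB (E_rich.of_red hf hr E_bal) h hC
  · exact Or.inl (above_E hB h)

/-- A set strictly below `E`, minimal. -/
theorem exists_min : ∃ M : Set ℝ, InD M ∧ Reduces M E ∧ ¬ Reduces E M ∧ CoDense M := by
  -- dense sequence in the complement of E
  have : Nonempty (Eᶜ : Set ℝ) := ⟨⟨_, nE_310⟩⟩
  obtain ⟨d0, hd0⟩ := TopologicalSpace.exists_dense_seq (Eᶜ : Set ℝ)
  set d : ℕ → ℝ := fun n => (d0 n : ℝ) with hd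
  have hdE : ∀ n, d n ∉ E := fun n => (d0 n).2
  have hdd : ∀ u v, u < v → (∃ x ∈ Ioo u v, x ∉ E) → ∃ n, d n ∈ Ioo u v := by
    rintro u v _ ⟨x, hx, hxE⟩
    obtain ⟨n, hn⟩ := hd0.exists_mem_open
      (show IsOpen ((↑) ⁻¹' (Ioo u v) : Set (Eᶜ : Set ℝ)) from isOpen_Ioo.preimage continuous_subtype_val)
      ⟨⟨x, hxE⟩, hx⟩
    exact ⟨n, hn⟩
  obtain ⟨p, hpc, hpm, hps, hpp⟩ := exists_plateau d
  set M : Set ℝ := p ⁻¹' E with hM
  have hMr : ∀ x, x ∈ M ↔ p x ∈ E := fun x => Iff.rfl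
  have hME : Reduces M E := ⟨p, hpc, rfl⟩
  have hMbal : Bal M := E_bal.of_red hpc hMr
  have hMne : M.Nonempty ∧ Mᶜ.Nonempty := by
    obtain ⟨x, hx⟩ := hps 0
    obtain ⟨y, hy⟩ := hps (3 / 10)
    exact ⟨⟨x, by rw [hMr, hx]; exact E_nonpos le_rfl⟩, ⟨y, fun h => nE_310 (by rw [← hy]; exact h)⟩⟩
  have hMD : InD M := ⟨hME.trans E_InD.1, hMbal.not_open hMne.1 hMne.2,
    hMbal.not_closed hMne.1 hMne.2⟩
  have hplt : ∀ {x y}, p x < p y → x < y := fun {x y} h => by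
    by_contra hcon
    exact absurd (hpm (not_lt.1 hcon)) (not_le.2 h)
  refine ⟨M, hMD, hME, ?_, ?_⟩
  · intro hEM
    obtain ⟨f, hf, hr⟩ := reduces_iff.1 hEM
    have hr' : ∀ x, x ∈ E ↔ p (f x) ∈ E := fun x => (hr x).trans (hMr _)
    -- two points with distinct images
    have key : ∀ x y, p (f x) < p (f y) → (p (f x) ∈ E ↔ p (f y) ∉ E) → False := by
      intro x y hxy hc
      obtain ⟨_, h2⟩ := E_bal.between hxy hc
      obtain ⟨n, hn⟩ := hdd _ _ hxy h2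
      obtain ⟨a, b, hab, hpl⟩ := hpp n
      have hpa : p a = d n := hpl a ⟨le_rfl, hab.le⟩
      have hpb : p b = d n := hpl b ⟨hab.le, le_rfl⟩
      have h3 : f x < a := hplt (by rw [hpa]; exact hn.1)
      have h4 : b < f y := hplt (by rw [hpb]; exact hn.2)
      have hopen : IsOpen (f ⁻¹' (Ioo a b)) := isOpen_Ioo.preimage hf
      obtain ⟨w, hw⟩ : ∃ w, f w ∈ Ioo a b := by
        have hpre : IsPreconnected (range f) := isPreconnected_range hf
        have hm : (a + b) / 2 ∈ Icc (f x) (f y) := ⟨by linarith, by linarith⟩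
        obtain ⟨w, hw⟩ := hpre.ordConnected.out ⟨x, rfl⟩ ⟨y, rfl⟩ hm
        exact ⟨w, by rw [hw]; constructor <;> linarith⟩
      obtain ⟨ε, hε, hb⟩ := Metric.isOpen_iff.1 hopen w hw
      obtain ⟨z, hz, hzE⟩ := E_dense (show w < w + ε / 2 by linarith)
      have hz' : f z ∈ Ioo a b := hb (by
        rw [Metric.mem_ball, Real.dist_eq, abs_lt]; constructor <;> linarith [hz.1, hz.2])
      have := (hr' z).1 hzE
      rw [hpl _ ⟨hz'.1.le, hz'.2.le⟩] at this
      exact hdE n this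
    have h0 : p (f 0) ∈ E := (hr' 0).1 (E_nonpos le_rfl)
    have h1 : p (f (3 / 10)) ∉ E := fun h => nE_310 ((hr' _).2 h)
    have hne : p (f 0) ≠ p (f (3 / 10)) := by
      intro e; rw [e] at h0; exact h1 h0
    rcases lt_or_gt_of_ne hne with h | h
    · exact key _ _ h (by tauto)
    · exact key _ _ h (by tauto)
  · rintro a b ⟨x, hx, hxM⟩ ⟨y, hy, hyM⟩
    -- find plateau strictly between
    have key : ∀ u v, a < u → v < b → u < v → (u ∈ M ↔ v ∉ M) →
        ∃ s t, a < s ∧ s < t ∧ t < b ∧ Ob M False s t := by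
      intro u v hau hvb huv hc
      have hpne : p u < p v := by
        refine lt_of_le_of_ne (hpm huv.le) (fun e => ?_)
        rw [hMr, hMr, e] at hc
        tauto
      obtain ⟨_, h2⟩ := E_bal.between hpne hc
      obtain ⟨n, hn⟩ := hdd _ _ hpne h2
      obtain ⟨s0, t0, hst, hpl⟩ := hpp n
      have hps0 : p s0 = d n := hpl s0 ⟨le_rfl, hst.le⟩
      have hpt0 : p t0 = d n := hpl t0 ⟨hst.le, le_rfl⟩
      have h3 : u < s0 := hplt (by rw [hps0]; exact hn.1)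
      have h4 : t0 < v := hplt (by rw [hpt0]; exact hn.2)
      have hs0M : s0 ∉ M := by rw [hMr, hps0]; exact hdE n
      -- points of M on both sides
      have hL : ∃ w1, u ≤ w1 ∧ w1 < s0 ∧ w1 ∈ M := by
        obtain ⟨e, he, heE⟩ := E_dense (show p u < (p u + d n) / 2 by linarith [hn.1])
        have hpre := intermediate_value_Icc h3.le hpc.continuousOn
        obtain ⟨w1, hw1, hw1e⟩ := hpre (show e ∈ Icc (p u) (p s0) from
          ⟨he.1, by rw [hps0]; linarith [he.2, hn.1]⟩)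
        refine ⟨w1, hw1.1, lt_of_le_of_ne hw1.2 ?_, by rw [hMr, hw1e]; exact heE⟩
        rintro rfl
        rw [hps0] at hw1e
        rw [← hw1e] at heE
        exact hdE n heE
      have hRt : ∃ w2, t0 < w2 ∧ w2 ≤ v ∧ w2 ∈ M := by
        obtain ⟨e, he, heE⟩ := E_dense (show (p v + d n) / 2 < p v by linarith [hn.2])
        have hpre := intermediate_value_Icc h4.le hpc.continuousOn
        obtain ⟨w2, hw2, hw2e⟩ := hpre (show e ∈ Icc (p t0) (p v) from
          ⟨by rw [hpt0]; linarith [he.1, hn.2], he.2⟩)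
        refine ⟨w2, lt_of_le_of_ne hw2.1 ?_, hw2.2, by rw [hMr, hw2e]; exact heE⟩
        rintro rfl
        rw [hpt0] at hw2e
        rw [← hw2e] at heE
        exact hdE n heE
      obtain ⟨w1, a1, a2, a3⟩ := hL
      obtain ⟨w2, b1, b2, b3⟩ := hRt
      obtain ⟨s, t, l1, l2, l3, l4, l5⟩ := hMbal.exists_ob (w := s0) (w1 := w1) (w2 := w2) a2
        (by linarith) (by tauto) (by tauto)
      have htt : t0 ≤ t := by
        by_contra hh
        push Not at hh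
        obtain ⟨e, he, heM⟩ := (l5.ra (t0 - t) (by linarith)).1
        rw [hMr, hpl e ⟨by linarith [he.1], by linarith [he.2]⟩] at heM
        exact hdE n heM
      exact ⟨s, t, by linarith, by linarith, by linarith, l5.congr (by simp [hs0M])⟩
    have hne : x ≠ y := by rintro rfl; exact hyM hxM
    rcases lt_or_gt_of_ne hne with h | h
    · exact key x y hx.1 hy.2 h (by tauto)
    · exact key y x hy.1 hx.2 h (by tauto)

theorem final : ∃ M A : Set ℝ, (InD M ∧ IsMinl M) ∧ (InD A ∧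
    (∀ M' : Set ℝ, IsMinl M' → ¬ (Reduces A M' ∧ Reduces M' A)) ∧
    ¬ ∃ s : ℕ → Set ℝ, s 0 = A ∧ (∀ n, InD (s n)) ∧
      ∀ n, Reduces (s (n + 1)) (s n) ∧ ¬ Reduces (s n) (s (n + 1))) := by
  obtain ⟨M, hMD, hME, hEM, hMC⟩ := exists_min
  obtain ⟨f, hf, hr⟩ := reduces_iff.1 hME
  have hMR : Rich M := E_rich.of_red hf hr E_bal
  refine ⟨M, E, ⟨hMD, hMD.2.1, hMD.2.2, ?_⟩, E_InD, ?_, ?_⟩
  · intro B hB1 hB2 hBM
    exact below_all hMD hMR hMC ⟨hBM.trans hMD.1, hB1, hB2⟩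
  · rintro M' ⟨_, _, h3⟩ ⟨h4, h5⟩
    have h6 : Reduces M M' := hME.trans h4
    exact hEM (h4.trans (h3 M hMD.2.1 hMD.2.2 h6))
  · rintro ⟨s, hs0, hsD, hs⟩
    have h1 : Reduces (s 1) E := by rw [← hs0]; exact (hs 0).1
    have h2 : ¬ Reduces E (s 1) := by rw [← hs0]; exact (hs 0).2
    rcases dichotomy (hsD 1) h1 with h3 | h3
    · exact h2 h3
    · exact (hs 1).2 (h3 _ (hsD 2))

end Helper98.Wadge
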