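import Pool.Agent.Helper98_Wadge.Glue

namespace Helper98.Wadge

open Set Filter Topology

theorem gap_pair {s t a b : ℝ} (hst : s < t) (h : Gap ({s, t} : Set ℝ) a b) : a = s ∧ b = t := by
  obtain ⟨h1, h2, h3, _⟩ := h
  simp only [mem_insert_iff, mem_singleton_iff] at h2 h3
  rcases h2 with h2 | h2 <;> rcases h3 with h3 | h3 <;> subst h2 h3
  · exact absurd h1 (lt_irrefl _)
  · exact ⟨rfl, rfl⟩
  · linarith
  · exact absurd h1 (lt_irrefl _)

/-- The trivial solution with only the two end points settled. -/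
theorem IsSol.pair {A B : Set ℝ} {P : Bx} {R : Set ℝ} {s t : ℝ} {φ : ℝ → ℝ} (hst : s < t)
    (hc : ContinuousOn φ (Icc s t)) (h1 : s ∈ A ↔ φ s ∈ B) (h2 : t ∈ A ↔ φ t ∈ B)
    (hR : ∀ x ∈ Icc s t, φ x ∈ R) (hP : P s t (φ s) (φ t))
    (hh : ∀ x ∈ Icc s t, φ x ∈ uIcc (φ s) (φ t)) :
    IsSol A B P R s t (φ s) (φ t) {s, t} φ := by
  refine ⟨hst, (Set.toFinite _).isClosed, ?_, by simp, by simp, hc, rfl, rfl, ?_, hR, ?_, ?_⟩
  · rintro x (rfl | rfl)
    · exact ⟨le_rfl, hst.le⟩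
    · exact ⟨hst.le, le_rfl⟩
  · rintro x (rfl | rfl)
    · exact h1
    · exact h2
  · intro a b g
    obtain ⟨rfl, rfl⟩ := gap_pair hst g
    exact hP
  · intro a b g
    obtain ⟨rfl, rfl⟩ := gap_pair hst g
    exact hh

structure StepRel (Z : Bx) (S S' : Set ℝ) (φ φ' : ℝ → ℝ) (ε u v : ℝ) : Prop where
  sub : S ⊆ S'
  eqS : ∀ x ∈ S, φ' x = φ x
  hull : ∀ s t, Gap S s t → ∀ x ∈ Icc s t, φ' x ∈ uIcc (φ s) (φ t)
  frz : ∀ s t, Gap S s t → Z s t (φ s) (φ t) → Gap S' s t ∧ ∀ x ∈ Icc s t, φ' x = φ x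
  close : ∀ x ∈ Icc u v, |φ' x - φ x| ≤ ε

theorem abs_sub_le_of_uIcc {a b w w' : ℝ} (h : w ∈ uIcc a b) (h' : w' ∈ uIcc a b) :
    |w - w'| ≤ |a - b| := by
  rw [mem_uIcc] at h h'
  rcases abs_cases (a - b) with ⟨e, _⟩ | ⟨e, _⟩ <;> rw [e, abs_le] <;>
  rcases h with ⟨h1, h2⟩ | ⟨h1, h2⟩ <;> rcases h' with ⟨h3, h4⟩ | ⟨h3, h4⟩ <;>
  constructor <;> linarith

theorem step_exists {A B : Set ℝ} {L L' Z : Bx} {ε : ℝ} (hε : 0 ≤ ε)
    (hstep : ∀ s t p q, L s t p q → Sol A B (fun a b c d => L' a b c d ∨ Z a b c d) s t p q)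
    (hsize : ∀ s t p q, L s t p q → |p - q| ≤ ε) {u v y z : ℝ} {S : Set ℝ} {φ : ℝ → ℝ}
    (h : IsSol A B (fun a b c d => L a b c d ∨ Z a b c d) (uIcc y z) u v y z S φ) :
    ∃ S' φ', IsSol A B (fun a b c d => L' a b c d ∨ Z a b c d) (uIcc y z) u v y z S' φ' ∧
      StepRel Z S S' φ φ' ε u v := by
  classical
  have hex : ∀ s t, ∃ T : Set ℝ, ∃ ψ : ℝ → ℝ, Gap S s t →
      (IsSol A B (fun a b c d => L' a b c d ∨ Z a b c d)
        {w | w ∈ uIcc y z ∧ |w - φ s| ≤ |φ t - φ s| + (t - s)} s t (φ s) (φ t) T ψ ∧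
      (∀ x ∈ Icc s t, ψ x ∈ uIcc (φ s) (φ t)) ∧
      (Z s t (φ s) (φ t) → T = {s, t} ∧ ψ = φ) ∧
      (¬ Z s t (φ s) (φ t) → |φ s - φ t| ≤ ε)) := by
    intro s t
    by_cases g : Gap S s t
    · by_cases hz : Z s t (φ s) (φ t)
      · refine ⟨{s, t}, φ, fun _ => ⟨?_, h.hull s t g, fun _ => ⟨rfl, rfl⟩, fun h => absurd hz h⟩⟩
        apply IsSol.pair g.1
        · exact h.cont.mono (Icc_subset_Icc (h.sub g.2.1).1 (h.sub g.2.2.1).2)
        · exact h.col s g.2.1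
        · exact h.col t g.2.2.1
        · intro x hx
          refine ⟨h.rng x ⟨by linarith [(h.sub g.2.1).1, hx.1], by linarith [(h.sub g.2.2.1).2, hx.2]⟩, ?_⟩
          linarith [abs_sub_le_of_mem_uIcc (h.hull s t g x hx), g.1]
        · exact Or.inr hz
        · exact h.hull s t g
      · have hL : L s t (φ s) (φ t) := (h.gap s t g).resolve_right hz
        obtain ⟨T, ψ, hT⟩ := hstep _ _ _ _ hL
        refine ⟨T, ψ, fun _ => ⟨?_, hT.rng, fun h => absurd h hz, fun _ => hsize _ _ _ _ hL⟩⟩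
        refine ⟨hT.lt, hT.closed, hT.sub, hT.mem_u, hT.mem_v, hT.cont, hT.fu, hT.fv, hT.col,
          ?_, hT.gap, hT.hull⟩
        intro x hx
        have := hT.rng x hx
        refine ⟨?_, ?_⟩
        · exact uIcc_subset_uIcc (h.rng s (h.sub g.2.1)) (h.rng t (h.sub g.2.2.1)) this
        · linarith [abs_sub_le_of_mem_uIcc this, g.1]
    · exact ⟨∅, fun _ => 0, fun g' => absurd g' g⟩
  choose Sg Ps hh using hex
  have hsol := IsSol.glue h.lt h.closed h.sub h.mem_u h.mem_v h.cont h.fu h.fv h.col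
    (fun x hx => h.rng x (h.sub hx)) (Sg := Sg) (Ps := Ps) (fun s t g => (hh s t g).1)
  have hF : ∀ s t, Gap S s t → ∀ x ∈ Icc s t, glF S φ Ps x = Ps s t x := fun s t g x hx =>
    glF_gap g (hh s t g).1.fu (hh s t g).1.fv hx
  refine ⟨_, _, hsol, ?_, fun x hx => glF_mem hx, ?_, ?_, ?_⟩
  · exact fun x hx => ⟨h.sub hx, Or.inl hx⟩
  · intro s t g x hx
    rw [hF s t g x hx]
    exact (hh s t g).2.1 x hx
  · intro s t g hz
    obtain ⟨e1, e2⟩ := (hh s t g).2.2.1 hz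
    refine ⟨⟨g.1, ⟨h.sub g.2.1, Or.inl g.2.1⟩, ⟨h.sub g.2.2.1, Or.inl g.2.2.1⟩, ?_⟩, ?_⟩
    · intro x hx hx'
      have := (glS_gap g (hh s t g).1.mem_u (hh s t g).1.mem_v (h.sub g.2.1).1 (h.sub g.2.2.1).2
        ⟨hx.1.le, hx.2.le⟩).1 hx'
      rw [e1] at this
      rcases this with e | e
      · exact absurd hx.1 (by rw [e]; exact lt_irrefl _)
      · rw [mem_singleton_iff] at e; exact absurd hx.2 (by rw [e]; exact lt_irrefl _)
    · intro x hx
      rw [hF s t g x hx, e2]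
  · intro x hx
    by_cases hxS : x ∈ S
    · rw [glF_mem hxS]; simpa using hε
    · obtain ⟨s, t, g1, g2, g3, g4⟩ := exists_gap h.closed h.mem_u h.mem_v hx hxS
      have hxI : x ∈ Icc s t := ⟨g2.1.le, g2.2.le⟩
      rw [hF s t g1 x hxI]
      by_cases hz : Z s t (φ s) (φ t)
      · obtain ⟨e1, e2⟩ := (hh s t g1).2.2.1 hz
        rw [e2]; simpa using hε
      · exact (abs_sub_le_of_uIcc ((hh s t g1).2.1 x hxI) (h.hull s t g1 x hxI)).trans
          ((hh s t g1).2.2.2 hz)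

/-- The fusion lemma. -/
theorem fusion {A B : Set ℝ} {L : ℕ → Bx} {Z : Bx} {C : ℝ} (hC : 0 ≤ C)
    (hstep : ∀ n s t p q, L n s t p q →
      Sol A B (fun a b c d => L (n + 1) a b c d ∨ Z a b c d) s t p q)
    (hsize : ∀ n s t p q, L n s t p q → |p - q| ≤ C * (1 / 2) ^ n)
    (hres : ∀ x w, (∀ n, ∃ s t p q, L n s t p q ∧ x ∈ Ioo s t ∧ w ∈ uIcc p q) →
      (x ∈ A ↔ w ∈ B))
    {u v y z : ℝ} (h0 : L 0 u v y z) : Sol A B Z u v y z := by
  classical
  obtain ⟨S0, φ0, hS0⟩ := hstep 0 u v y z h0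
  let St : ℕ → Type := fun n => {p : Set ℝ × (ℝ → ℝ) //
    IsSol A B (fun a b c d => L (n + 1) a b c d ∨ Z a b c d) (uIcc y z) u v y z p.1 p.2}
  have hnext : ∀ n (p : St n), ∃ p' : St (n + 1),
      StepRel Z p.1.1 p'.1.1 p.1.2 p'.1.2 (C * (1 / 2) ^ (n + 1)) u v := by
    intro n p
    obtain ⟨S', φ', h1, h2⟩ := step_exists (ε := C * (1 / 2) ^ (n + 1)) (by positivity)
      (hstep (n + 1)) (hsize (n + 1)) p.2
    exact ⟨⟨(S', φ'), h1⟩, h2⟩
  choose nxt hnxt using hnext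
  let q : ∀ n, St n := fun n => Nat.rec ⟨(S0, φ0), hS0⟩ (fun n p => nxt n p) n
  have hq : ∀ n, StepRel Z (q n).1.1 (q (n + 1)).1.1 (q n).1.2 (q (n + 1)).1.2
      (C * (1 / 2) ^ (n + 1)) u v := fun n => hnxt n (q n)
  set S : ℕ → Set ℝ := fun n => (q n).1.1 with hSdef
  set φ : ℕ → ℝ → ℝ := fun n => (q n).1.2 with hφdef
  have hsol : ∀ n, IsSol A B (fun a b c d => L (n + 1) a b c d ∨ Z a b c d) (uIcc y z) u v y z
      (S n) (φ n) := fun n => (q n).2
  have hrel : ∀ n, StepRel Z (S n) (S (n + 1)) (φ n) (φ (n + 1)) (C * (1 / 2) ^ (n + 1)) u v := hq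
  -- monotonicity facts
  have hmono : ∀ n m, n ≤ m → S n ⊆ S m := by
    intro n m hnm
    induction m, hnm using Nat.le_induction with
    | base => exact Subset.rfl
    | succ m _ ih => exact ih.trans (hrel m).sub
  have heq : ∀ n m, n ≤ m → ∀ x ∈ S n, φ m x = φ n x := by
    intro n m hnm
    induction m, hnm using Nat.le_induction with
    | base => exact fun _ _ => rfl
    | succ m hm ih =>
      intro x hx
      rw [(hrel m).eqS x (hmono n m hm hx), ih x hx]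
  have hhull : ∀ n m, n ≤ m → ∀ s t, Gap (S n) s t → ∀ x ∈ Icc s t,
      φ m x ∈ uIcc (φ n s) (φ n t) := by
    intro n m hnm
    induction m, hnm using Nat.le_induction with
    | base => exact (hsol n).hull
    | succ m hm ih =>
      intro s t g x hx
      by_cases hxS : x ∈ S m
      · rw [(hrel m).eqS x hxS]; exact ih s t g x hx
      · obtain ⟨s', t', g1, g2, g3, g4⟩ := exists_gap (hsol m).closed
          (hmono n m hm g.2.1) (hmono n m hm g.2.2.1) hx hxS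
        have h1 := (hrel m).hull s' t' g1 x ⟨g2.1.le, g2.2.le⟩
        exact uIcc_subset_uIcc (ih s t g s' ⟨g3, by linarith [g1.1]⟩)
          (ih s t g t' ⟨by linarith [g1.1], g4⟩) h1
  have hfrz : ∀ n m, n ≤ m → ∀ s t, Gap (S n) s t → Z s t (φ n s) (φ n t) →
      Gap (S m) s t ∧ ∀ x ∈ Icc s t, φ m x = φ n x := by
    intro n m hnm
    induction m, hnm using Nat.le_induction with
    | base => exact fun s t g _ => ⟨g, fun _ _ => rfl⟩
    | succ m hm ih =>
      intro s t g hz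
      obtain ⟨h1, h2⟩ := ih s t g hz
      have e1 := h2 s ⟨le_rfl, g.1.le⟩
      have e2 := h2 t ⟨g.1.le, le_rfl⟩
      obtain ⟨h3, h4⟩ := (hrel m).frz s t h1 (by rw [e1, e2]; exact hz)
      exact ⟨h3, fun x hx => by rw [h4 x hx, h2 x hx]⟩
  -- the limit
  have hdist : ∀ x ∈ Icc u v, ∀ n, dist (φ n x) (φ (n + 1) x) ≤ (C / 2) * (1 / 2) ^ n := by
    intro x hx n
    rw [dist_comm, Real.dist_eq]
    refine ((hrel n).close x hx).trans (le_of_eq ?_)
    rw [pow_succ]; ring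
  have hlim : ∀ x, ∃ l, x ∈ Icc u v → Tendsto (fun n => φ n x) atTop (𝓝 l) := by
    intro x
    by_cases hx : x ∈ Icc u v
    · have hc := cauchySeq_of_le_geometric (1 / 2) (C / 2) (by norm_num) (hdist x hx)
      obtain ⟨l, hl⟩ := cauchySeq_tendsto_of_complete hc
      exact ⟨l, fun _ => hl⟩
    · exact ⟨0, fun h => absurd h hx⟩
  choose Φ hΦ using hlim
  have hbound : ∀ x ∈ Icc u v, ∀ n, dist (φ n x) (Φ x) ≤ C * (1 / 2) ^ n := by
    intro x hx n
    have := dist_le_of_le_geometric_of_tendsto (1 / 2) (C / 2) (by norm_num) (hdist x hx) (hΦ x hx) n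
    refine this.trans (le_of_eq ?_)
    ring
  have hunif : TendstoUniformlyOn φ Φ atTop (Icc u v) := by
    rw [Metric.tendstoUniformlyOn_iff]
    intro ε hε
    have h1 : Tendsto (fun n : ℕ => C * (1 / 2 : ℝ) ^ n) atTop (𝓝 (C * 0)) :=
      (tendsto_pow_atTop_nhds_zero_of_lt_one (by norm_num) (by norm_num)).const_mul C
    rw [mul_zero] at h1
    filter_upwards [h1.eventually (gt_mem_nhds hε)] with n hn x hx
    rw [dist_comm]
    exact (hbound x hx n).trans_lt hn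
  have hcont : ContinuousOn Φ (Icc u v) :=
    hunif.continuousOn (Filter.Frequently.of_forall fun n => (hsol n).cont)
  have hΦS : ∀ n, ∀ x ∈ S n, Φ x = φ n x := by
    intro n x hx
    have h1 : Tendsto (fun m => φ m x) atTop (𝓝 (φ n x)) := by
      apply tendsto_const_nhds.congr'
      filter_upwards [eventually_ge_atTop n] with m hm
      exact (heq n m hm x hx).symm
    exact tendsto_nhds_unique (hΦ x ((hsol n).sub hx)) h1
  have hΦhull : ∀ n s t, Gap (S n) s t → ∀ x ∈ Icc s t, Φ x ∈ uIcc (φ n s) (φ n t) := by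
    intro n s t g x hx
    have hxI : x ∈ Icc u v := ⟨by linarith [((hsol n).sub g.2.1).1, hx.1],
      by linarith [((hsol n).sub g.2.2.1).2, hx.2]⟩
    apply isClosed_Icc.mem_of_tendsto (hΦ x hxI)
    filter_upwards [eventually_ge_atTop n] with m hm
    exact hhull n m hm s t g x hx
  have hΦfrz : ∀ n s t, Gap (S n) s t → Z s t (φ n s) (φ n t) → ∀ x ∈ Icc s t,
      Φ x = φ n x := by
    intro n s t g hz x hx
    have hxI : x ∈ Icc u v := ⟨by linarith [((hsol n).sub g.2.1).1, hx.1],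
      by linarith [((hsol n).sub g.2.2.1).2, hx.2]⟩
    have h1 : Tendsto (fun m => φ m x) atTop (𝓝 (φ n x)) := by
      apply tendsto_const_nhds.congr'
      filter_upwards [eventually_ge_atTop n] with m hm
      exact ((hfrz n m hm s t g hz).2 x hx).symm
    exact tendsto_nhds_unique (hΦ x hxI) h1
  -- the limit set
  set T : Set ℝ := {x | x ∈ Icc u v ∧ ∀ n s t, Gap (S n) s t → Z s t (φ n s) (φ n t) →
    x ∉ Ioo s t} with hT
  have hST : ∀ n, S n ⊆ T := by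
    intro n x hx
    refine ⟨(hsol n).sub hx, ?_⟩
    intro m s t g hz hxst
    rcases le_total n m with h | h
    · exact g.2.2.2 x hxst (hmono n m h hx)
    · exact (hfrz m n h s t g hz).1.2.2.2 x hxst hx
  have hTgap : ∀ a b, Gap T a b → ∃ n, Gap (S n) a b ∧ Z a b (φ n a) (φ n b) := by
    intro a b g
    have hm : (a + b) / 2 ∈ Ioo a b := ⟨by linarith [g.1], by linarith [g.1]⟩
    have hmT := g.2.2.2 _ hm
    have hmI : (a + b) / 2 ∈ Icc u v :=
      ⟨by linarith [hm.1, g.2.1.1.1], by linarith [hm.2, g.2.2.1.1.2]⟩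
    have : ∃ n s t, Gap (S n) s t ∧ Z s t (φ n s) (φ n t) ∧ (a + b) / 2 ∈ Ioo s t := by
      by_contra hcon
      push Not at hcon
      exact hmT ⟨hmI, hcon⟩
    obtain ⟨n, s, t, g', hz, hst⟩ := this
    have gT : Gap T s t := ⟨g'.1, hST n g'.2.1, hST n g'.2.2.1, fun x hx hxT =>
      hxT.2 n s t g' hz hx⟩
    obtain ⟨rfl, rfl⟩ := g.unique gT hm hst
    exact ⟨n, g', hz⟩
  refine ⟨T, Φ, (hsol 0).lt, ?_, fun x hx => hx.1, hST 0 (hsol 0).mem_u, hST 0 (hsol 0).mem_v,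
    hcont, ?_, ?_, ?_, ?_, ?_, ?_⟩
  · have : T = Icc u v ∩ ⋂ (n : ℕ) (s : ℝ) (t : ℝ) (_ : Gap (S n) s t)
        (_ : Z s t (φ n s) (φ n t)), (Ioo s t)ᶜ := by
      ext x
      simp only [hT, mem_ofPred_eq, mem_inter_iff, mem_iInter, mem_compl_iff]
    rw [this]
    apply isClosed_Icc.inter
    refine isClosed_iInter fun n => isClosed_iInter fun s => isClosed_iInter fun t =>
      isClosed_iInter fun _ => isClosed_iInter fun _ => isOpen_Ioo.isClosed_compl
  · rw [hΦS 0 u (hsol 0).mem_u, (hsol 0).fu]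
  · rw [hΦS 0 v (hsol 0).mem_v, (hsol 0).fv]
  · intro x hx
    by_cases hxS : ∃ n, x ∈ S n
    · obtain ⟨n, hn⟩ := hxS
      rw [hΦS n x hn]
      exact (hsol n).col x hn
    · push Not at hxS
      apply hres
      intro n
      rcases n with _ | n
      · refine ⟨u, v, y, z, h0, ⟨?_, ?_⟩, ?_⟩
        · exact lt_of_le_of_ne hx.1.1 (fun e => hxS 0 (e ▸ (hsol 0).mem_u))
        · exact lt_of_le_of_ne hx.1.2 (fun e => hxS 0 (e ▸ (hsol 0).mem_v))
        · apply isClosed_Icc.mem_of_tendsto (hΦ x hx.1)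
          exact Filter.Eventually.of_forall fun m => (hsol m).rng x hx.1
      · obtain ⟨s, t, g1, g2, g3, g4⟩ := exists_gap (hsol n).closed (hsol n).mem_u (hsol n).mem_v
          hx.1 (hxS n)
        have hz : ¬ Z s t (φ n s) (φ n t) := fun hz => hx.2 n s t g1 hz g2
        exact ⟨s, t, φ n s, φ n t, ((hsol n).gap s t g1).resolve_right hz, g2,
          hΦhull n s t g1 x ⟨g2.1.le, g2.2.le⟩⟩
  · intro x hx
    apply isClosed_Icc.mem_of_tendsto (hΦ x hx)
    exact Filter.Eventually.of_forall fun m => (hsol m).rng x hx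
  · intro a b g
    obtain ⟨n, g', hz⟩ := hTgap a b g
    rw [hΦS n a g'.2.1, hΦS n b g'.2.2.1]
    exact hz
  · intro a b g x hx
    obtain ⟨n, g', hz⟩ := hTgap a b g
    rw [hΦS n a g'.2.1, hΦS n b g'.2.2.1]
    exact hΦhull n a b g' x hx

end Helper98.Wadge
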