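import Pool.Agent.Helper98_Wadge.FStep

namespace Helper98.Wadge

open Set Filter Topology

theorem btw1 {y z p q m : ℝ} (h1 : p ∈ uIcc y z) (h2 : q ∈ uIcc p z) (h3 : m ∈ uIcc p q) :
    p ∈ uIcc y m := by
  rw [mem_uIcc] at *
  rcases h1 with ⟨a1, a2⟩ | ⟨a1, a2⟩ <;> rcases h2 with ⟨a3, a4⟩ | ⟨a3, a4⟩ <;>
    rcases h3 with ⟨a5, a6⟩ | ⟨a5, a6⟩ <;>
    first
    | (left; constructor <;> linarith)
    | (right; constructor <;> linarith)

theorem btw2 {y z p q m : ℝ} (h1 : p ∈ uIcc y z) (h2 : q ∈ uIcc p z) (h3 : m ∈ uIcc p q) :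
    q ∈ uIcc m z := by
  rw [mem_uIcc] at *
  rcases h1 with ⟨a1, a2⟩ | ⟨a1, a2⟩ <;> rcases h2 with ⟨a3, a4⟩ | ⟨a3, a4⟩ <;>
    rcases h3 with ⟨a5, a6⟩ | ⟨a5, a6⟩ <;>
    first
    | (left; constructor <;> linarith)
    | (right; constructor <;> linarith)

theorem btw_split {a c x : ℝ} (hx : x ∈ uIcc a c) (b : ℝ) : x ∈ uIcc a b ∨ x ∈ uIcc b c := by
  simp only [mem_uIcc] at *
  rcases le_total a b with h1 | h1 <;> rcases le_total b c with h2 | h2 <;>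
  rcases le_total a x with h3 | h3 <;> rcases le_total x c with h4 | h4 <;>
  rcases le_total x b with h5 | h5 <;>
  rcases hx with ⟨a1, a2⟩ | ⟨a1, a2⟩ <;>
    first
    | (left; left; constructor <;> linarith)
    | (left; right; constructor <;> linarith)
    | (right; left; constructor <;> linarith)
    | (right; right; constructor <;> linarith)

/-- Nearest point of a closed set towards `w`. -/
theorem nearest {K : Set ℝ} (hK : IsClosed K) {y w : ℝ} (hy : y ∈ K) :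
    ∃ g ∈ K, g ∈ uIcc y w ∧ ∀ x ∈ uIcc g w, x ∈ K → x = g := by
  rcases le_total y w with h | h
  · have hc : IsClosed (K ∩ Icc y w) := hK.inter isClosed_Icc
    have hb : BddAbove (K ∩ Icc y w) := ⟨w, fun x hx => hx.2.2⟩
    have hm := hc.csSup_mem ⟨y, hy, le_rfl, h⟩ hb
    refine ⟨_, hm.1, by rw [uIcc_of_le h]; exact hm.2, ?_⟩
    intro x hx hxK
    rw [uIcc_of_le hm.2.2] at hx
    apply le_antisymm _ hx.1
    exact le_csSup hb ⟨hxK, by linarith [hx.1, hm.2.1], hx.2⟩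
  · have hc : IsClosed (K ∩ Icc w y) := hK.inter isClosed_Icc
    have hb : BddBelow (K ∩ Icc w y) := ⟨w, fun x hx => hx.2.1⟩
    have hm := hc.csInf_mem ⟨y, hy, h, le_rfl⟩ hb
    refine ⟨_, hm.1, by rw [uIcc_of_ge h]; exact hm.2, ?_⟩
    intro x hx hxK
    rw [uIcc_of_ge hm.2.1] at hx
    apply le_antisymm hx.2
    exact csInf_le hb ⟨hxK, hx.1, by linarith [hx.2, hm.2.2]⟩

/-- Live boxes. -/
structure Live (A B : Set ℝ) (G : ℕ → Set ℝ) (c0 d0 : ℝ) (𝓕 : Set (ℝ × ℝ)) (n : ℕ)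
    (u v y z : ℝ) : Prop where
  adm : Adm A B c0 d0 u v y z
  re : ∃ o ∈ 𝓕, o.2 = u
  le : ∃ o ∈ 𝓕, o.1 = v
  gy : y ∈ G n
  gz : z ∈ G n

def Froz (A B : Set ℝ) (G : ℕ → Set ℝ) (c0 d0 : ℝ) (n : ℕ) : Bx := fun a b c d =>
  Adm A B c0 d0 a b c d ∧ MissG G n a b c d

section ctx

variable {A B : Set ℝ} {F G : ℕ → Set ℝ} {c0 d0 : ℝ} {𝓕 : Set (ℝ × ℝ)} {a0 b0 : ℝ}

/-- All of the object through a point of `G n` lies in `G n`. -/
theorem Ctx.nb_G (hc : Ctx A B F G c0 d0) {n : ℕ} {y z p q m : ℝ} (hn : Nb B (m ∈ B) y z p q)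
    (hm : m ∈ uIcc p q) (hmG : m ∈ G n) : ∀ x ∈ uIcc p q, x ∈ G n := by
  intro x hx
  apply hc.Gs n m hmG
  intro w hw
  exact (hn.col w (uIcc_subset_uIcc hm hx hw)).2 (hc.GB n hmG)

theorem Ctx.gapR (hc : Ctx A B F G c0 d0) (hF : Fam A a0 b0 𝓕) {n : ℕ} {a v g z w r : ℝ}
    (h : Adm A B c0 d0 a v g z) (hle : ∃ o ∈ 𝓕, o.1 = v) (hzG : z ∈ G n) (hwG : w ∉ G n)
    (hgw : ∀ x ∈ uIcc g w, x ∈ G n → x = g) (hw : w ∈ uIcc g z) (har : a < r) (hrv : r < v) :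
    Sol A B (fun a b c d => (Live A B G c0 d0 𝓕 n a b c d ∧ (b < r ∨ r < a) ∧
      (c ∈ uIcc w z ∧ d ∈ uIcc w z)) ∨ Froz A B G c0 d0 n a b c d) a v g z := by
  obtain ⟨g', hg', hg'1, hg'2⟩ := nearest (hc.Gc n) (y := z) (w := w) hzG
  have hMiss : ∀ x ∈ uIcc g g', x ≠ g → x ≠ g' → x ∉ G n := by
    intro x hx h1 h2 hxG
    rcases btw_split hx w with h3 | h3
    · exact h1 (hgw x h3 hxG)
    · exact h2 (hg'2 x (by rwa [uIcc_comm]) hxG)
  by_cases e : g' = z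
  · subst e
    exact h.triv (Or.inr ⟨h, hMiss⟩)
  · have hg'wz : g' ∈ uIcc w z := by rwa [uIcc_comm]
    have hg'gz : g' ∈ uIcc g z := uIcc_subset_uIcc hw right_mem_uIcc hg'wz
    have hg'g : g' ≠ g := by
      rintro rfl
      have h1 : g' = w := by
        rw [mem_uIcc] at hw hg'wz
        rcases hw with ⟨a1, a2⟩ | ⟨a1, a2⟩ <;> rcases hg'wz with ⟨a3, a4⟩ | ⟨a3, a4⟩ <;> linarith
      exact hwG (h1 ▸ hg')
    obtain ⟨p, q, hn, hpq⟩ := hc.balB.nb_at h.t1 h.t2 hg'gz hg'g e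
    have hall := hc.nb_G hn hpq hg'
    have hpg' : p = g' := by
      by_contra hne
      exact hMiss p (btw1 hn.mp hn.mq hpq) hn.ne1 hne (hall p left_mem_uIcc)
    subst hpg'
    obtain ⟨ov, hov, hov'⟩ := hle
    obtain ⟨o, ho, ho1, ho2⟩ := hF.left ov hov (v - r) (by linarith)
    rw [hov'] at ho1 ho2
    have hob := (hF.ob o ho).congr (χ' := (p ∈ B)) (by simp [hc.GB n hg'])
    have hlt := hF.lt o ho
    refine h.cut hob hn (by linarith) ho2 (fun e => absurd e hlt.ne)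
      (Or.inr ⟨h.left hob hn (by linarith), hMiss⟩)
      (Or.inl ⟨⟨h.right hob hn ho2, ⟨o, ho, rfl⟩, ⟨ov, hov, hov'⟩, hall q right_mem_uIcc, hzG⟩,
        Or.inr (by linarith), ?_, right_mem_uIcc⟩)
    exact uIcc_subset_uIcc hg'wz right_mem_uIcc hn.mq

theorem Ctx.cutGap (hc : Ctx A B F G c0 d0) (hF : Fam A a0 b0 𝓕) {n : ℕ} {u v y z w r : ℝ}
    (h : Live A B G c0 d0 𝓕 n u v y z) (hwG : w ∉ G n) (hw : w ∈ uIcc y z)
    (har : u < r) (hrv : r < v) :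
    Sol A B (fun a b c d => (Live A B G c0 d0 𝓕 n a b c d ∧ (b < r ∨ r < a) ∧
      ((c ∈ uIcc y w ∧ d ∈ uIcc y w) ∨ (c ∈ uIcc w z ∧ d ∈ uIcc w z))) ∨
      Froz A B G c0 d0 n a b c d) u v y z := by
  obtain ⟨g, hg, hg1, hg2⟩ := nearest (hc.Gc n) (y := y) (w := w) h.gy
  have hgyz : g ∈ uIcc y z := uIcc_subset_uIcc left_mem_uIcc hw hg1
  have hwgz : w ∈ uIcc g z := by
    rw [mem_uIcc] at *
    rcases hg1 with ⟨a1, a2⟩ | ⟨a1, a2⟩ <;> rcases hw with ⟨a3, a4⟩ | ⟨a3, a4⟩ <;>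
    first
    | (left; constructor <;> linarith)
    | (right; constructor <;> linarith)
  by_cases e : g = y
  · subst e
    refine (hc.gapR hF h.adm h.le h.gz hwG hg2 hw har hrv).mono ?_
    rintro a b c d (⟨h1, h2, h3⟩ | h1)
    · exact Or.inl ⟨h1, h2, Or.inr h3⟩
    · exact Or.inr h1
  · have hgz : g ≠ z := by
      rintro rfl
      have h1 : g = w := by
        rw [mem_uIcc] at hwgz
        rcases hwgz with ⟨a1, a2⟩ | ⟨a1, a2⟩ <;> linarith
      exact hwG (h1 ▸ hg)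
    obtain ⟨p, q, hn, hpq⟩ := hc.balB.nb_at h.adm.t1 h.adm.t2 hgyz e hgz
    have hall := hc.nb_G hn hpq hg
    have hqg : q = g := by
      have h1 : q ∈ uIcc g z := btw2 hn.mp hn.mq hpq
      have h2 : ∀ x ∈ uIcc g q, x ∈ G n := fun x hx =>
        hall x (uIcc_subset_uIcc hpq right_mem_uIcc hx)
      by_contra hne
      have h3 : q ∈ uIcc g w ∨ w ∈ uIcc g q := by
        rw [mem_uIcc] at h1 hwgz
        simp only [mem_uIcc]
        rcases le_total q w with h5 | h5 <;>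
        rcases h1 with ⟨a1, a2⟩ | ⟨a1, a2⟩ <;> rcases hwgz with ⟨a3, a4⟩ | ⟨a3, a4⟩ <;>
        first
        | (left; left; constructor <;> linarith)
        | (left; right; constructor <;> linarith)
        | (right; left; constructor <;> linarith)
        | (right; right; constructor <;> linarith)
      rcases h3 with h3 | h3
      · exact hne (hg2 q h3 (hall q right_mem_uIcc))
      · exact hwG (h2 w h3)
    subst hqg
    obtain ⟨ou, hou, hou'⟩ := h.re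
    obtain ⟨o, ho, ho1, ho2⟩ := hF.right ou hou (r - u) (by linarith)
    rw [hou'] at ho1 ho2
    have hob := (hF.ob o ho).congr (χ' := (q ∈ B)) (by simp [hc.GB n hg])
    have hlt := hF.lt o ho
    have h1 : Sol A B (fun a b c d => (Live A B G c0 d0 𝓕 n a b c d ∧ (b < r ∨ r < a) ∧
      ((c ∈ uIcc y w ∧ d ∈ uIcc y w) ∨ (c ∈ uIcc w z ∧ d ∈ uIcc w z))) ∨
      (Adm A B c0 d0 a b c d ∧ a < r ∧ b = v ∧ c = q ∧ d = z)) u v y z := by
      refine h.adm.cut hob hn ho1 (by linarith) (fun e => absurd e hlt.ne) (Or.inl ?_) (Or.inr ?_)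
      · refine ⟨⟨h.adm.left hob hn ho1, ⟨ou, hou, hou'⟩, ⟨o, ho, rfl⟩, h.gy,
          hall p left_mem_uIcc⟩, Or.inl (by linarith), Or.inl ⟨left_mem_uIcc, ?_⟩⟩
        exact uIcc_subset_uIcc left_mem_uIcc hg1 (btw1 hn.mp hn.mq hpq)
      · exact ⟨h.adm.right hob hn (by linarith), by linarith, rfl, rfl, rfl⟩
    refine h1.comp ?_
    rintro a b c d (h2 | ⟨h2, h3, rfl, rfl, rfl⟩)
    · exact h2.1.adm.triv (Or.inl h2)
    · refine (hc.gapR hF h2 h.le h.gz hwG hg2 hwgz h3 hrv).mono ?_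
      rintro a b c d (⟨h1, h2, h3⟩ | h1)
      · exact Or.inl ⟨h1, h2, Or.inr h3⟩
      · exact Or.inr h1

theorem Ctx.cutObj (hc : Ctx A B F G c0 d0) (hF : Fam A a0 b0 𝓕) {n : ℕ} {u v y z m : ℝ}
    (h : Live A B G c0 d0 𝓕 n u v y z) (hmG : m ∈ G n) (hm : m ∈ uIcc y z) (hmy : m ≠ y)
    (hmz : m ≠ z) :
    Sol A B (fun a b c d => Live A B G c0 d0 𝓕 n a b c d ∧
      ((c ∈ uIcc y m ∧ d ∈ uIcc y m) ∨ (c ∈ uIcc m z ∧ d ∈ uIcc m z))) u v y z := by
  obtain ⟨p, q, hn, hpq⟩ := hc.balB.nb_at h.adm.t1 h.adm.t2 hm hmy hmz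
  have hall := hc.nb_G hn hpq hmG
  obtain ⟨ou, hou, hou'⟩ := h.re
  obtain ⟨o, ho, ho1, ho2⟩ := hF.right ou hou (v - u) (by linarith [h.adm.lt])
  rw [hou'] at ho1 ho2
  have hob := (hF.ob o ho).congr (χ' := (m ∈ B)) (by simp [hc.GB n hmG])
  have hlt := hF.lt o ho
  refine h.adm.cut hob hn ho1 (by linarith) (fun e => absurd e hlt.ne)
    ⟨⟨h.adm.left hob hn ho1, ⟨ou, hou, hou'⟩, ⟨o, ho, rfl⟩, h.gy, hall p left_mem_uIcc⟩,
      Or.inl ⟨left_mem_uIcc, btw1 hn.mp hn.mq hpq⟩⟩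
    ⟨⟨h.adm.right hob hn (by linarith), ⟨o, ho, rfl⟩, h.le, hall q right_mem_uIcc, h.gz⟩,
      Or.inr ⟨btw2 hn.mp hn.mq hpq, right_mem_uIcc⟩⟩

theorem half_range {y z c d : ℝ} (h : (c ∈ uIcc y ((y + z) / 2) ∧ d ∈ uIcc y ((y + z) / 2)) ∨
    (c ∈ uIcc ((y + z) / 2) z ∧ d ∈ uIcc ((y + z) / 2) z)) : |c - d| ≤ |y - z| / 2 := by
  rcases h with ⟨h1, h2⟩ | ⟨h1, h2⟩
  · refine (abs_sub_le_of_uIcc h1 h2).trans (le_of_eq ?_)
    rw [show y - (y + z) / 2 = (y - z) / 2 by ring, abs_div, abs_two]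
  · refine (abs_sub_le_of_uIcc h1 h2).trans (le_of_eq ?_)
    rw [show (y + z) / 2 - z = (y - z) / 2 by ring, abs_div, abs_two]

theorem mid_mem (y z : ℝ) : (y + z) / 2 ∈ uIcc y z := by
  rw [mem_uIcc]
  rcases le_total y z with h | h
  · left; constructor <;> linarith
  · right; constructor <;> linarith

theorem Ctx.bisect (hc : Ctx A B F G c0 d0) (hF : Fam A a0 b0 𝓕) {n : ℕ} {u v y z : ℝ}
    (h : Live A B G c0 d0 𝓕 n u v y z) :
    Sol A B (fun a b c d => (Live A B G c0 d0 𝓕 n a b c d ∧ |c - d| ≤ |y - z| / 2) ∨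
      Froz A B G c0 d0 n a b c d) u v y z := by
  have hyz := h.adm.t1.ne
  by_cases hm : (y + z) / 2 ∈ G n
  · refine (hc.cutObj hF h hm (mid_mem y z) (fun e => hyz (by linarith))
      (fun e => hyz (by linarith))).mono ?_
    rintro a b c d ⟨h1, h2⟩
    exact Or.inl ⟨h1, half_range h2⟩
  · have hlt := h.adm.lt
    refine (hc.cutGap hF h hm (mid_mem y z) (r := (u + v) / 2) (by linarith) (by linarith)).mono ?_
    rintro a b c d (⟨h1, _, h2⟩ | h1)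
    · exact Or.inl ⟨h1, half_range h2⟩
    · exact Or.inr h1

theorem Ctx.live_solve (hc : Ctx A B F G c0 d0) (hF : Fam A a0 b0 𝓕) {n : ℕ} {u v y z : ℝ}
    (h : Live A B G c0 d0 𝓕 n u v y z) : Sol A B (Froz A B G c0 d0 n) u v y z := by
  obtain ⟨rr, hrr⟩ := TopologicalSpace.exists_dense_seq ℝ
  set K : Set ℝ := closure (⋃ o ∈ 𝓕, Icc o.1 o.2) with hK
  have hoK : ∀ o ∈ 𝓕, ∀ x ∈ Icc o.1 o.2, x ∈ K := by
    intro o ho x hx
    apply subset_closure
    exact mem_iUnion₂.2 ⟨o, ho, hx⟩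
  have hCpos : (0 : ℝ) ≤ |y - z| := abs_nonneg _
  have hered1 : ∀ k, Hered (fun s t _ _ => ∀ j < k, rr j ∈ Ioo s t → rr j ∈ K) := by
    intro k u v y z s t p q h hs ht _ _ j hj hx
    exact h j hj ⟨lt_of_le_of_lt hs hx.1, lt_of_lt_of_le hx.2 ht⟩
  have hered2 : ∀ C : ℝ, Hered (fun _ _ p q => |p - q| ≤ C) := by
    intro C u v y z s t p q h _ _ hp hq
    exact (abs_sub_le_of_uIcc hp hq).trans h
  refine fusion (L := fun k s t p q => Live A B G c0 d0 𝓕 n s t p q ∧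
    |p - q| ≤ |y - z| * (1 / 2) ^ k ∧ ∀ j < k, rr j ∈ Ioo s t → rr j ∈ K) hCpos ?_ ?_ ?_ ?_
  · rintro k s t p q ⟨h1, h2, h3⟩
    -- part 1
    have part1 : Sol A B (fun a b c d => (Live A B G c0 d0 𝓕 n a b c d ∧
        (rr k ∈ Ioo a b → rr k ∈ K)) ∨ Froz A B G c0 d0 n a b c d) s t p q := by
      by_cases hcase : rr k ∈ Ioo s t ∧ rr k ∉ K
      · obtain ⟨hk1, hk2⟩ := hcase
        obtain ⟨w, w', hn, _, _⟩ := hc.balB.nb_near h1.adm.t1 one_pos False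
        have hwB : w ∉ B := fun hh => (hn.col w left_mem_uIcc).1 hh
        refine (hc.cutGap hF h1 (w := w) (fun hh => hwB (hc.GB n hh)) hn.mp hk1.1 hk1.2).mono ?_
        rintro a b c d (⟨h4, h5, _⟩ | h4)
        · refine Or.inl ⟨h4, fun hh => ?_⟩
          rcases h5 with h5 | h5
          · linarith [hh.2]
          · linarith [hh.1]
        · exact Or.inr h4
      · refine h1.adm.triv (Or.inl ⟨h1, fun hh => ?_⟩)
        by_contra hcon
        exact hcase ⟨hh, hcon⟩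
    have part1' := (part1.and_hered (hered1 k) h3).and_hered (hered2 _) h2
    refine part1'.comp ?_
    rintro a b c d ⟨⟨h4 | h4, h5⟩, h6⟩
    · have h7 : ∀ j < k + 1, rr j ∈ Ioo a b → rr j ∈ K := by
        intro j hj hx
        rcases Nat.lt_succ_iff_lt_or_eq.1 hj with h8 | h8
        · exact h5 j h8 hx
        · subst h8; exact h4.2 hx
      refine ((hc.bisect hF h4.1).and_hered (hered1 (k + 1)) h7).mono ?_
      rintro a' b' c' d' ⟨⟨h8, h9⟩ | h8, h10⟩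
      · refine Or.inl ⟨h8, ?_, h10⟩
        rw [pow_succ]
        linarith
      · exact Or.inr h8
    · exact h4.1.triv (Or.inr h4)
  · rintro k s t p q ⟨_, h2, _⟩
    exact h2
  · intro x w hx
    have hxK : x ∈ K := by
      by_contra hcon
      have hopen : Kᶜ ∈ nhds x := isClosed_closure.isOpen_compl.mem_nhds hcon
      obtain ⟨ε, hε, hball⟩ := Metric.mem_nhds_iff.1 hopen
      obtain ⟨j, hj⟩ := hrr.exists_mem_open Metric.isOpen_ball ⟨x, Metric.mem_ball_self hε⟩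
      obtain ⟨s, t, p, q, ⟨h1, h2, h3⟩, h4, _⟩ := hx (j + 1)
      obtain ⟨o, ho, hoe⟩ := h1.re
      obtain ⟨o', ho', hoe'⟩ := h1.le
      have hs : s ∈ K := hoK o ho s ⟨by rw [← hoe]; exact (hF.lt o ho).le, hoe.ge⟩
      have ht : t ∈ K := hoK o' ho' t ⟨hoe'.le, by rw [← hoe']; exact (hF.lt o' ho').le⟩
      have hs' : s ≤ x - ε := by
        by_contra hh
        push Not at hh
        exact hball (show s ∈ Metric.ball x ε by
          rw [Metric.mem_ball, Real.dist_eq, abs_lt]; constructor <;> linarith [h4.1]) hs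
      have ht' : x + ε ≤ t := by
        by_contra hh
        push Not at hh
        exact hball (show t ∈ Metric.ball x ε by
          rw [Metric.mem_ball, Real.dist_eq, abs_lt]; constructor <;> linarith [h4.2]) ht
      rw [Metric.mem_ball, Real.dist_eq, abs_lt] at hj
      have hjK := h3 j (Nat.lt_succ_self j) ⟨by linarith [hj.1], by linarith [hj.2]⟩
      exact hball (show rr j ∈ Metric.ball x ε by
        rw [Metric.mem_ball, Real.dist_eq, abs_lt]; exact hj) hjK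
    have hwG : w ∈ G n := by
      rw [← (hc.Gc n).closure_eq, Metric.mem_closure_iff]
      intro ε hε
      have hlim : Tendsto (fun k : ℕ => |y - z| * (1 / 2 : ℝ) ^ k) atTop (𝓝 (|y - z| * 0)) :=
        (tendsto_pow_atTop_nhds_zero_of_lt_one (by norm_num) (by norm_num)).const_mul _
      rw [mul_zero] at hlim
      obtain ⟨k, hk⟩ := (hlim.eventually (gt_mem_nhds hε)).exists
      obtain ⟨s, t, p, q, ⟨h1, h2, h3⟩, h4, h5⟩ := hx k
      refine ⟨p, h1.gy, ?_⟩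
      rw [Real.dist_eq]
      exact ((abs_sub_le_of_uIcc h5 left_mem_uIcc).trans h2).trans_lt hk
    exact ⟨fun _ => hc.GB n hwG, fun _ => hF.clos hxK⟩
  · exact ⟨h, by simp, fun j hj => absurd hj (Nat.not_lt_zero j)⟩

theorem Ctx.tailR (hc : Ctx A B F G c0 d0) (hF : Fam A a0 b0 𝓕) {n : ℕ} {u v y z : ℝ}
    (h : Adm A B c0 d0 u v y z) (hre : ∃ o ∈ 𝓕, o.2 = u) (hyG : y ∈ G n) (hz : z ∉ B) :
    Sol A B (Froz A B G c0 d0 n) u v y z := by
  by_cases hM : MissG G n u v y z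
  · exact h.triv ⟨h, hM⟩
  · unfold MissG at hM
    push Not at hM
    obtain ⟨k1, hk1, hk1y, hk1z, hk1G⟩ := hM
    obtain ⟨g, hg, hg1, hg2⟩ := nearest (hc.Gc n) (y := k1) (w := z) hk1G
    have hgyz : g ∈ uIcc y z := uIcc_subset_uIcc hk1 right_mem_uIcc hg1
    have hgy : g ≠ y := by
      rintro rfl
      apply hk1y
      rw [mem_uIcc] at hk1 hg1
      rcases hk1 with ⟨a1, a2⟩ | ⟨a1, a2⟩ <;> rcases hg1 with ⟨a3, a4⟩ | ⟨a3, a4⟩ <;> linarith
    have hgz : g ≠ z := fun e => hz (e ▸ hc.GB n hg)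
    obtain ⟨p, q, hn, hpq⟩ := hc.balB.nb_at h.t1 h.t2 hgyz hgy hgz
    have hall := hc.nb_G hn hpq hg
    have hqg : q = g := hg2 q (btw2 hn.mp hn.mq hpq) (hall q right_mem_uIcc)
    subst hqg
    obtain ⟨ou, hou, hou'⟩ := hre
    obtain ⟨o, ho, ho1, ho2⟩ := hF.right ou hou (v - u) (by linarith [h.lt])
    rw [hou'] at ho1 ho2
    have hob := (hF.ob o ho).congr (χ' := (q ∈ B)) (by simp [hc.GB n hg])
    have hlt := hF.lt o ho
    have h1 : Sol A B (fun a b c d => Live A B G c0 d0 𝓕 n a b c d ∨ Froz A B G c0 d0 n a b c d)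
        u v y z := by
      refine h.cut hob hn ho1 (by linarith) (fun e => absurd e hlt.ne)
        (Or.inl ⟨h.left hob hn ho1, ⟨ou, hou, hou'⟩, ⟨o, ho, rfl⟩, hyG, hall p left_mem_uIcc⟩)
        (Or.inr ⟨h.right hob hn (by linarith), ?_⟩)
      intro x hx h1 _ hxG
      exact h1 (hg2 x hx hxG)
    refine h1.comp ?_
    rintro a b c d (h2 | h2)
    · exact hc.live_solve hF h2
    · exact h2.1.triv h2

theorem Ctx.gstep (hc : Ctx A B F G c0 d0) (n : ℕ) {u v y z : ℝ} (h : Good A B c0 d0 u v y z) :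
    Sol A B (Froz A B G c0 d0 n) u v y z := by
  obtain ⟨h, hu, hv⟩ := h
  have hy : y ∉ B := fun hh => hu (h.c1.2 hh)
  have hz : z ∉ B := fun hh => hv (h.c2.2 hh)
  by_cases hM : MissG G n u v y z
  · exact h.triv ⟨h, hM⟩
  · unfold MissG at hM
    push Not at hM
    obtain ⟨k1, hk1, hk1y, hk1z, hk1G⟩ := hM
    obtain ⟨g, hg, hg1, hg2⟩ := nearest (hc.Gc n) (y := k1) (w := y) hk1G
    have hgyz : g ∈ uIcc y z := by
      have : g ∈ uIcc z y := uIcc_subset_uIcc (by rwa [uIcc_comm]) right_mem_uIcc hg1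
      rwa [uIcc_comm]
    have hgy : g ≠ y := fun e => hy (e ▸ hc.GB n hg)
    have hgz : g ≠ z := fun e => hz (e ▸ hc.GB n hg)
    obtain ⟨p, q, hn, hpq⟩ := hc.balB.nb_at h.t1 h.t2 hgyz hgy hgz
    have hall := hc.nb_G hn hpq hg
    have hpg : p = g := hg2 p (by rw [uIcc_comm]; exact btw1 hn.mp hn.mq hpq) (hall p left_mem_uIcc)
    subst hpg
    obtain ⟨𝓕, hF⟩ := hc.rich u v
      (by obtain ⟨x, hx, hx'⟩ := (h.ra (v - u) (by linarith [h.lt])).1
          exact ⟨x, ⟨hx.1, by linarith [hx.2]⟩, hx'⟩)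
      (by obtain ⟨x, hx, hx'⟩ := (h.ra (v - u) (by linarith [h.lt])).2
          exact ⟨x, ⟨hx.1, by linarith [hx.2]⟩, hx'⟩)
    obtain ⟨o, ho⟩ := hF.ne
    obtain ⟨ho1, ho2⟩ := hF.bd o ho
    have hob := (hF.ob o ho).congr (χ' := (p ∈ B)) (by simp [hc.GB n hg])
    have hlt := hF.lt o ho
    have h1 : Sol A B (fun a b c d => Froz A B G c0 d0 n a b c d ∨
        (Adm A B c0 d0 a b c d ∧ a = o.2 ∧ c ∈ G n ∧ d ∉ B)) u v y z := by
      refine h.cut hob hn ho1 ho2 (fun e => absurd e hlt.ne)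
        (Or.inl ⟨h.left hob hn ho1, ?_⟩) (Or.inr ⟨h.right hob hn ho2, rfl,
          hall q right_mem_uIcc, hz⟩)
      intro x hx _ h2 hxG
      exact h2 (hg2 x (by rwa [uIcc_comm]) hxG)
    refine h1.comp ?_
    rintro a b c d (h2 | ⟨h2, h3, h4, h5⟩)
    · exact h2.1.triv h2
    · exact hc.tailR hF h2 ⟨o, ho, h3.symm⟩ h4 h5

end ctx

end Helper98.Wadge
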