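import Pool.Agent.Helper98_Wadge.Basic

namespace Helper98.Wadge

open Set

/-- Predicates on boxes `(s, t; φ s, φ t)`. -/
abbrev Bx := ℝ → ℝ → ℝ → ℝ → Prop

/-- A partial solution of the box `(u, v; y, z)`, all of whose gaps satisfy `P`. -/
structure IsSol (A B : Set ℝ) (P : Bx) (R : Set ℝ) (u v y z : ℝ) (S : Set ℝ) (φ : ℝ → ℝ) :
    Prop where
  lt : u < v
  closed : IsClosed S
  sub : S ⊆ Icc u v
  mem_u : u ∈ S
  mem_v : v ∈ S
  cont : ContinuousOn φ (Icc u v)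
  fu : φ u = y
  fv : φ v = z
  col : ∀ x ∈ S, (x ∈ A ↔ φ x ∈ B)
  rng : ∀ x ∈ Icc u v, φ x ∈ R
  gap : ∀ s t, Gap S s t → P s t (φ s) (φ t)
  hull : ∀ s t, Gap S s t → ∀ x ∈ Icc s t, φ x ∈ uIcc (φ s) (φ t)

def SolR (A B : Set ℝ) (P : Bx) (R : Set ℝ) (u v y z : ℝ) : Prop :=
  ∃ S φ, IsSol A B P R u v y z S φ

def Sol (A B : Set ℝ) (P : Bx) (u v y z : ℝ) : Prop := SolR A B P (uIcc y z) u v y z

section glue

variable (S : Set ℝ) (φ : ℝ → ℝ) (u v : ℝ) (Sg : ℝ → ℝ → Set ℝ) (Ps : ℝ → ℝ → ℝ → ℝ)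

noncomputable def lo (S : Set ℝ) (x : ℝ) : ℝ := sSup (S ∩ Iic x)
noncomputable def hi (S : Set ℝ) (x : ℝ) : ℝ := sInf (S ∩ Ici x)

theorem lo_hi_of_gap {S : Set ℝ} {s t x : ℝ} (h : Gap S s t) (hx : x ∈ Ioo s t) :
    lo S x = s ∧ hi S x = t := by
  obtain ⟨h1, h2, h3, h4⟩ := h
  constructor
  · apply le_antisymm
    · refine csSup_le (s := S ∩ Iic x) ⟨s, h2, hx.1.le⟩ ?_
      rintro y ⟨hy, hy'⟩
      by_contra hcon
      push Not at hcon
      exact h4 y ⟨hcon, lt_of_le_of_lt hy' hx.2⟩ hy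
    · show s ≤ sSup (S ∩ Iic x)
      exact le_csSup ⟨x, fun y hy => hy.2⟩ ⟨h2, hx.1.le⟩
  · apply le_antisymm
    · show sInf (S ∩ Ici x) ≤ t
      exact csInf_le ⟨x, fun y hy => hy.2⟩ ⟨h3, hx.2.le⟩
    · refine le_csInf (s := S ∩ Ici x) ⟨t, h3, hx.2.le⟩ ?_
      rintro y ⟨hy, hy'⟩
      by_contra hcon
      push Not at hcon
      exact h4 y ⟨lt_of_lt_of_le hx.1 hy', hcon⟩ hy

open Classical in
/-- The glued function. -/
noncomputable def glF (x : ℝ) : ℝ := if x ∈ S then φ x else Ps (lo S x) (hi S x) x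

/-- The glued settled set. -/
def glS : Set ℝ := {x | x ∈ Icc u v ∧ (x ∈ S ∨ x ∈ Sg (lo S x) (hi S x))}

variable {S φ u v Sg Ps}

theorem glF_mem {x : ℝ} (hx : x ∈ S) : glF S φ Ps x = φ x := by simp [glF, hx]

theorem glF_gap {s t x : ℝ} (h : Gap S s t) (hs : Ps s t s = φ s) (ht : Ps s t t = φ t)
    (hx : x ∈ Icc s t) : glF S φ Ps x = Ps s t x := by
  rcases hx.1.eq_or_lt with e | e
  · rw [← e, glF_mem h.2.1, hs]
  · rcases hx.2.eq_or_lt with e' | e'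
    · rw [e', glF_mem h.2.2.1, ht]
    · have hxS := h.2.2.2 x ⟨e, e'⟩
      obtain ⟨h1, h2⟩ := lo_hi_of_gap h ⟨e, e'⟩
      simp only [glF, hxS, if_false, h1, h2]

theorem glS_gap {s t x : ℝ} (h : Gap S s t) (hs : s ∈ Sg s t) (ht : t ∈ Sg s t)
    (hu : u ≤ s) (hv : t ≤ v) (hx : x ∈ Icc s t) : x ∈ glS S u v Sg ↔ x ∈ Sg s t := by
  rcases hx.1.eq_or_lt with e | e
  · rw [← e]; exact ⟨fun _ => hs, fun _ => ⟨⟨hu, by linarith [h.1]⟩, Or.inl h.2.1⟩⟩
  · rcases hx.2.eq_or_lt with e' | e'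
    · rw [e']; exact ⟨fun _ => ht, fun _ => ⟨⟨by linarith [h.1], hv⟩, Or.inl h.2.2.1⟩⟩
    · have hxS := h.2.2.2 x ⟨e, e'⟩
      obtain ⟨h1, h2⟩ := lo_hi_of_gap h ⟨e, e'⟩
      simp only [glS, mem_ofPred_eq, h1, h2, hxS, false_or]
      exact ⟨fun h => h.2, fun h => ⟨⟨by linarith, by linarith⟩, h⟩⟩

/-- Right continuity at points of `S`. -/
theorem glue_right (hS : IsClosed S) (hv : v ∈ S)
    (hφ : ContinuousOn φ (Icc u v))
    (hc : ∀ s t, Gap S s t → ContinuousOn (Ps s t) (Icc s t))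
    (hs : ∀ s t, Gap S s t → Ps s t s = φ s) (ht : ∀ s t, Gap S s t → Ps s t t = φ t)
    (hb : ∀ s t, Gap S s t → ∀ x ∈ Icc s t, |Ps s t x - φ s| ≤ |φ t - φ s| + (t - s))
    {x0 : ℝ} (hx0 : x0 ∈ S) (hxu : u ≤ x0) (hxv : x0 < v) {ε : ℝ} (hε : 0 < ε) :
    ∃ δ > 0, ∀ x ∈ Ico x0 (x0 + δ), |glF S φ Ps x - φ x0| < ε := by
  by_cases hg : ∃ t, Gap S x0 t
  · obtain ⟨t, hg⟩ := hg
    have h1 := hc _ _ hg x0 ⟨le_rfl, hg.1.le⟩
    rw [Metric.continuousWithinAt_iff] at h1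
    obtain ⟨δ, hδ, h2⟩ := h1 ε hε
    refine ⟨min δ (t - x0), lt_min hδ (by linarith [hg.1]), ?_⟩
    intro x hx
    have m1 := min_le_left δ (t - x0)
    have m2 := min_le_right δ (t - x0)
    have hx1 : x ∈ Icc x0 t := ⟨hx.1, by linarith [hx.2]⟩
    rw [glF_gap hg (hs _ _ hg) (ht _ _ hg) hx1]
    have h3 := h2 hx1 (by rw [Real.dist_eq, abs_lt]; constructor <;> linarith [hx.1, hx.2])
    rw [Real.dist_eq, hs _ _ hg] at h3
    exact h3
  · push Not at hg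
    have h1 := hφ x0 ⟨hxu, hxv.le⟩
    rw [Metric.continuousWithinAt_iff] at h1
    obtain ⟨δ, hδ, h2⟩ := h1 (ε / 8) (by linarith)
    have h2' : ∀ x ∈ Icc u v, |x - x0| < δ → |φ x - φ x0| < ε / 8 := fun x hx hx' =>
      h2 hx hx'
    set δ' := min (min δ (v - x0)) (ε / 8) with hδ'
    have hδ'0 : 0 < δ' := lt_min (lt_min hδ (by linarith)) (by linarith)
    have m1 : δ' ≤ δ := (min_le_left _ _).trans (min_le_left _ _)
    have m2 : δ' ≤ v - x0 := (min_le_left _ _).trans (min_le_right _ _)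
    have m3 : δ' ≤ ε / 8 := min_le_right _ _
    -- a point of S close to x0 on the right
    have key : ∃ s1 ∈ S, x0 < s1 ∧ s1 < x0 + δ' := by
      by_contra hcon
      push Not at hcon
      have hx1 : x0 + δ' / 2 ∉ S := by
        intro hh
        have := hcon _ hh (by linarith)
        linarith
      obtain ⟨s, t, g1, g2, g3, g4⟩ := exists_gap hS hx0 hv (x := x0 + δ' / 2)
        ⟨by linarith, by linarith⟩ hx1
      rcases g3.eq_or_lt with e | e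
      · rw [← e] at g1
        exact hg t g1
      · have := hcon s g1.2.1 e
        linarith [g2.1]
    obtain ⟨s1, hs1, hs1a, hs1b⟩ := key
    refine ⟨s1 - x0, by linarith, ?_⟩
    intro x hx
    have hxs1 : x < s1 := by linarith [hx.2]
    by_cases hxS : x ∈ S
    · rw [glF_mem hxS]
      have := h2' x ⟨by linarith [hx.1], by linarith⟩
        (by rw [abs_lt]; constructor <;> linarith [hx.1, hx.2])
      linarith
    · obtain ⟨s, t, g1, g2, g3, g4⟩ := exists_gap hS hx0 hs1 (x := x) ⟨hx.1, hxs1.le⟩ hxS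
      rw [glF_gap g1 (hs _ _ g1) (ht _ _ g1) ⟨g2.1.le, g2.2.le⟩]
      have b := hb s t g1 x ⟨g2.1.le, g2.2.le⟩
      have b1 := h2' s ⟨by linarith, by linarith [g2.1]⟩
        (by rw [abs_lt]; constructor <;> linarith [g2.1, g2.2])
      have b2 := h2' t ⟨by linarith [g2.1, g2.2], by linarith [g2.1]⟩
        (by rw [abs_lt]; constructor <;> linarith [g2.1, g2.2])
      rw [abs_lt] at b1 b2 ⊢
      rw [abs_le] at b
      have b3 : |φ t - φ s| ≤ ε / 4 := by rw [abs_le]; constructor <;> linarith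
      constructor <;> linarith [b.1, b.2, g2.1, g2.2]

/-- Left continuity at points of `S`. -/
theorem glue_left (hS : IsClosed S) (hu : u ∈ S)
    (hφ : ContinuousOn φ (Icc u v))
    (hc : ∀ s t, Gap S s t → ContinuousOn (Ps s t) (Icc s t))
    (hs : ∀ s t, Gap S s t → Ps s t s = φ s) (ht : ∀ s t, Gap S s t → Ps s t t = φ t)
    (hb : ∀ s t, Gap S s t → ∀ x ∈ Icc s t, |Ps s t x - φ s| ≤ |φ t - φ s| + (t - s))
    {x0 : ℝ} (hx0 : x0 ∈ S) (hxu : u < x0) (hxv : x0 ≤ v) {ε : ℝ} (hε : 0 < ε) :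
    ∃ δ > 0, ∀ x ∈ Ioc (x0 - δ) x0, |glF S φ Ps x - φ x0| < ε := by
  by_cases hg : ∃ s, Gap S s x0
  · obtain ⟨s, hg⟩ := hg
    have h1 := hc _ _ hg x0 ⟨hg.1.le, le_rfl⟩
    rw [Metric.continuousWithinAt_iff] at h1
    obtain ⟨δ, hδ, h2⟩ := h1 ε hε
    refine ⟨min δ (x0 - s), lt_min hδ (by linarith [hg.1]), ?_⟩
    intro x hx
    have m1 := min_le_left δ (x0 - s)
    have m2 := min_le_right δ (x0 - s)
    have hx1 : x ∈ Icc s x0 := ⟨by linarith [hx.1], hx.2⟩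
    rw [glF_gap hg (hs _ _ hg) (ht _ _ hg) hx1]
    have h3 := h2 hx1 (by rw [Real.dist_eq, abs_lt]; constructor <;> linarith [hx.1, hx.2])
    rw [Real.dist_eq, ht _ _ hg] at h3
    exact h3
  · push Not at hg
    have h1 := hφ x0 ⟨hxu.le, hxv⟩
    rw [Metric.continuousWithinAt_iff] at h1
    obtain ⟨δ, hδ, h2⟩ := h1 (ε / 8) (by linarith)
    have h2' : ∀ x ∈ Icc u v, |x - x0| < δ → |φ x - φ x0| < ε / 8 := fun x hx hx' =>
      h2 hx hx'
    set δ' := min (min δ (x0 - u)) (ε / 8) with hδ'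
    have hδ'0 : 0 < δ' := lt_min (lt_min hδ (by linarith)) (by linarith)
    have m1 : δ' ≤ δ := (min_le_left _ _).trans (min_le_left _ _)
    have m2 : δ' ≤ x0 - u := (min_le_left _ _).trans (min_le_right _ _)
    have m3 : δ' ≤ ε / 8 := min_le_right _ _
    have key : ∃ s1 ∈ S, s1 < x0 ∧ x0 - δ' < s1 := by
      by_contra hcon
      push Not at hcon
      have hx1 : x0 - δ' / 2 ∉ S := by
        intro hh
        have := hcon _ hh (by linarith)
        linarith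
      obtain ⟨s, t, g1, g2, g3, g4⟩ := exists_gap hS hu hx0 (x := x0 - δ' / 2)
        ⟨by linarith, by linarith⟩ hx1
      rcases g4.eq_or_lt with e | e
      · rw [e] at g1
        exact hg s g1
      · have := hcon t g1.2.2.1 e
        linarith [g2.2]
    obtain ⟨s1, hs1, hs1a, hs1b⟩ := key
    refine ⟨x0 - s1, by linarith, ?_⟩
    intro x hx
    have hxs1 : s1 < x := by linarith [hx.1]
    by_cases hxS : x ∈ S
    · rw [glF_mem hxS]
      have := h2' x ⟨by linarith, by linarith [hx.2]⟩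
        (by rw [abs_lt]; constructor <;> linarith [hx.1, hx.2])
      linarith
    · obtain ⟨s, t, g1, g2, g3, g4⟩ := exists_gap hS hs1 hx0 (x := x) ⟨hxs1.le, hx.2⟩ hxS
      rw [glF_gap g1 (hs _ _ g1) (ht _ _ g1) ⟨g2.1.le, g2.2.le⟩]
      have b := hb s t g1 x ⟨g2.1.le, g2.2.le⟩
      have b1 := h2' s ⟨by linarith, by linarith [g2.1, g2.2]⟩
        (by rw [abs_lt]; constructor <;> linarith [g2.1, g2.2])
      have b2 := h2' t ⟨by linarith [g2.1, g2.2], by linarith [g2.1]⟩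
        (by rw [abs_lt]; constructor <;> linarith [g2.1, g2.2])
      rw [abs_lt] at b1 b2 ⊢
      rw [abs_le] at b
      have b3 : |φ t - φ s| ≤ ε / 4 := by rw [abs_le]; constructor <;> linarith
      constructor <;> linarith [b.1, b.2, g2.1, g2.2]

theorem glue_cont (hS : IsClosed S) (hu : u ∈ S) (hv : v ∈ S)
    (hφ : ContinuousOn φ (Icc u v))
    (hc : ∀ s t, Gap S s t → ContinuousOn (Ps s t) (Icc s t))
    (hs : ∀ s t, Gap S s t → Ps s t s = φ s) (ht : ∀ s t, Gap S s t → Ps s t t = φ t)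
    (hb : ∀ s t, Gap S s t → ∀ x ∈ Icc s t, |Ps s t x - φ s| ≤ |φ t - φ s| + (t - s)) :
    ContinuousOn (glF S φ Ps) (Icc u v) := by
  intro x0 hx0
  by_cases hxS : x0 ∈ S
  · rw [Metric.continuousWithinAt_iff]
    intro ε hε
    have R : ∃ δ > 0, ∀ x ∈ Ico x0 (x0 + δ), x ∈ Icc u v → |glF S φ Ps x - φ x0| < ε := by
      rcases hx0.2.eq_or_lt with e | e
      · refine ⟨1, one_pos, fun x hx hx' => ?_⟩
        have : x = x0 := by linarith [hx.1, hx'.2]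
        rw [this, glF_mem hxS]; simpa using hε
      · obtain ⟨δ, hδ, h⟩ := glue_right hS hv hφ hc hs ht hb hxS hx0.1 e hε
        exact ⟨δ, hδ, fun x hx _ => h x hx⟩
    have L : ∃ δ > 0, ∀ x ∈ Ioc (x0 - δ) x0, x ∈ Icc u v → |glF S φ Ps x - φ x0| < ε := by
      rcases hx0.1.eq_or_lt with e | e
      · refine ⟨1, one_pos, fun x hx hx' => ?_⟩
        have : x = x0 := by linarith [hx.2, hx'.1]
        rw [this, glF_mem hxS]; simpa using hε
      · obtain ⟨δ, hδ, h⟩ := glue_left hS hu hφ hc hs ht hb hxS e hx0.2 hε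
        exact ⟨δ, hδ, fun x hx _ => h x hx⟩
    obtain ⟨δ1, hδ1, h1⟩ := R
    obtain ⟨δ2, hδ2, h2⟩ := L
    refine ⟨min δ1 δ2, lt_min hδ1 hδ2, ?_⟩
    intro x hx hxd
    have m1 := min_le_left δ1 δ2
    have m2 := min_le_right δ1 δ2
    rw [Real.dist_eq, abs_lt] at hxd
    rw [Real.dist_eq, glF_mem hxS]
    rcases le_total x0 x with h | h
    · exact h1 x ⟨h, by linarith⟩ hx
    · exact h2 x ⟨by linarith, h⟩ hx
  · obtain ⟨s, t, g1, g2, g3, g4⟩ := exists_gap hS hu hv hx0 hxS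
    have h1 : ContinuousAt (Ps s t) x0 :=
      (hc s t g1).continuousAt (Icc_mem_nhds g2.1 g2.2)
    have h2 : glF S φ Ps =ᶠ[nhds x0] Ps s t := by
      filter_upwards [Icc_mem_nhds g2.1 g2.2] with x hx
      exact glF_gap g1 (hs _ _ g1) (ht _ _ g1) hx
    exact (h1.congr_of_eventuallyEq h2).continuousWithinAt

end glue

/-- The glueing lemma. -/
theorem IsSol.glue {A B : Set ℝ} {P : Bx} {R : Set ℝ} {u v y z : ℝ} {S : Set ℝ} {φ : ℝ → ℝ}
    {Sg : ℝ → ℝ → Set ℝ} {Ps : ℝ → ℝ → ℝ → ℝ}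
    (huv : u < v) (hS : IsClosed S) (hsub : S ⊆ Icc u v) (hu : u ∈ S) (hv : v ∈ S)
    (hφ : ContinuousOn φ (Icc u v)) (fu : φ u = y) (fv : φ v = z)
    (col : ∀ x ∈ S, (x ∈ A ↔ φ x ∈ B)) (rngS : ∀ x ∈ S, φ x ∈ R)
    (h : ∀ s t, Gap S s t → IsSol A B P {w | w ∈ R ∧ |w - φ s| ≤ |φ t - φ s| + (t - s)} s t
      (φ s) (φ t) (Sg s t) (Ps s t)) :
    IsSol A B P R u v y z (glS S u v Sg) (glF S φ Ps) := by
  have hsv : ∀ s t, Gap S s t → u ≤ s ∧ t ≤ v := fun s t g =>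
    ⟨(hsub g.2.1).1, (hsub g.2.2.1).2⟩
  have hs : ∀ s t, Gap S s t → Ps s t s = φ s := fun s t g => (h s t g).fu
  have ht : ∀ s t, Gap S s t → Ps s t t = φ t := fun s t g => (h s t g).fv
  have hSub : S ⊆ glS S u v Sg := fun x hx => ⟨hsub hx, Or.inl hx⟩
  have hgap : ∀ s' t', Gap (glS S u v Sg) s' t' → ∃ s t, Gap S s t ∧ s ≤ s' ∧ t' ≤ t ∧
      Gap (Sg s t) s' t' := by
    intro s' t' g'
    have hm : (s' + t') / 2 ∈ Ioo s' t' := ⟨by linarith [g'.1], by linarith [g'.1]⟩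
    have hm' : (s' + t') / 2 ∉ S := fun hh => g'.2.2.2 _ hm (hSub hh)
    have hmI : (s' + t') / 2 ∈ Icc u v :=
      ⟨by linarith [hm.1, g'.2.1.1.1], by linarith [hm.2, g'.2.2.1.1.2]⟩
    obtain ⟨s, t, g1, g2, g3, g4⟩ := exists_gap hS hu hv hmI hm'
    have hs' : s ≤ s' := by
      by_contra hcon
      push Not at hcon
      exact g'.2.2.2 s ⟨hcon, by linarith [g2.1, hm.2]⟩ (hSub g1.2.1)
    have ht' : t' ≤ t := by
      by_contra hcon
      push Not at hcon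
      exact g'.2.2.2 t ⟨by linarith [g2.2, hm.1], hcon⟩ (hSub g1.2.2.1)
    have hh := h s t g1
    have key : ∀ x ∈ Icc s t, (x ∈ glS S u v Sg ↔ x ∈ Sg s t) := fun x hx =>
      glS_gap g1 hh.mem_u hh.mem_v g3 g4 hx
    refine ⟨s, t, g1, hs', ht', g'.1, ?_, ?_, ?_⟩
    · exact (key s' ⟨hs', by linarith [g'.1]⟩).1 g'.2.1
    · exact (key t' ⟨by linarith [g'.1], ht'⟩).1 g'.2.2.1
    · intro x hx hx'
      exact g'.2.2.2 x hx ((key x ⟨by linarith [hx.1], by linarith [hx.2]⟩).2 hx')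
  have hF : ∀ s t, Gap S s t → ∀ x ∈ Icc s t, glF S φ Ps x = Ps s t x := fun s t g x hx =>
    glF_gap g (hs s t g) (ht s t g) hx
  refine ⟨huv, ?_, fun x hx => hx.1, hSub hu, hSub hv, ?_, ?_, ?_, ?_, ?_, ?_, ?_⟩
  · -- closedness
    rw [← isOpen_compl_iff, isOpen_iff_mem_nhds]
    intro x hx
    by_cases hxI : x ∈ Icc u v
    · have hxS : x ∉ S := fun hh => hx (hSub hh)
      obtain ⟨s, t, g1, g2, g3, g4⟩ := exists_gap hS hu hv hxI hxS
      have hh := h s t g1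
      have key : ∀ x ∈ Icc s t, (x ∈ glS S u v Sg ↔ x ∈ Sg s t) := fun x hx =>
        glS_gap g1 hh.mem_u hh.mem_v g3 g4 hx
      have h1 : Ioo s t ∩ (Sg s t)ᶜ ∈ nhds x := by
        apply (isOpen_Ioo.inter hh.closed.isOpen_compl).mem_nhds
        exact ⟨g2, fun hh' => hx ((key x ⟨g2.1.le, g2.2.le⟩).2 hh')⟩
      filter_upwards [h1] with w hw hw'
      exact hw.2 ((key w ⟨hw.1.1.le, hw.1.2.le⟩).1 hw')
    · have h1 : (Icc u v)ᶜ ∈ nhds x := isClosed_Icc.isOpen_compl.mem_nhds hxI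
      filter_upwards [h1] with w hw hw'
      exact hw hw'.1
  · -- continuity
    exact glue_cont hS hu hv hφ (fun s t g => (h s t g).cont) hs ht
      (fun s t g x hx => ((h s t g).rng x hx).2)
  · rw [glF_mem hu, fu]
  · rw [glF_mem hv, fv]
  · intro x hx
    by_cases hxS : x ∈ S
    · rw [glF_mem hxS]; exact col x hxS
    · obtain ⟨s, t, g1, g2, g3, g4⟩ := exists_gap hS hu hv hx.1 hxS
      have hh := h s t g1
      have hxI : x ∈ Icc s t := ⟨g2.1.le, g2.2.le⟩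
      rw [hF s t g1 x hxI]
      exact hh.col x ((glS_gap g1 hh.mem_u hh.mem_v g3 g4 hxI).1 hx)
  · intro x hx
    by_cases hxS : x ∈ S
    · rw [glF_mem hxS]; exact rngS x hxS
    · obtain ⟨s, t, g1, g2, g3, g4⟩ := exists_gap hS hu hv hx hxS
      have hxI : x ∈ Icc s t := ⟨g2.1.le, g2.2.le⟩
      rw [hF s t g1 x hxI]
      exact ((h s t g1).rng x hxI).1
  · intro s' t' g'
    obtain ⟨s, t, g1, g2, g3, g4⟩ := hgap s' t' g'
    rw [hF s t g1 s' ⟨g2, by linarith [g'.1]⟩, hF s t g1 t' ⟨by linarith [g'.1], g3⟩]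
    exact (h s t g1).gap s' t' g4
  · intro s' t' g' x hx
    obtain ⟨s, t, g1, g2, g3, g4⟩ := hgap s' t' g'
    rw [hF s t g1 s' ⟨g2, by linarith [g'.1]⟩, hF s t g1 t' ⟨by linarith [g'.1], g3⟩,
      hF s t g1 x ⟨by linarith [hx.1], by linarith [hx.2]⟩]
    exact (h s t g1).hull s' t' g4 x hx

/-- The glueing lemma, existential form. -/
theorem SolR.glue {A B : Set ℝ} {P : Bx} {R : Set ℝ} {u v y z : ℝ} {S : Set ℝ} {φ : ℝ → ℝ}
    (huv : u < v) (hS : IsClosed S) (hsub : S ⊆ Icc u v) (hu : u ∈ S) (hv : v ∈ S)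
    (hφ : ContinuousOn φ (Icc u v)) (fu : φ u = y) (fv : φ v = z)
    (col : ∀ x ∈ S, (x ∈ A ↔ φ x ∈ B)) (rngS : ∀ x ∈ S, φ x ∈ R)
    (h : ∀ s t, Gap S s t → SolR A B P {w | w ∈ R ∧ |w - φ s| ≤ |φ t - φ s| + (t - s)} s t
      (φ s) (φ t)) : SolR A B P R u v y z := by
  classical
  have h' : ∀ s t, ∃ T : Set ℝ, ∃ ψ : ℝ → ℝ, Gap S s t →
      IsSol A B P {w | w ∈ R ∧ |w - φ s| ≤ |φ t - φ s| + (t - s)} s t (φ s) (φ t) T ψ := by
    intro s t
    by_cases g : Gap S s t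
    · obtain ⟨T, ψ, hT⟩ := h s t g
      exact ⟨T, ψ, fun _ => hT⟩
    · exact ⟨∅, fun _ => 0, fun g' => absurd g' g⟩
  choose Sg Ps hh using h'
  exact ⟨_, _, IsSol.glue huv hS hsub hu hv hφ fu fv col rngS (fun s t g => hh s t g)⟩

theorem SolR.mono {A B : Set ℝ} {P Q : Bx} {R R' : Set ℝ} {u v y z : ℝ}
    (h : SolR A B P R u v y z) (hR : R ⊆ R') (hPQ : ∀ s t p q, P s t p q → Q s t p q) :
    SolR A B Q R' u v y z := by
  obtain ⟨S, φ, h⟩ := h
  exact ⟨S, φ, h.lt, h.closed, h.sub, h.mem_u, h.mem_v, h.cont, h.fu, h.fv, h.col,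
    fun x hx => hR (h.rng x hx), fun s t g => hPQ _ _ _ _ (h.gap s t g), h.hull⟩

theorem abs_sub_le_of_mem_uIcc {a b w : ℝ} (h : w ∈ uIcc a b) : |w - a| ≤ |b - a| := by
  rw [mem_uIcc] at h
  rcases h with ⟨h1, h2⟩ | ⟨h1, h2⟩
  · rw [abs_of_nonneg (by linarith), abs_of_nonneg (by linarith)]; linarith
  · rw [abs_of_nonpos (by linarith), abs_of_nonpos (by linarith)]; linarith

/-- Composition of partial solutions. -/
theorem SolR.comp {A B : Set ℝ} {P Q : Bx} {R : Set ℝ} {u v y z : ℝ} (hR : R.OrdConnected)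
    (h : SolR A B P R u v y z) (h' : ∀ s t p q, P s t p q → Sol A B Q s t p q) :
    SolR A B Q R u v y z := by
  obtain ⟨S, φ, h⟩ := h
  refine SolR.glue h.lt h.closed h.sub h.mem_u h.mem_v h.cont h.fu h.fv h.col
    (fun x hx => h.rng x (h.sub hx)) ?_
  intro s t g
  refine (h' _ _ _ _ (h.gap s t g)).mono ?_ (fun _ _ _ _ h => h)
  intro w hw
  refine ⟨?_, ?_⟩
  · exact hR.uIcc_subset (h.rng s (h.sub g.2.1)) (h.rng t (h.sub g.2.2.1)) hw
  · linarith [abs_sub_le_of_mem_uIcc hw, g.1]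

theorem Sol.comp {A B : Set ℝ} {P Q : Bx} {u v y z : ℝ}
    (h : Sol A B P u v y z) (h' : ∀ s t p q, P s t p q → Sol A B Q s t p q) :
    Sol A B Q u v y z := SolR.comp ordConnected_uIcc h h'

theorem Sol.mono {A B : Set ℝ} {P Q : Bx} {u v y z : ℝ}
    (h : Sol A B P u v y z) (hPQ : ∀ s t p q, P s t p q → Q s t p q) : Sol A B Q u v y z :=
  SolR.mono h Subset.rfl hPQ

/-- A box predicate inherited by subboxes. -/
def Hered (H : Bx) : Prop := ∀ u v y z s t p q, H u v y z → u ≤ s → t ≤ v → p ∈ uIcc y z →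
  q ∈ uIcc y z → H s t p q

theorem Sol.and_hered {A B : Set ℝ} {P H : Bx} {u v y z : ℝ} (hH : Hered H)
    (h : Sol A B P u v y z) (hh : H u v y z) :
    Sol A B (fun s t p q => P s t p q ∧ H s t p q) u v y z := by
  obtain ⟨S, φ, h⟩ := h
  exact ⟨S, φ, h.lt, h.closed, h.sub, h.mem_u, h.mem_v, h.cont, h.fu, h.fv, h.col,
    h.rng, fun s t g => ⟨h.gap s t g, hH _ _ _ _ _ _ _ _ hh (h.sub g.2.1).1 (h.sub g.2.2.1).2
      (h.rng s (h.sub g.2.1)) (h.rng t (h.sub g.2.2.1))⟩, h.hull⟩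

end Helper98.Wadge
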