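import Pool.Agent.Helper98_Wadge.Steps

namespace Helper98.Wadge

open Set Filter Topology

/-- `[s, t]` is mapped by `f` into `[p, q]`, and `f` leaves `[p, q]` arbitrarily close to both
ends. -/
structure Comp (f : ℝ → ℝ) (p q s t : ℝ) : Prop where
  lt : s < t
  maps : ∀ x ∈ Icc s t, f x ∈ Icc p q
  left : ∀ ε > 0, ∃ x ∈ Ioo (s - ε) s, f x ∉ Icc p q
  right : ∀ ε > 0, ∃ x ∈ Ioo t (t + ε), f x ∉ Icc p q

theorem crossing_up {f : ℝ → ℝ} (hf : Continuous f) {x y p q : ℝ} (hxy : x < y) (hpq : p < q)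
    (hx : f x < p) (hy : q < f y) : ∃ s t, x < s ∧ s < t ∧ t < y ∧ Comp f p q s t := by
  -- first exit above q
  set U : Set ℝ := {w | w ∈ Icc x y ∧ q < f w} with hU
  have hUne : U.Nonempty := ⟨y, ⟨hxy.le, le_rfl⟩, hy⟩
  have hUb : BddBelow U := ⟨x, fun w hw => hw.1.1⟩
  set t := sInf U with ht
  have hxt : x ≤ t := le_csInf hUne (fun w hw => hw.1.1)
  have hty : t ≤ y := csInf_le hUb ⟨⟨hxy.le, le_rfl⟩, hy⟩
  have hbelow : ∀ w, x ≤ w → w < t → f w ≤ q := by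
    intro w h1 h2
    by_contra hcon
    push Not at hcon
    exact absurd (csInf_le hUb ⟨⟨h1, by linarith⟩, hcon⟩) (not_le.2 h2)
  have hft1 : f t ≤ q := by
    rcases hxt.eq_or_lt with e | e
    · rw [← e]; linarith
    · by_contra hcon
      push Not at hcon
      have h1 : ∀ᶠ w in 𝓝 t, q < f w := (hf.continuousAt).eventually (lt_mem_nhds hcon)
      obtain ⟨w, hw1, hw2, hw3⟩ : ∃ w, q < f w ∧ x < w ∧ w < t := by
        have h2 : ∀ᶠ w in 𝓝[<] t, q < f w ∧ x < w ∧ w < t := by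
          have h3 : ∀ᶠ w in 𝓝[<] t, x < w := nhdsWithin_le_nhds (lt_mem_nhds e)
          filter_upwards [nhdsWithin_le_nhds h1, h3, self_mem_nhdsWithin] with w a b c
          exact ⟨a, b, c⟩
        exact h2.exists
      linarith [hbelow w hw2.le hw3]
  have hft2 : q ≤ f t := by
    by_contra hcon
    push Not at hcon
    have h1 : ∀ᶠ w in 𝓝 t, f w < q := (hf.continuousAt).eventually (gt_mem_nhds hcon)
    obtain ⟨δ, hδ, hball⟩ := Metric.eventually_nhds_iff.1 h1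
    obtain ⟨w, hw, hwt⟩ := exists_lt_of_csInf_lt hUne (show sInf U < t + δ by linarith)
    have h2 : t ≤ w := csInf_le hUb hw
    have := hball (y := w) (by rw [Real.dist_eq, abs_lt]; constructor <;> linarith)
    linarith [hw.2]
  have hft : f t = q := le_antisymm hft1 hft2
  have hty' : t < y := lt_of_le_of_ne hty (fun e => by rw [e] at hft; linarith)
  have hxt' : x < t := lt_of_le_of_ne hxt (fun e => by rw [← e] at hft; linarith)
  -- last time below p before t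
  set V : Set ℝ := {w | w ∈ Icc x t ∧ f w < p} with hV
  have hVne : V.Nonempty := ⟨x, ⟨le_rfl, hxt⟩, hx⟩
  have hVb : BddAbove V := ⟨t, fun w hw => hw.1.2⟩
  set s := sSup V with hs
  have hst : s ≤ t := csSup_le hVne (fun w hw => hw.1.2)
  have hxs : x ≤ s := le_csSup hVb ⟨⟨le_rfl, hxt⟩, hx⟩
  have habove : ∀ w, s < w → w ≤ t → p ≤ f w := by
    intro w h1 h2
    by_contra hcon
    push Not at hcon
    exact absurd (le_csSup hVb ⟨⟨by linarith, h2⟩, hcon⟩) (not_le.2 h1)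
  have hfs2 : f s ≤ p := by
    by_contra hcon
    push Not at hcon
    have h1 : ∀ᶠ w in 𝓝 s, p < f w := (hf.continuousAt).eventually (lt_mem_nhds hcon)
    obtain ⟨δ, hδ, hball⟩ := Metric.eventually_nhds_iff.1 h1
    obtain ⟨w, hw, hwt⟩ := exists_lt_of_lt_csSup hVne (show s - δ < sSup V by linarith)
    have h2 : w ≤ s := le_csSup hVb hw
    have := hball (y := w) (by rw [Real.dist_eq, abs_lt]; constructor <;> linarith)
    linarith [hw.2]
  have hst' : s < t := lt_of_le_of_ne hst (fun e => by rw [e] at hfs2; linarith)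
  have hfs1 : p ≤ f s := by
    by_contra hcon
    push Not at hcon
    have h1 : ∀ᶠ w in 𝓝 s, f w < p := (hf.continuousAt).eventually (gt_mem_nhds hcon)
    obtain ⟨w, hw1, hw2, hw3⟩ : ∃ w, f w < p ∧ s < w ∧ w < t := by
      have h2 : ∀ᶠ w in 𝓝[>] s, f w < p ∧ s < w ∧ w < t := by
        have h3 : ∀ᶠ w in 𝓝[>] s, w < t := nhdsWithin_le_nhds (gt_mem_nhds hst')
        filter_upwards [nhdsWithin_le_nhds h1, h3, self_mem_nhdsWithin] with w a b c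
        exact ⟨a, c, b⟩
      exact h2.exists
    linarith [habove w hw2 hw3.le]
  have hfs : f s = p := le_antisymm hfs2 hfs1
  have hxs' : x < s := lt_of_le_of_ne hxs (fun e => by rw [← e] at hfs; linarith)
  refine ⟨s, t, hxs', hst', hty', hst', ?_, ?_, ?_⟩
  · intro w hw
    constructor
    · rcases hw.1.eq_or_lt with e | e
      · rw [← e, hfs]
      · exact habove w e hw.2
    · rcases hw.2.eq_or_lt with e | e
      · rw [e, hft]
      · exact hbelow w (by linarith [hw.1]) e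
  · intro ε hε
    obtain ⟨w, hw, hwt⟩ := exists_lt_of_lt_csSup hVne (show s - ε < sSup V by linarith)
    have h2 : w ≤ s := le_csSup hVb hw
    have h3 : w ≠ s := by rintro rfl; linarith [hw.2]
    exact ⟨w, ⟨hwt, lt_of_le_of_ne h2 h3⟩, fun h => by linarith [h.1, hw.2]⟩
  · intro ε hε
    obtain ⟨w, hw, hwt⟩ := exists_lt_of_csInf_lt hUne (show sInf U < t + ε by linarith)
    have h2 : t ≤ w := csInf_le hUb hw
    have h3 : t ≠ w := by
      intro e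
      have := hw.2
      rw [← e, hft] at this
      exact lt_irrefl _ this
    exact ⟨w, ⟨lt_of_le_of_ne h2 h3, hwt⟩, fun h => by linarith [h.2, hw.2]⟩

theorem crossing {f : ℝ → ℝ} (hf : Continuous f) {x y p q : ℝ} (hxy : x < y) (hpq : p < q)
    (h : (f x < p ∧ q < f y) ∨ (q < f x ∧ f y < p)) :
    ∃ s t, x < s ∧ s < t ∧ t < y ∧ Comp f p q s t := by
  rcases h with ⟨h1, h2⟩ | ⟨h1, h2⟩
  · exact crossing_up hf hxy hpq h1 h2
  · obtain ⟨s, t, a, b, c, d⟩ := crossing_up (f := fun x => -f x) hf.neg hxy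
      (p := -q) (q := -p) (by linarith) (by linarith) (by linarith)
    have key : ∀ w, -f w ∈ Icc (-q) (-p) ↔ f w ∈ Icc p q := fun w =>
      ⟨fun h => ⟨by linarith [h.2], by linarith [h.1]⟩,
        fun h => ⟨by linarith [h.2], by linarith [h.1]⟩⟩
    refine ⟨s, t, a, b, c, d.lt, fun w hw => (key w).1 (d.maps w hw), ?_, ?_⟩
    · intro ε hε
      obtain ⟨w, hw, hw'⟩ := d.left ε hε
      exact ⟨w, hw, fun h => hw' ((key w).2 h)⟩
    · intro ε hε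
      obtain ⟨w, hw, hw'⟩ := d.right ε hε
      exact ⟨w, hw, fun h => hw' ((key w).2 h)⟩

/-- Intermediate values, open version. -/
theorem ivt_open {f : ℝ → ℝ} (hf : Continuous f) {x y v : ℝ} (hxy : x < y)
    (h : (f x < v ∧ v < f y) ∨ (v < f x ∧ f y < v)) : ∃ w ∈ Ioo x y, f w = v := by
  rcases h with ⟨h1, h2⟩ | ⟨h1, h2⟩
  · exact (intermediate_value_Ioo hxy.le hf.continuousOn) ⟨h1, h2⟩
  · exact (intermediate_value_Ioo' hxy.le hf.continuousOn) ⟨h2, h1⟩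

/-- If `f w` is outside an object `[p,q]` while `f s` is inside, then points outside `B` are
attained in between. -/
theorem near_out {B : Set ℝ} {p q v v' : ℝ} (ho : Ob B True p q) (hv : v ∉ Icc p q)
    (hv' : v' ∈ Icc p q) : ∃ e, e ∉ B ∧ ((v < e ∧ e < v') ∨ (v' < e ∧ e < v)) := by
  by_cases h : v < p
  · obtain ⟨e, he, heB⟩ := (ho.la (p - v) (by linarith)).2
    exact ⟨e, heB, Or.inl ⟨by linarith [he.1], by linarith [he.2, hv'.1]⟩⟩
  · have h2 : q < v := by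
      by_contra hcon
      exact hv ⟨not_lt.1 h, not_lt.1 hcon⟩
    obtain ⟨e, he, heB⟩ := (ho.ra (v - q) (by linarith)).2
    exact ⟨e, heB, Or.inr ⟨by linarith [he.1, hv'.2], by linarith [he.2]⟩⟩

theorem near_fam {B : Set ℝ} {a b : ℝ} {𝓕 : Set (ℝ × ℝ)} (hF : Fam B a b 𝓕) {o : ℝ × ℝ}
    (ho : o ∈ 𝓕) {v v' : ℝ} (hv : v ∉ Icc o.1 o.2) (hv' : v' ∈ Icc o.1 o.2) :
    ∃ o' ∈ 𝓕, (v < o'.1 ∧ o'.2 < v') ∨ (v' < o'.1 ∧ o'.2 < v) := by
  by_cases h : v < o.1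
  · obtain ⟨o', ho', h1, h2⟩ := hF.left o ho (o.1 - v) (by linarith)
    exact ⟨o', ho', Or.inl ⟨by linarith, by linarith [hv'.1]⟩⟩
  · have h2 : o.2 < v := by
      by_contra hcon
      exact hv ⟨not_lt.1 h, not_lt.1 hcon⟩
    obtain ⟨o', ho', h1, h2⟩ := hF.right o ho (v - o.2) (by linarith)
    exact ⟨o', ho', Or.inr ⟨by linarith [hv'.2], by linarith⟩⟩

theorem Fam.pull {A B : Set ℝ} {f : ℝ → ℝ} (hf : Continuous f) (hr : ∀ x, x ∈ A ↔ f x ∈ B)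
    (hA : Bal A) {x1 x2 a b : ℝ} (hx : x1 < x2) {𝓕 : Set (ℝ × ℝ)} (hF : Fam B a b 𝓕)
    (h : (f x1 ≤ a ∧ b ≤ f x2) ∨ (b ≤ f x1 ∧ f x2 ≤ a)) : ∃ 𝓕', Fam A x1 x2 𝓕' := by
  refine ⟨{o | x1 < o.1 ∧ o.2 < x2 ∧ ∃ p ∈ 𝓕, Comp f p.1 p.2 o.1 o.2}, ?_, ?_, ?_, ?_, ?_, ?_, ?_⟩
  · obtain ⟨p, hp⟩ := hF.ne
    have hbd := hF.bd p hp
    obtain ⟨s, t, h1, h2, h3, h4⟩ := crossing hf hx (hF.lt p hp) (by
      rcases h with ⟨h1, h2⟩ | ⟨h1, h2⟩
      · exact Or.inl ⟨by linarith, by linarith⟩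
      · exact Or.inr ⟨by linarith, by linarith⟩)
    exact ⟨(s, t), h1, h3, p, hp, h4⟩
  · rintro o ⟨h1, h2, p, hp, hc⟩
    have hcol : ∀ x ∈ Icc o.1 o.2, x ∈ A := fun x hx =>
      (hr x).2 (((hF.ob p hp).col _ (hc.maps x hx)).2 trivial)
    have hlt := hc.lt
    refine ⟨hlt.le, fun x hx => ⟨fun _ => trivial, fun _ => hcol x hx⟩, ?_, ?_⟩
    · intro ε hε
      obtain ⟨y, hy, hy'⟩ := (hA o.1 ε hε).2
      refine ⟨⟨y, hy, hy'.2 (hcol _ ⟨le_rfl, hlt.le⟩)⟩, ?_⟩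
      obtain ⟨w, hw, hw'⟩ := hc.left ε hε
      obtain ⟨e, he, he'⟩ := near_out (hF.ob p hp) hw' (hc.maps o.1 ⟨le_rfl, hlt.le⟩)
      obtain ⟨z, hz, hz'⟩ := ivt_open hf hw.2 (v := e) (by tauto)
      exact ⟨z, ⟨by linarith [hw.1, hz.1], hz.2⟩, fun hzA => he (hz' ▸ (hr z).1 hzA)⟩
    · intro ε hε
      obtain ⟨y, hy, hy'⟩ := (hA o.2 ε hε).1
      refine ⟨⟨y, hy, hy'.2 (hcol _ ⟨hlt.le, le_rfl⟩)⟩, ?_⟩
      obtain ⟨w, hw, hw'⟩ := hc.right ε hε
      obtain ⟨e, he, he'⟩ := near_out (hF.ob p hp) hw' (hc.maps o.2 ⟨hlt.le, le_rfl⟩)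
      obtain ⟨z, hz, hz'⟩ := ivt_open hf hw.1 (v := e) (by tauto)
      exact ⟨z, ⟨hz.1, by linarith [hw.2, hz.2]⟩, fun hzA => he (hz' ▸ (hr z).1 hzA)⟩
  · rintro o ⟨_, _, p, _, hc⟩
    exact hc.lt
  · rintro o ⟨h1, h2, _⟩
    exact ⟨h1, h2⟩
  · rintro o ⟨h1, h2, p, hp, hc⟩ ε hε
    obtain ⟨w, hw, hw'⟩ := hc.right (min ε (x2 - o.2)) (lt_min hε (by linarith))
    have m1 := min_le_left ε (x2 - o.2)
    have m2 := min_le_right ε (x2 - o.2)
    obtain ⟨p', hp', hor⟩ := near_fam hF hp hw' (hc.maps o.2 ⟨hc.lt.le, le_rfl⟩)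
    obtain ⟨s, t, k1, k2, k3, k4⟩ := crossing hf hw.1 (hF.lt p' hp') (by tauto)
    have := hc.lt
    exact ⟨(s, t), ⟨by simp only; linarith, by simp only; linarith [hw.2], p', hp', k4⟩, k1,
      by simp only; linarith [hw.2]⟩
  · rintro o ⟨h1, h2, p, hp, hc⟩ ε hε
    obtain ⟨w, hw, hw'⟩ := hc.left (min ε (o.1 - x1)) (lt_min hε (by linarith))
    have m1 := min_le_left ε (o.1 - x1)
    have m2 := min_le_right ε (o.1 - x1)
    obtain ⟨p', hp', hor⟩ := near_fam hF hp hw' (hc.maps o.1 ⟨le_rfl, hc.lt.le⟩)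
    obtain ⟨s, t, k1, k2, k3, k4⟩ := crossing hf hw.2 (hF.lt p' hp') (by tauto)
    have := hc.lt
    exact ⟨(s, t), ⟨by simp only; linarith [hw.1], by simp only; linarith, p', hp', k4⟩,
      by simp only; linarith [hw.1], k3⟩
  · intro x hx
    have h1 : f x ∈ closure (⋃ o ∈ 𝓕, Icc o.1 o.2) := by
      apply map_mem_closure hf hx
      intro y hy
      obtain ⟨o, ho, hy⟩ := mem_iUnion₂.1 hy
      obtain ⟨_, _, p, hp, hc⟩ := ho
      exact mem_iUnion₂.2 ⟨p, hp, hc.maps y hy⟩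
    exact (hr x).2 (hF.clos h1)

/-- Balance is inherited by reductions. -/
theorem Bal.of_red {A B : Set ℝ} {f : ℝ → ℝ} (hf : Continuous f) (hr : ∀ x, x ∈ A ↔ f x ∈ B)
    (hB : Bal B) : Bal A := by
  have key : ∀ x y, x ≠ y → f x ≠ f y →
      ∃ e, (e ∈ B ↔ f x ∈ B) ∧ ((f x < e ∧ e < f y) ∨ (e < f x ∧ f y < e)) := by
    intro x y _ hxy
    rcases lt_or_gt_of_ne hxy with h | h
    · obtain ⟨e, he, he'⟩ := (hB (f x) (f y - f x) (by linarith)).1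
      exact ⟨e, he', Or.inl ⟨he.1, by linarith [he.2]⟩⟩
    · obtain ⟨e, he, he'⟩ := (hB (f x) (f x - f y) (by linarith)).2
      exact ⟨e, he', Or.inr ⟨he.2, by linarith [he.1]⟩⟩
  intro x ε hε
  constructor
  · by_cases hc : (x + ε / 2 ∈ A ↔ x ∈ A)
    · exact ⟨x + ε / 2, ⟨by linarith, by linarith⟩, hc⟩
    · have hne : f x ≠ f (x + ε / 2) := by
        intro e
        apply hc
        rw [hr, hr, e]
      obtain ⟨e, he, he'⟩ := key x (x + ε / 2) (by linarith) hne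
      obtain ⟨w, hw, hw'⟩ := ivt_open hf (show x < x + ε / 2 by linarith) he'
      exact ⟨w, ⟨hw.1, by linarith [hw.2]⟩, by rw [hr, hr, hw', he]⟩
  · by_cases hc : (x - ε / 2 ∈ A ↔ x ∈ A)
    · exact ⟨x - ε / 2, ⟨by linarith, by linarith⟩, hc⟩
    · have hne : f x ≠ f (x - ε / 2) := by
        intro e
        apply hc
        rw [hr, hr, e]
      obtain ⟨e, he, he'⟩ := key x (x - ε / 2) (by linarith) hne
      obtain ⟨w, hw, hw'⟩ := ivt_open hf (show x - ε / 2 < x by linarith) (v := e) (by tauto)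
      exact ⟨w, ⟨by linarith [hw.1], hw.2⟩, by rw [hr, hr, hw', he]⟩

/-- Between points of different colours both colours occur. -/
theorem Bal.between {B : Set ℝ} (hB : Bal B) {u v : ℝ} (huv : u < v) (hc : u ∈ B ↔ v ∉ B) :
    (∃ x ∈ Ioo u v, x ∈ B) ∧ (∃ x ∈ Ioo u v, x ∉ B) := by
  obtain ⟨x, hx, hx'⟩ := (hB u (v - u) (by linarith)).1
  obtain ⟨y, hy, hy'⟩ := (hB v (v - u) (by linarith)).2
  have hx2 : x ∈ Ioo u v := ⟨hx.1, by linarith [hx.2]⟩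
  have hy2 : y ∈ Ioo u v := ⟨by linarith [hy.1], hy.2⟩
  by_cases hu : u ∈ B
  · exact ⟨⟨x, hx2, hx'.2 hu⟩, ⟨y, hy2, fun h => hc.1 hu (hy'.1 h)⟩⟩
  · have hv : v ∈ B := by tauto
    exact ⟨⟨y, hy2, hy'.2 hv⟩, ⟨x, hx2, fun h => hu (hx'.1 h)⟩⟩

theorem Fam.wide {A : Set ℝ} {a b a' b' : ℝ} {𝓕 : Set (ℝ × ℝ)} (h : Fam A a b 𝓕) (ha : a' ≤ a)
    (hb : b ≤ b') : Fam A a' b' 𝓕 :=
  ⟨h.ne, h.ob, h.lt, fun o ho => ⟨by linarith [(h.bd o ho).1], by linarith [(h.bd o ho).2]⟩,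
    h.right, h.left, h.clos⟩

/-- Richness is inherited by reductions. -/
theorem Rich.of_red {A B : Set ℝ} {f : ℝ → ℝ} (hf : Continuous f) (hr : ∀ x, x ∈ A ↔ f x ∈ B)
    (hB : Bal B) (hR : Rich B) : Rich A := by
  have hA := hB.of_red hf hr
  have aux : ∀ x y, x < y → (x ∈ A ↔ y ∉ A) → ∃ 𝓕, Fam A x y 𝓕 := by
    intro x y hxy hc
    have hne : f x ≠ f y := by
      intro e
      have h1 : x ∈ A ↔ y ∈ A := by rw [hr, hr, e]
      tauto
    rcases lt_or_gt_of_ne hne with h | h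
    · obtain ⟨h1, h2⟩ := hB.between h (by rw [← hr, ← hr]; exact hc)
      obtain ⟨𝓕, hF⟩ := hR (f x) (f y) h1 h2
      exact hF.pull hf hr hA hxy (Or.inl ⟨le_rfl, le_rfl⟩)
    · obtain ⟨h1, h2⟩ := hB.between h (by rw [← hr, ← hr]; tauto)
      obtain ⟨𝓕, hF⟩ := hR (f y) (f x) h1 h2
      exact hF.pull hf hr hA hxy (Or.inr ⟨le_rfl, le_rfl⟩)
  rintro a b ⟨x, hx, hxA⟩ ⟨y, hy, hyA⟩
  have hne : x ≠ y := by rintro rfl; exact hyA hxA
  rcases lt_or_gt_of_ne hne with h | h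
  · obtain ⟨𝓕, hF⟩ := aux x y h (by tauto)
    exact ⟨𝓕, hF.wide hx.1.le hy.2.le⟩
  · obtain ⟨𝓕, hF⟩ := aux y x h (by tauto)
    exact ⟨𝓕, hF.wide hy.1.le hx.2.le⟩

end Helper98.Wadge
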