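import Pool.Agent.Helper98_Wadge.Cut

namespace Helper98.Wadge

open Set Filter Topology

/-- A family of nondegenerate objects of colour `A` in `(a, b)`, each of which is a two sided
limit of others, with closure inside `A`. -/
structure Fam (A : Set ℝ) (a b : ℝ) (𝓕 : Set (ℝ × ℝ)) : Prop where
  ne : 𝓕.Nonempty
  ob : ∀ o ∈ 𝓕, Ob A True o.1 o.2
  lt : ∀ o ∈ 𝓕, o.1 < o.2
  bd : ∀ o ∈ 𝓕, a < o.1 ∧ o.2 < b
  right : ∀ o ∈ 𝓕, ∀ ε > 0, ∃ o' ∈ 𝓕, o.2 < o'.1 ∧ o'.2 < o.2 + ε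
  left : ∀ o ∈ 𝓕, ∀ ε > 0, ∃ o' ∈ 𝓕, o.1 - ε < o'.1 ∧ o'.2 < o.1
  clos : closure (⋃ o ∈ 𝓕, Icc o.1 o.2) ⊆ A

/-- Every interval meeting both colours contains a family. -/
def Rich (A : Set ℝ) : Prop := ∀ a b, (∃ x ∈ Ioo a b, x ∈ A) → (∃ x ∈ Ioo a b, x ∉ A) →
  ∃ 𝓕, Fam A a b 𝓕

/-- Nondegenerate objects of the complementary colour are dense. -/
def CoDense (A : Set ℝ) : Prop := ∀ a b, (∃ x ∈ Ioo a b, x ∈ A) → (∃ x ∈ Ioo a b, x ∉ A) →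
  ∃ s t, a < s ∧ s < t ∧ t < b ∧ Ob A False s t

structure Ctx (A B : Set ℝ) (F G : ℕ → Set ℝ) (c0 d0 : ℝ) : Prop where
  balA : Bal A
  balB : Bal B
  Fc : ∀ n, IsClosed (F n)
  Fs : ∀ n, ∀ x ∈ F n, ∀ y, uIcc x y ⊆ A → y ∈ F n
  FA : ∀ n, F n ⊆ A
  FU : ∀ x ∈ A, ∃ n, x ∈ F n
  Gc : ∀ n, IsClosed (G n)
  Gs : ∀ n, ∀ x ∈ G n, ∀ y, uIcc x y ⊆ B → y ∈ G n
  GB : ∀ n, G n ⊆ B
  GU : ∀ x ∈ B, ∃ n, x ∈ G n
  rich : Rich A
  alt : CoDense A ∨ ∀ p q, p < q → Icc p q ⊆ Icc c0 d0 → ∃ x ∈ Icc p q, x ∈ B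

structure Adm (A B : Set ℝ) (c0 d0 : ℝ) (u v y z : ℝ) : Prop where
  lt : u < v
  ra : RA A u
  la : LA A v
  t1 : Tow B y z
  t2 : Tow B z y
  c1 : u ∈ A ↔ y ∈ B
  c2 : v ∈ A ↔ z ∈ B
  r1 : y ∈ Icc c0 d0
  r2 : z ∈ Icc c0 d0

theorem Tow.ne {X : Set ℝ} {y z : ℝ} (h : Tow X y z) : y ≠ z := by
  rcases h with h | h
  · exact h.1.ne
  · exact h.1.ne'

theorem Tow.sub {X : Set ℝ} {y z p : ℝ} (h : Tow X y z) (hp : p ∈ uIcc y z) (hne : p ≠ y) :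
    Tow X y p := by
  rcases h with ⟨h1, h2⟩ | ⟨h1, h2⟩
  · rw [uIcc_of_le h1.le] at hp
    exact Or.inl ⟨lt_of_le_of_ne hp.1 (Ne.symm hne), h2⟩
  · rw [uIcc_of_ge h1.le] at hp
    exact Or.inr ⟨lt_of_le_of_ne hp.2 hne, h2⟩

theorem Icc_uIcc {c0 d0 y z p : ℝ} (h1 : y ∈ Icc c0 d0) (h2 : z ∈ Icc c0 d0) (h : p ∈ uIcc y z) :
    p ∈ Icc c0 d0 := ordConnected_Icc.uIcc_subset h1 h2 h

theorem Adm.left {A B : Set ℝ} {c0 d0 u v y z s t p q : ℝ} {χ : Prop}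
    (h : Adm A B c0 d0 u v y z) (ho : Ob A χ s t) (hn : Nb B χ y z p q) (us : u < s) :
    Adm A B c0 d0 u s y p := by
  refine ⟨us, h.ra, ho.la, h.t1.sub hn.mp hn.ne1, hn.tp, h.c1, ?_, h.r1, Icc_uIcc h.r1 h.r2 hn.mp⟩
  rw [ho.col s ⟨le_rfl, ho.le⟩, hn.col p left_mem_uIcc]

theorem Adm.right {A B : Set ℝ} {c0 d0 u v y z s t p q : ℝ} {χ : Prop}
    (h : Adm A B c0 d0 u v y z) (ho : Ob A χ s t) (hn : Nb B χ y z p q) (tv : t < v) :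
    Adm A B c0 d0 t v q z := by
  have hm : q ∈ uIcc z y := by rw [uIcc_comm]; exact hn.mq'
  refine ⟨tv, ho.ra, h.la, hn.tq, h.t2.sub hm hn.ne2, ?_, h.c2, Icc_uIcc h.r1 h.r2 hn.mq', h.r2⟩
  rw [ho.col t ⟨ho.le, le_rfl⟩, hn.col q right_mem_uIcc]

theorem Adm.cut {A B : Set ℝ} {P : Bx} {c0 d0 u v y z s t p q : ℝ} {χ : Prop}
    (h : Adm A B c0 d0 u v y z) (ho : Ob A χ s t) (hn : Nb B χ y z p q) (us : u < s) (tv : t < v)
    (hpq : s = t → p = q) (h1 : P u s y p) (h2 : P t v q z) : Sol A B P u v y z := by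
  refine SolR.cut ordConnected_uIcc us ho.le tv hpq left_mem_uIcc hn.mp hn.mq' right_mem_uIcc
    h.c1 h.c2 ?_ h1 h2
  intro x hx w hw
  rw [ho.col x hx, hn.col w hw]

theorem Adm.triv {A B : Set ℝ} {P : Bx} {c0 d0 u v y z : ℝ}
    (h : Adm A B c0 d0 u v y z) (h1 : P u v y z) : Sol A B P u v y z :=
  SolR.triv ordConnected_uIcc h.lt left_mem_uIcc right_mem_uIcc h.c1 h.c2 h1

theorem Ob.congr {X : Set ℝ} {χ χ' : Prop} {s t : ℝ} (h : Ob X χ s t) (e : χ ↔ χ') : Ob X χ' s t :=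
  ⟨h.le, fun x hx => (h.col x hx).trans e, h.la, h.ra⟩

theorem Nb.congr {X : Set ℝ} {χ χ' : Prop} {y z p q : ℝ} (h : Nb X χ y z p q) (e : χ ↔ χ') :
    Nb X χ' y z p q :=
  ⟨h.ne1, h.ne2, h.mp, h.mq, fun x hx => (h.col x hx).trans e, h.tp, h.tq⟩

section ctx

variable {A B : Set ℝ} {F G : ℕ → Set ℝ} {c0 d0 : ℝ}

theorem Ctx.eq_of_false (_ : Ctx A B F G c0 d0)
    (hd : ∀ p q, p < q → Icc p q ⊆ Icc c0 d0 → ∃ x ∈ Icc p q, x ∈ B)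
    {y z p q : ℝ} (hn : Nb B False y z p q)
    (hy : y ∈ Icc c0 d0) (hz : z ∈ Icc c0 d0) : p = q := by
  by_contra hne
  have hp := Icc_uIcc hy hz hn.mp
  have hq := Icc_uIcc hy hz hn.mq'
  rcases lt_or_gt_of_ne hne with h | h
  · obtain ⟨x, hx, hxB⟩ := hd p q h (Icc_subset_Icc hp.1 hq.2)
    exact (hn.col x (by rw [uIcc_of_le h.le]; exact hx)).1 hxB
  · obtain ⟨x, hx, hxB⟩ := hd q p h (Icc_subset_Icc hq.1 hp.2)
    exact (hn.col x (by rw [uIcc_of_ge h.le]; exact hx)).1 hxB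

theorem Ctx.dom_right (hc : Ctx A B F G c0 d0) {χ : Prop} {y z p q u ε : ℝ}
    (hn : Nb B χ y z p q) (hy : y ∈ Icc c0 d0) (hz : z ∈ Icc c0 d0) (hu : RA A u) (hε : 0 < ε) :
    ∃ s t, u < s ∧ t < u + ε ∧ Ob A χ s t ∧ (s = t → p = q) := by
  by_cases hχ : χ
  · obtain ⟨𝓕, hF⟩ := hc.rich u (u + ε) (hu ε hε).1 (hu ε hε).2
    obtain ⟨o, ho⟩ := hF.ne
    exact ⟨o.1, o.2, (hF.bd o ho).1, (hF.bd o ho).2, (hF.ob o ho).congr (by simp [hχ]),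
      fun e => absurd e (hF.lt o ho).ne⟩
  · rcases hc.alt with h | h
    · obtain ⟨s, t, h1, h2, h3, h4⟩ := h u (u + ε) (hu ε hε).1 (hu ε hε).2
      exact ⟨s, t, h1, h3, h4.congr (by simp [hχ]), fun e => absurd e h2.ne⟩
    · obtain ⟨s, t, h1, h2, h3, h4⟩ := hc.balA.ob_right hu hε χ
      exact ⟨s, t, h1, h3, h4, fun _ =>
        hc.eq_of_false h (hn.congr (by simp [hχ])) hy hz⟩

theorem Ctx.dom_left (hc : Ctx A B F G c0 d0) {χ : Prop} {y z p q v ε : ℝ}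
    (hn : Nb B χ y z p q) (hy : y ∈ Icc c0 d0) (hz : z ∈ Icc c0 d0) (hv : LA A v) (hε : 0 < ε) :
    ∃ s t, v - ε < s ∧ t < v ∧ Ob A χ s t ∧ (s = t → p = q) := by
  by_cases hχ : χ
  · obtain ⟨𝓕, hF⟩ := hc.rich (v - ε) v (hv ε hε).1 (hv ε hε).2
    obtain ⟨o, ho⟩ := hF.ne
    exact ⟨o.1, o.2, (hF.bd o ho).1, (hF.bd o ho).2, (hF.ob o ho).congr (by simp [hχ]),
      fun e => absurd e (hF.lt o ho).ne⟩
  · rcases hc.alt with h | h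
    · obtain ⟨s, t, h1, h2, h3, h4⟩ := h (v - ε) v (hv ε hε).1 (hv ε hε).2
      exact ⟨s, t, h1, h3, h4.congr (by simp [hχ]), fun e => absurd e h2.ne⟩
    · obtain ⟨s, t, h1, h2, h3, h4⟩ := hc.balA.ob_left hv hε χ
      exact ⟨s, t, h1, h3, h4, fun _ =>
        hc.eq_of_false h (hn.congr (by simp [hχ])) hy hz⟩

/-- Halving the range. -/
theorem Ctx.halve (hc : Ctx A B F G c0 d0) {u v y z : ℝ} (h : Adm A B c0 d0 u v y z) :
    Sol A B (fun a b c d => Adm A B c0 d0 a b c d ∧ |c - d| ≤ |y - z| / 2) u v y z := by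
  have hyz := h.t1.ne
  have hm : (y + z) / 2 ∈ uIcc y z := by
    rw [mem_uIcc]
    rcases le_total y z with h | h
    · left; constructor <;> linarith
    · right; constructor <;> linarith
  obtain ⟨p, q, hn, hmpq⟩ := hc.balB.nb_at h.t1 h.t2 hm
    (fun e => hyz (by linarith)) (fun e => hyz (by linarith))
  obtain ⟨s, t, h1, h2, h3, h4⟩ := hc.dom_right hn h.r1 h.r2 h.ra (ε := v - u) (by linarith [h.lt])
  refine h.cut h3 hn h1 (by linarith) h4 ⟨h.left h3 hn h1, ?_⟩ ⟨h.right h3 hn (by linarith), ?_⟩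
  · have a1 := hn.mp
    have a2 := hn.mq
    rw [mem_uIcc] at a1 a2 hmpq
    rcases abs_cases (y - z) with ⟨e, _⟩ | ⟨e, _⟩ <;> rw [e, abs_le] <;>
    rcases a1 with ⟨b1, b2⟩ | ⟨b1, b2⟩ <;> rcases a2 with ⟨b3, b4⟩ | ⟨b3, b4⟩ <;>
    rcases hmpq with ⟨b5, b6⟩ | ⟨b5, b6⟩ <;> constructor <;> linarith
  · have a1 := hn.mp
    have a2 := hn.mq
    rw [mem_uIcc] at a1 a2 hmpq
    rcases abs_cases (y - z) with ⟨e, _⟩ | ⟨e, _⟩ <;> rw [e, abs_le] <;>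
    rcases a1 with ⟨b1, b2⟩ | ⟨b1, b2⟩ <;> rcases a2 with ⟨b3, b4⟩ | ⟨b3, b4⟩ <;>
    rcases hmpq with ⟨b5, b6⟩ | ⟨b5, b6⟩ <;> constructor <;> linarith

theorem Ctx.shrink_aux (hc : Ctx A B F G c0 d0) {ε : ℝ} (k : ℕ) :
    ∀ {u v y z : ℝ}, Adm A B c0 d0 u v y z → |y - z| ≤ 2 ^ k * ε →
    Sol A B (fun a b c d => Adm A B c0 d0 a b c d ∧ |c - d| ≤ ε) u v y z := by
  induction k with
  | zero =>
    intro u v y z h h1
    exact h.triv ⟨h, by simpa using h1⟩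
  | succ k ih =>
    intro u v y z h h1
    refine (hc.halve h).comp ?_
    rintro s t p q ⟨h2, h3⟩
    apply ih h2
    rw [pow_succ] at h1
    linarith

theorem Ctx.shrink (hc : Ctx A B F G c0 d0) {ε : ℝ} (hε : 0 < ε) {u v y z : ℝ}
    (h : Adm A B c0 d0 u v y z) :
    Sol A B (fun a b c d => Adm A B c0 d0 a b c d ∧ |c - d| ≤ ε) u v y z := by
  obtain ⟨k, hk⟩ := pow_unbounded_of_one_lt (|y - z| / ε) (one_lt_two)
  refine hc.shrink_aux k h ?_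
  rw [div_lt_iff₀ hε] at hk
  exact hk.le

/-- Boxes with both ends outside. -/
def Good (A B : Set ℝ) (c0 d0 : ℝ) : Bx := fun u v y z =>
  Adm A B c0 d0 u v y z ∧ u ∉ A ∧ v ∉ A

theorem Ctx.zleft (hc : Ctx A B F G c0 d0) {u v y z : ℝ} (h : Adm A B c0 d0 u v y z)
    (hv : v ∉ A) : Sol A B (Good A B c0 d0) u v y z := by
  have hC : 0 < |z - y| := abs_pos.2 (sub_ne_zero.2 h.t2.ne)
  have hD : 0 < v - u + 1 := by linarith [h.lt]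
  refine fusion (L := fun n s t p q => Adm A B c0 d0 s t p q ∧ s = u ∧ p = y ∧ t ∉ A ∧
    t < u + (v - u + 1) * (1 / 2) ^ n ∧ |p - q| ≤ |z - y| * (1 / 2) ^ n)
    (C := |z - y|) hC.le ?_ ?_ ?_ ?_
  · rintro n s t p q ⟨h1, h2, h3, h4, h5, h6⟩
    subst s p
    have hε : 0 < |z - y| * (1 / 2) ^ (n + 1) := by positivity
    obtain ⟨p', q', hn, hp', hq'⟩ := hc.balB.nb_near h1.t1 hε False
    have hδ : 0 < min (t - u) ((v - u + 1) * (1 / 2) ^ (n + 1)) :=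
      lt_min (by linarith [h1.lt]) (by positivity)
    obtain ⟨s1, t1, k1, k2, k3, k4⟩ := hc.dom_right hn h1.r1 h1.r2 h1.ra hδ
    have m1 := min_le_left (t - u) ((v - u + 1) * (1 / 2) ^ (n + 1))
    have m2 := min_le_right (t - u) ((v - u + 1) * (1 / 2) ^ (n + 1))
    have k3le := k3.le
    refine h1.cut k3 hn k1 (by linarith) k4 (Or.inl ⟨h1.left k3 hn k1, rfl, rfl, ?_, ?_, ?_⟩)
      (Or.inr ⟨h1.right k3 hn (by linarith), ?_, h4⟩)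
    · intro hh; exact (k3.col s1 ⟨le_rfl, k3.le⟩).1 hh
    · linarith
    · rw [abs_sub_comm]; exact hp'.le
    · intro hh; exact (k3.col t1 ⟨k3.le, le_rfl⟩).1 hh
  · rintro n s t p q ⟨h1, h2, h3, h4, h5, h6⟩
    exact h6
  · intro x w hx
    exfalso
    have hxu : u < x := by
      obtain ⟨s, t, p, q, ⟨h1, h2, h3, h4, h5, h6⟩, h7, _⟩ := hx 0
      rw [← h2]; exact h7.1
    have hlim : Tendsto (fun n : ℕ => u + (v - u + 1) * (1 / 2 : ℝ) ^ n) atTop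
        (𝓝 (u + (v - u + 1) * 0)) :=
      ((tendsto_pow_atTop_nhds_zero_of_lt_one (by norm_num) (by norm_num)).const_mul _).const_add _
    rw [mul_zero, add_zero] at hlim
    obtain ⟨n, hn⟩ := (hlim.eventually (gt_mem_nhds hxu)).exists
    obtain ⟨s, t, p, q, ⟨h1, h2, h3, h4, h5, h6⟩, h7, _⟩ := hx n
    linarith [h7.2]
  · exact ⟨h, rfl, rfl, hv, by rw [pow_zero]; linarith, by simp [abs_sub_comm]⟩

theorem Ctx.zright (hc : Ctx A B F G c0 d0) {u v y z : ℝ} (h : Adm A B c0 d0 u v y z)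
    (hu : u ∉ A) : Sol A B (Good A B c0 d0) u v y z := by
  have hC : 0 < |z - y| := abs_pos.2 (sub_ne_zero.2 h.t2.ne)
  have hD : 0 < v - u + 1 := by linarith [h.lt]
  refine fusion (L := fun n s t p q => Adm A B c0 d0 s t p q ∧ t = v ∧ q = z ∧ s ∉ A ∧
    v - (v - u + 1) * (1 / 2) ^ n < s ∧ |p - q| ≤ |z - y| * (1 / 2) ^ n)
    (C := |z - y|) hC.le ?_ ?_ ?_ ?_
  · rintro n s t p q ⟨h1, h2, h3, h4, h5, h6⟩
    subst t q
    have hε : 0 < |z - y| * (1 / 2) ^ (n + 1) := by positivity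
    obtain ⟨q', p', hn', hq', hp'⟩ := hc.balB.nb_near h1.t2 hε False
    have hn := hn'.symm
    have hδ : 0 < min (v - s) ((v - u + 1) * (1 / 2) ^ (n + 1)) :=
      lt_min (by linarith [h1.lt]) (by positivity)
    obtain ⟨s1, t1, k1, k2, k3, k4⟩ := hc.dom_left hn h1.r1 h1.r2 h1.la hδ
    have m1 := min_le_left (v - s) ((v - u + 1) * (1 / 2) ^ (n + 1))
    have m2 := min_le_right (v - s) ((v - u + 1) * (1 / 2) ^ (n + 1))
    have k3le := k3.le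
    refine h1.cut k3 hn (by linarith) k2 k4 (Or.inr ⟨h1.left k3 hn (by linarith), h4, ?_⟩)
      (Or.inl ⟨h1.right k3 hn k2, rfl, rfl, ?_, ?_, ?_⟩)
    · intro hh; exact (k3.col s1 ⟨le_rfl, k3.le⟩).1 hh
    · intro hh; exact (k3.col t1 ⟨k3.le, le_rfl⟩).1 hh
    · linarith
    · exact hq'.le
  · rintro n s t p q ⟨h1, h2, h3, h4, h5, h6⟩
    exact h6
  · intro x w hx
    exfalso
    have hxu : x < v := by
      obtain ⟨s, t, p, q, ⟨h1, h2, h3, h4, h5, h6⟩, h7, _⟩ := hx 0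
      rw [← h2]; exact h7.2
    have hlim : Tendsto (fun n : ℕ => v - (v - u + 1) * (1 / 2 : ℝ) ^ n) atTop
        (𝓝 (v - (v - u + 1) * 0)) :=
      ((tendsto_pow_atTop_nhds_zero_of_lt_one (by norm_num) (by norm_num)).const_mul _).const_sub _
    rw [mul_zero, sub_zero] at hlim
    obtain ⟨n, hn⟩ := (hlim.eventually (lt_mem_nhds hxu)).exists
    obtain ⟨s, t, p, q, ⟨h1, h2, h3, h4, h5, h6⟩, h7, _⟩ := hx n
    linarith [h7.1]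
  · exact ⟨h, rfl, rfl, hu, by rw [pow_zero]; linarith, by simp [abs_sub_comm]⟩

theorem Ctx.zstep (hc : Ctx A B F G c0 d0) {u v y z : ℝ} (h : Adm A B c0 d0 u v y z) :
    Sol A B (Good A B c0 d0) u v y z := by
  obtain ⟨p, q, hn, _, _⟩ := hc.balB.nb_near h.t1 one_pos False
  obtain ⟨s, t, k1, k2, k3, k4⟩ := hc.dom_right hn h.r1 h.r2 h.ra (ε := v - u) (by linarith [h.lt])
  have h1 : Sol A B (fun a b c d => Adm A B c0 d0 a b c d ∧ (a ∉ A ∨ b ∉ A)) u v y z := by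
    refine h.cut k3 hn k1 (by linarith) k4 ⟨h.left k3 hn k1, Or.inr ?_⟩
      ⟨h.right k3 hn (by linarith), Or.inl ?_⟩
    · intro hh; exact (k3.col s ⟨le_rfl, k3.le⟩).1 hh
    · intro hh; exact (k3.col t ⟨k3.le, le_rfl⟩).1 hh
  refine h1.comp ?_
  rintro a b c d ⟨h2, h3 | h3⟩
  · exact hc.zright h2 h3
  · exact hc.zleft h2 h3

end ctx

end Helper98.Wadge
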